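import Mathlib

/-!
# MP_2027e1_lc: a universal Diophantine polynomial with eight unknowns

Definitions of the project E8 (`m* ≤ 8`).
-/

set_option autoImplicit false

namespace Pool.Agent.Lib.MP2027e1

open Finset

/-- Value of an integer polynomial at a point with natural coordinates. -/
noncomputable def ev {σ : Type*} (P : MvPolynomial σ ℤ) (v : σ → ℕ) : ℤ :=
  MvPolynomial.eval (fun s => (v s : ℤ)) P

/-- The point `(x; b, g)`: parameters `x`, then `b`, then `g`. -/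
def pt {p : ℕ} (x : Fin p → ℕ) (b g : ℕ) : Fin p ⊕ Fin 2 → ℕ := Sum.elim x ![b, g]

/-- Binary digit sum. -/
def pop (n : ℕ) : ℕ := (Nat.digits 2 n).sum

/-- The Lucas sequence `psi a n = ψ_n(2a)`, i.e. the second coordinate of the `n`-th solution of
Pell's equation `x² - (a² - 1) y² = 1` (Mathlib's `Pell.yn`). -/
def psi (a : ℤ) : ℕ → ℤ
  | 0 => 0
  | 1 => 1
  | n + 2 => 2 * a * psi a (n + 1) - psi a n

/-- `s_k = b * binom(2k,k) + 4^k`. -/
def sk (b k : ℕ) : ℕ := b * Nat.centralBinom k + 4 ^ k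

/-- The integer `N = ∑_{k<X} s_k V ψ_{2(X-k)}(V) + s_X`, `V = 2a`. -/
def NN (a b X : ℕ) : ℤ :=
  (∑ k ∈ Finset.range X, (sk b k : ℤ) * (2 * a) * psi a (2 * (X - k))) + sk b X

section ring

variable {R : Type*} [CommRing R]

/-- `D = (a² - 1) C² + 1`. -/
def DD (a C : R) : R := (a ^ 2 - 1) * C ^ 2 + 1
/-- `E = 2 C² D (i + 1)`. -/
def EE (a C i : R) : R := 2 * C ^ 2 * DD a C * (i + 1)
/-- `F = (a² - 1) E² + 1`. -/
def FF (a C i : R) : R := (a ^ 2 - 1) * (EE a C i) ^ 2 + 1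
/-- `G = a + F (F - a)`. -/
def GG (a C i : R) : R := a + FF a C i * (FF a C i - a)
/-- `H = C + B F + (2j + 1) C F`. -/
def HH (a B C i j : R) : R := C + B * FF a C i + (2 * j + 1) * C * FF a C i
/-- `I = (G² - 1) H² + 1`. -/
def II (a B C i j : R) : R := ((GG a C i) ^ 2 - 1) * (HH a B C i j) ^ 2 + 1
/-- `D F I`. -/
def A2 (a B C i j : R) : R := DD a C * FF a C i * II a B C i j
/-- `(a'² - 1) Z² + 1`. -/
def A1 (a' Z : R) : R := (a' ^ 2 - 1) * Z ^ 2 + 1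

/-- coefficients of `F(t) = (L(1-4t) - C(1+t))² - b²C²(1+t)²(1-4t) = f0 + f1 t + f2 t² + f3 t³` -/
def f0 (C L b : R) : R := (L - C) ^ 2 - b ^ 2 * C ^ 2
def f1 (C L b : R) : R := -2 * (L - C) * (4 * L + C) + 2 * b ^ 2 * C ^ 2
def f2 (C L b : R) : R := (4 * L + C) ^ 2 + 7 * b ^ 2 * C ^ 2
def f3 (C b : R) : R := 4 * b ^ 2 * C ^ 2

/-- `u + 1/u`, `u² + 1/u²`, `u³ + 1/u³` as polynomials in `V = α + 1/α`, `u = α⁻²`. -/
def t1 (V : R) : R := V ^ 2 - 2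
def t2 (V : R) : R := (t1 V) ^ 2 - 2
def t3 (V : R) : R := t1 V * t2 V - t1 V

/-- The norm `R = F(u) F(1/u)`. -/
def RR (V C L b : R) : R :=
  (f0 C L b) ^ 2 + (f1 C L b) ^ 2 + (f2 C L b) ^ 2 + (f3 C b) ^ 2
    + t1 V * (f0 C L b * f1 C L b + f1 C L b * f2 C L b + f2 C L b * f3 C b)
    + t2 V * (f0 C L b * f2 C L b + f1 C L b * f3 C b)
    + t3 V * (f0 C L b * f3 C b)

/-- Relation combining: `A`, `B` squares and `0 < S` iff `MM A B S n = 0` for some natural `n`. -/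
def MM (A B S n : R) : R :=
  ((n - (2 * S - 1) * (A + (1 + A + B) * B + 1)) ^ 2 - A - (1 + A + B) ^ 2 * B) ^ 2
    - 4 * (1 + A + B) ^ 2 * A * B

end ring

/-- `α = a + √(a² - 1)`. -/
noncomputable def al (a : ℝ) : ℝ := a + Real.sqrt (a ^ 2 - 1)

/-- `u = α⁻²`. -/
noncomputable def uu (a : ℝ) : ℝ := (al a ^ 2)⁻¹

/-- `θ₀ = C (1+u) (b/√(1-4u) + 1/(1-4u))`. -/
noncomputable def th (a C b : ℝ) : ℝ :=
  C * (1 + uu a) * (b / Real.sqrt (1 - 4 * uu a) + 1 / (1 - 4 * uu a))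

end Pool.Agent.Lib.MP2027e1
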