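import Pool.Agent.Lib.MP_2027e1_lc.Spec
import Mathlib

section
/-!
# MP_2027e1_lc, project E8, module ASM
-/
set_option autoImplicit false

namespace Pool.Agent.Lib.MP2027e1

namespace AsmM

open Finset

section
variable {R : Type*} [CommRing R]

/-- `κ = b³ C³ (2a)⁶`. -/
def kap (a C b : R) : R := b ^ 3 * C ^ 3 * (2 * a) ^ 6

/-- `R₀ = κ² (C₀ - g) - 256 C₀ R²`. -/
def R0 (a C L b C0 g : R) : R :=
  (kap a C b) ^ 2 * (C0 - g) - 256 * C0 * (RR (2 * a) C L b) ^ 2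

/-- `a'`. -/
def ap (X C0 b : R) : R := X + 5 + 256000 * C0 * b

/-- `Z`. -/
def Zz (X C0 b z : R) : R := (X + 2) + z * (ap X C0 b - 1)

/-- `a`. -/
def aa (X Y C0 b z : R) : R := b * Y * Zz X C0 b z

/-- The polynomial in terms of `b, g, X, Y, C0`. -/
def core (b g X Y C0 z h l i j n : R) : R :=
  MM (A1 (ap X C0 b) (Zz X C0 b z))
    (A2 (aa X Y C0 b z) (2 * X + 1) (2 * X + 1 + h) i j)
    (R0 (aa X Y C0 b z) (2 * X + 1 + h) (b * Y * l) b C0 g) n

end

theorem map_core {R S : Type*} [CommRing R] [CommRing S] (f : R →+* S)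
    (b g X Y C0 z h l i j n : R) :
    f (core b g X Y C0 z h l i j n) =
      core (f b) (f g) (f X) (f Y) (f C0) (f z) (f h) (f l) (f i) (f j) (f n) := by
  simp only [core, MM, A1, A2, R0, kap, RR, DD, FF, EE, II, GG, HH, f0, f1, f2, f3, t1, t2, t3, aa,
    Zz, ap, map_add, map_mul, map_sub, map_pow, map_one, map_ofNat, map_neg]

theorem dvd_NN (a b X : ℕ) : (2 * (a : ℤ)) ∣ NN a b X - sk b X := by
  unfold NN
  rw [add_sub_cancel_right]
  refine Finset.dvd_sum fun k _ => ?_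
  exact Dvd.intro_left ((sk b k : ℤ) * psi a (2 * (X - k))) (by ring)


theorem DD_pos {a : ℤ} (C : ℤ) (ha : 2 ≤ a) : 1 ≤ DD a C := by
  unfold DD
  have h2 : (0 : ℤ) ≤ a ^ 2 - 1 := by nlinarith
  have := mul_nonneg h2 (sq_nonneg C)
  linarith

theorem EE_pos {a C i : ℤ} (ha : 2 ≤ a) (hC : 1 ≤ C) (hi : 0 ≤ i) : 1 ≤ EE a C i := by
  unfold EE
  have h1 : (1 : ℤ) ≤ C ^ 2 := by nlinarith
  have h2 := DD_pos C ha
  have h3 : 1 ≤ C ^ 2 * DD a C := one_le_mul_of_one_le_of_one_le h1 h2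
  have h4 : 1 ≤ (C ^ 2 * DD a C) * (i + 1) := one_le_mul_of_one_le_of_one_le h3 (by linarith)
  calc (1 : ℤ) ≤ 2 * ((C ^ 2 * DD a C) * (i + 1)) := by linarith
    _ = _ := by ring

theorem FF_ge {a C i : ℤ} (ha : 2 ≤ a) (hC : 1 ≤ C) (hi : 0 ≤ i) : a ≤ FF a C i := by
  unfold FF
  have h1 := EE_pos ha hC hi
  have h2 : 1 ≤ (EE a C i) ^ 2 := by nlinarith
  nlinarith [mul_le_mul_of_nonneg_left h2 (by nlinarith : (0 : ℤ) ≤ a ^ 2 - 1)]

theorem A2_pos {a C i : ℤ} (B j : ℤ) (ha : 2 ≤ a) (hC : 1 ≤ C) (hi : 0 ≤ i) :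
    1 ≤ A2 a B C i j := by
  have h1 := DD_pos C ha
  have h2 := FF_ge ha hC hi
  have h3 : a ≤ GG a C i := by
    unfold GG
    have := mul_nonneg (by linarith : (0 : ℤ) ≤ FF a C i) (by linarith : (0 : ℤ) ≤ FF a C i - a)
    linarith
  have h4 : 1 ≤ II a B C i j := by
    unfold II
    have h5 : (0 : ℤ) ≤ (GG a C i) ^ 2 - 1 := by nlinarith
    have := mul_nonneg h5 (sq_nonneg (HH a B C i j))
    linarith
  unfold A2
  exact one_le_mul_of_one_le_of_one_le (one_le_mul_of_one_le_of_one_le h1 (by linarith)) h4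

theorem psi_mono_aux {a : ℤ} (ha : 1 ≤ a) : ∀ n : ℕ, 0 ≤ psi a n ∧ psi a n ≤ psi a (n + 1)
  | 0 => by simp [psi]
  | n + 1 => by
      obtain ⟨h1, h2⟩ := psi_mono_aux ha n
      refine ⟨h1.trans h2, ?_⟩
      have h3 : psi a (n + 1 + 1) = 2 * a * psi a (n + 1) - psi a n := rfl
      rw [h3]
      nlinarith [mul_le_mul_of_nonneg_right ha (h1.trans h2)]

theorem psi_nonneg {a : ℤ} (ha : 1 ≤ a) (n : ℕ) : 0 ≤ psi a n := (psi_mono_aux ha n).1

theorem NN_nonneg (a b X : ℕ) (ha : 1 ≤ a) : 0 ≤ NN a b X := by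
  unfold NN
  have ha' : (1 : ℤ) ≤ a := by exact_mod_cast ha
  refine add_nonneg (Finset.sum_nonneg fun k _ => ?_) (by positivity)
  have := psi_nonneg ha' (2 * (X - k))
  positivity

theorem coreIff (hExS : SpecExS) (hExC : SpecExC) (hLowS : SpecLowS) (hLowC : SpecLowC)
    (hES : SpecExtrS) (hEC : SpecExtrC) (hRC : SpecRC) (hT : SpecTest)
    (b g X Y C0 : ℕ) (hb : 2 ≤ b) (hX : 1 ≤ X) (hY : 1 ≤ Y) (hC0 : 1 ≤ C0)
    (hbY : ∀ e, b = 2 ^ e → ∃ t, Y = 2 ^ t ∧ e + t ≤ 2 * X) :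
    (∃ z h l i j n : ℕ, core (b : ℤ) g X Y C0 z h l i j n = 0) ↔
      (∃ e t, b = 2 ^ e ∧ Y = 2 ^ t ∧ t ≤ pop X) ∧ g < C0 := by
  -- the natural number a'
  obtain ⟨a', ha'⟩ : ∃ a' : ℕ, a' = X + 5 + 256000 * C0 * b := ⟨_, rfl⟩
  have ha'z : ap (X : ℤ) C0 b = (a' : ℤ) := by rw [ha']; simp [ap]
  have hbC : 1 ≤ C0 * b := Nat.one_le_iff_ne_zero.mpr (by positivity)
  have ha'1 : 1 ≤ a' := by rw [ha']; omega
  have ha'2 : 2 ≤ a' := by rw [ha']; omega
  have ha'X : X + 2 + 1 < a' := by rw [ha']; omega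
  -- lower bound for a from a lower bound of Z
  have hbig : ∀ Z a : ℕ, a' ^ (X + 1) ≤ Z → a = b * Y * Z → 1000 * (256 * C0) * b * 2 ^ X ≤ a := by
    intro Z a hZ ha
    have h1 : 256000 * C0 * b ≤ a' := by rw [ha']; omega
    have h3 : 2 ^ X ≤ a' ^ X := Nat.pow_le_pow_left ha'2 X
    calc 1000 * (256 * C0) * b * 2 ^ X = (256000 * C0 * b) * 2 ^ X := by ring
      _ ≤ a' * a' ^ X := Nat.mul_le_mul h1 h3
      _ = a' ^ (X + 1) := by ring
      _ ≤ Z := hZ
      _ ≤ b * Y * Z := Nat.le_mul_of_pos_left _ (by positivity)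
      _ = a := ha.symm
  have hbig1 : ∀ a : ℕ, 1000 * (256 * C0) * b * 2 ^ X ≤ a → 1000 * b * 2 ^ X ≤ a := by
    intro a h
    refine le_trans ?_ h
    have : 1000 * b * 2 ^ X * 1 ≤ 1000 * b * 2 ^ X * (256 * C0) :=
      Nat.mul_le_mul_left _ (by omega)
    calc 1000 * b * 2 ^ X = 1000 * b * 2 ^ X * 1 := by ring
      _ ≤ _ := this
      _ = _ := by ring
  obtain ⟨B, hB⟩ : ∃ B : ℕ, B = 2 * X + 1 := ⟨_, rfl⟩
  have hB3 : 3 ≤ B := by omega
  have hBz : (2 * (X : ℤ) + 1) = (B : ℤ) := by rw [hB]; push_cast; ring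
  constructor
  · rintro ⟨z, h, l, i, j, n, hn⟩
    obtain ⟨Z, hZ⟩ : ∃ Z : ℕ, Z = X + 2 + z * (a' - 1) := ⟨_, rfl⟩
    have hZz' : ((X + 2 : ℕ) : ℤ) + z * ((a' : ℤ) - 1) = (Z : ℤ) := by
      rw [hZ]; push_cast [Nat.cast_sub ha'1]; ring
    have hZz : Zz (X : ℤ) C0 b z = (Z : ℤ) := by
      unfold Zz; rw [ha'z, ← hZz']; push_cast; ring
    obtain ⟨a, ha⟩ : ∃ a : ℕ, a = b * Y * Z := ⟨_, rfl⟩
    have haz : aa (X : ℤ) Y C0 b z = (a : ℤ) := by
      unfold aa; rw [hZz, ha]; push_cast; ring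
    have hZ1 : 1 ≤ Z := by rw [hZ]; omega
    have ha2 : 2 ≤ a := by
      rw [ha]
      calc 2 = 2 * 1 * 1 := by norm_num
        _ ≤ b * Y * Z := Nat.mul_le_mul (Nat.mul_le_mul hb hY) hZ1
    obtain ⟨C, hC⟩ : ∃ C : ℕ, C = B + h := ⟨_, rfl⟩
    obtain ⟨L, hL⟩ : ∃ L : ℕ, L = b * Y * l := ⟨_, rfl⟩
    have hCz : (B : ℤ) + h = (C : ℤ) := by rw [hC]; push_cast; ring
    have hLz : (b : ℤ) * Y * l = (L : ℤ) := by rw [hL]; push_cast; ring
    unfold core at hn
    rw [ha'z, hZz, haz, hBz, hCz, hLz] at hn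
    have ha2z : (2 : ℤ) ≤ a := by exact_mod_cast ha2
    have hA1 : 1 ≤ A1 (a' : ℤ) (Z : ℤ) := by
      unfold A1
      have h1 : (1 : ℤ) ≤ a' := by exact_mod_cast ha'1
      have h2 : (0 : ℤ) ≤ (a' : ℤ) ^ 2 - 1 := by nlinarith
      have := mul_nonneg h2 (sq_nonneg (Z : ℤ))
      linarith
    have hC3 : 3 ≤ C := by omega
    have hC1z : (1 : ℤ) ≤ C := by exact_mod_cast (by omega : 1 ≤ C)
    have hA2 : 1 ≤ A2 (a : ℤ) B C i j := A2_pos _ _ ha2z hC1z (by positivity)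
    obtain ⟨hs1, hs2, hs3⟩ := (hRC _ _ _ hA1 hA2).1 ⟨n, hn⟩
    -- g < C0 and the size of RR
    have hRR : g < C0 ∧ 256 * (RR (2 * (a : ℤ)) C L b) ^ 2 < (kap (a : ℤ) C b) ^ 2 := by
      unfold R0 at hs3
      have hk : 0 ≤ (kap (a : ℤ) C b) ^ 2 := sq_nonneg _
      have hr : 0 ≤ (RR (2 * (a : ℤ)) C L b) ^ 2 := sq_nonneg _
      have hc : (1 : ℤ) ≤ C0 := by exact_mod_cast hC0
      have hgz : (0 : ℤ) ≤ g := by positivity
      have h1 : 0 < (kap (a : ℤ) C b) ^ 2 * (C0 - g) := by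
        have : 0 ≤ 256 * (C0 : ℤ) * (RR (2 * (a : ℤ)) C L b) ^ 2 := by positivity
        linarith
      have h2 : (0 : ℤ) < C0 - g := by
        by_contra hcon
        push Not at hcon
        have := mul_nonpos_of_nonneg_of_nonpos hk hcon
        linarith
      refine ⟨by exact_mod_cast (by linarith : (g : ℤ) < C0), ?_⟩
      have h3 : (kap (a : ℤ) C b) ^ 2 * (C0 - g) ≤ (kap (a : ℤ) C b) ^ 2 * C0 :=
        mul_le_mul_of_nonneg_left (by linarith) hk
      have h4 : (C0 : ℤ) * (256 * (RR (2 * (a : ℤ)) C L b) ^ 2) <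
          (C0 : ℤ) * (kap (a : ℤ) C b) ^ 2 := by nlinarith
      exact lt_of_mul_lt_mul_left h4 (by linarith)
    refine ⟨?_, hRR.1⟩
    have hZlow : (a' : ℤ) ^ (X + 2 - 1) ≤ ((X + 2 : ℕ) : ℤ) + z * ((a' : ℤ) - 1) :=
      hLowS a' (X + 2) z (by omega) ha'X (by rw [hZz']; exact hs1)
    rw [hZz'] at hZlow
    have hZlow' : a' ^ (X + 1) ≤ Z := by
      have : X + 2 - 1 = X + 1 := by omega
      rw [this] at hZlow
      exact_mod_cast hZlow
    have habig := hbig1 a (hbig Z a hZlow' ha)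
    have hCpsi : (C : ℤ) = psi a B := hExS a B C i j ha2 hB3 (by omega) hs2
    have hLN : (L : ℤ) = NN a b X := by
      refine hES a b X L hb hX habig ?_
      have := hRR.2
      rw [hCpsi, hB] at this
      exact this
    have hdiv : ((b * Y : ℕ) : ℤ) ∣ (sk b X : ℤ) := by
      have h1 : ((b * Y : ℕ) : ℤ) ∣ 2 * (a : ℤ) := ⟨2 * Z, by rw [ha]; push_cast; ring⟩
      have h2 : ((b * Y : ℕ) : ℤ) ∣ NN a b X - sk b X := h1.trans (dvd_NN a b X)
      have h3 : ((b * Y : ℕ) : ℤ) ∣ NN a b X := by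
        rw [← hLN, hL]; exact ⟨l, by push_cast; ring⟩
      have := dvd_sub h3 h2
      simpa using this
    exact (hT b X Y hb hY hbY).1 (by exact_mod_cast hdiv)
  · rintro ⟨het, hg⟩
    have hdiv : b * Y ∣ sk b X := (hT b X Y hb hY hbY).2 het
    -- Z
    obtain ⟨z, hz, hs1⟩ := hLowC a' (X + 2) ha'2
    obtain ⟨Z, hZ⟩ : ∃ Z : ℕ, Z = X + 2 + z * (a' - 1) := ⟨_, rfl⟩
    have hZz' : ((X + 2 : ℕ) : ℤ) + z * ((a' : ℤ) - 1) = (Z : ℤ) := by
      rw [hZ]; push_cast [Nat.cast_sub ha'1]; ring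
    rw [hz, hZz'] at hs1
    have hZz : Zz (X : ℤ) C0 b z = (Z : ℤ) := by
      unfold Zz; rw [ha'z, ← hZz']; push_cast; ring
    have hZlow' : a' ^ (X + 1) ≤ Z := by
      have hZlow : (a' : ℤ) ^ (X + 2 - 1) ≤ ((X + 2 : ℕ) : ℤ) + z * ((a' : ℤ) - 1) :=
        hLowS a' (X + 2) z (by omega) ha'X (by rw [hZz']; exact hs1)
      rw [hZz'] at hZlow
      have : X + 2 - 1 = X + 1 := by omega
      rw [this] at hZlow
      exact_mod_cast hZlow
    obtain ⟨a, ha⟩ : ∃ a : ℕ, a = b * Y * Z := ⟨_, rfl⟩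
    have haz : aa (X : ℤ) Y C0 b z = (a : ℤ) := by
      unfold aa; rw [hZz, ha]; push_cast; ring
    have hZ1 : 1 ≤ Z := by rw [hZ]; omega
    have ha2 : 2 ≤ a := by
      rw [ha]
      calc 2 = 2 * 1 * 1 := by norm_num
        _ ≤ b * Y * Z := Nat.mul_le_mul (Nat.mul_le_mul hb hY) hZ1
    have ha2z : (2 : ℤ) ≤ a := by exact_mod_cast ha2
    have habig := hbig Z a hZlow' ha
    -- C
    obtain ⟨hBC, i, j, hs2⟩ := hExC a B ha2 hB3
    obtain ⟨C, hC⟩ : ∃ C : ℕ, (C : ℤ) = psi a B :=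
      ⟨(psi a B).toNat, Int.toNat_of_nonneg (le_trans (by positivity) hBC)⟩
    have hBC' : B ≤ C := by rw [← hC] at hBC; exact_mod_cast hBC
    rw [← hC] at hs2
    obtain ⟨h, hh⟩ : ∃ h : ℕ, C = B + h := ⟨C - B, by omega⟩
    have hCz : (B : ℤ) + h = (C : ℤ) := by rw [hh]; push_cast; ring
    have hC1z : (1 : ℤ) ≤ C := by exact_mod_cast (by omega : 1 ≤ C)
    -- L
    have hNdiv : ((b * Y : ℕ) : ℤ) ∣ NN a b X := by
      have h1 : ((b * Y : ℕ) : ℤ) ∣ 2 * (a : ℤ) := ⟨2 * Z, by rw [ha]; push_cast; ring⟩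
      have h2 : ((b * Y : ℕ) : ℤ) ∣ NN a b X - sk b X := h1.trans (dvd_NN a b X)
      have h3 : ((b * Y : ℕ) : ℤ) ∣ (sk b X : ℤ) := by exact_mod_cast hdiv
      have := dvd_add h2 h3
      simpa using this
    have hNN0 : 0 ≤ NN a b X := NN_nonneg a b X (by omega)
    obtain ⟨l, hl⟩ : ∃ l : ℕ, NN a b X = (b * Y : ℕ) * (l : ℤ) := by
      obtain ⟨c, hc⟩ := hNdiv
      have hbYpos : (0 : ℤ) < ((b * Y : ℕ) : ℤ) := by
        have : 0 < b * Y := by positivity
        exact_mod_cast this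
      have hc0 : 0 ≤ c := by
        by_contra hcon
        push Not at hcon
        have := mul_neg_of_pos_of_neg hbYpos hcon
        linarith
      exact ⟨c.toNat, by rw [hc, Int.toNat_of_nonneg hc0]⟩
    obtain ⟨L, hL⟩ : ∃ L : ℕ, L = b * Y * l := ⟨_, rfl⟩
    have hLz : (b : ℤ) * Y * l = (L : ℤ) := by rw [hL]; push_cast; ring
    have hLN : (L : ℤ) = NN a b X := by rw [hl, hL]; push_cast; ring
    have hs3 : 0 < R0 (a : ℤ) C L b C0 g := by
      have h1 := hEC a b X (256 * C0) hb hX (by omega) (by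
        calc 1000 * (256 * C0) * b * 2 ^ X = 1000 * (256 * C0) * b * 2 ^ X := rfl
          _ ≤ a := habig)
      rw [← hB, ← hC, ← hLN] at h1
      unfold R0
      have hk : 0 ≤ (kap (a : ℤ) C b) ^ 2 := sq_nonneg _
      have h2 : (1 : ℤ) ≤ C0 - g := by
        have : (g : ℤ) + 1 ≤ C0 := by exact_mod_cast hg
        linarith
      have h3 : (kap (a : ℤ) C b) ^ 2 * 1 ≤ (kap (a : ℤ) C b) ^ 2 * (C0 - g) :=
        mul_le_mul_of_nonneg_left h2 hk
      have h4 : 256 * (C0 : ℤ) * (RR (2 * (a : ℤ)) C L b) ^ 2 < (kap (a : ℤ) C b) ^ 2 := by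
        unfold kap
        push_cast at h1
        exact h1
      linarith
    have hA1 : 1 ≤ A1 (a' : ℤ) (Z : ℤ) := by
      unfold A1
      have h1 : (1 : ℤ) ≤ a' := by exact_mod_cast ha'1
      have h2 : (0 : ℤ) ≤ (a' : ℤ) ^ 2 - 1 := by nlinarith
      have := mul_nonneg h2 (sq_nonneg (Z : ℤ))
      linarith
    have hA2 : 1 ≤ A2 (a : ℤ) B C i j := A2_pos _ _ ha2z hC1z (by positivity)
    obtain ⟨n, hn⟩ := (hRC _ _ _ hA1 hA2).2 ⟨hs1, hs2, hs3⟩
    refine ⟨z, h, l, i, j, n, ?_⟩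
    unfold core
    rw [ha'z, hZz, haz, hBz, hCz, hLz]
    exact hn


/-- substitution of `b, g` -/
noncomputable def sb {p : ℕ} (P : MvPolynomial (Fin p ⊕ Fin 2) ℤ) :
    MvPolynomial (Fin p ⊕ Fin 8) ℤ :=
  MvPolynomial.bind₁ (Sum.elim (fun i => MvPolynomial.X (Sum.inl i))
    ![2 + ∑ i, MvPolynomial.X (Sum.inl i) + MvPolynomial.X (Sum.inr 0),
      MvPolynomial.X (Sum.inr 1)]) P

theorem ev_sb {p : ℕ} (P : MvPolynomial (Fin p ⊕ Fin 2) ℤ) (x : Fin p → ℕ) (y : Fin 8 → ℕ) :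
    ev (sb P) (Sum.elim x y) = ev P (pt x (2 + ∑ i, x i + y 0) (y 1)) := by
  unfold ev sb
  rw [MvPolynomial.eval, MvPolynomial.eval₂Hom_bind₁]
  congr 1
  congr 1
  funext s
  rcases s with i | k
  · simp [pt]
  · fin_cases k <;> simp [pt]

theorem specDim8 (hExS : SpecExS) (hExC : SpecExC) (hLowS : SpecLowS) (hLowC : SpecLowC)
    (hES : SpecExtrS) (hEC : SpecExtrC) (hRC : SpecRC) (hT : SpecTest) (hCode : SpecCode) :
    SpecDim8 := by
  intro p ν P
  obtain ⟨PX, PY, PC, h1, h2, h3⟩ := hCode p ν P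
  let V : Fin 8 → MvPolynomial (Fin p ⊕ Fin 8) ℤ := fun k => MvPolynomial.X (Sum.inr k)
  refine ⟨core (2 + ∑ i, MvPolynomial.X (Sum.inl i) + V 0) (V 1) (sb PX) (sb PY) (sb PC)
    (V 2) (V 3) (V 4) (V 5) (V 6) (V 7), ?_⟩
  intro x
  -- evaluation of Q
  have hev : ∀ y : Fin 8 → ℕ, ev (core (2 + ∑ i, MvPolynomial.X (Sum.inl i) + V 0) (V 1)
      (sb PX) (sb PY) (sb PC) (V 2) (V 3) (V 4) (V 5) (V 6) (V 7)) (Sum.elim x y) =
      core ((2 + ∑ i, x i + y 0 : ℕ) : ℤ) (y 1) (ev PX (pt x (2 + ∑ i, x i + y 0) (y 1)))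
        (ev PY (pt x (2 + ∑ i, x i + y 0) (y 1))) (ev PC (pt x (2 + ∑ i, x i + y 0) (y 1)))
        (y 2) (y 3) (y 4) (y 5) (y 6) (y 7) := by
    intro y
    rw [← ev_sb PX, ← ev_sb PY, ← ev_sb PC]
    unfold ev
    rw [map_core]
    simp [V]
  rw [h3 x]
  constructor
  · rintro ⟨e, g, t, hx, hg, hY, ht⟩
    obtain ⟨b, hb⟩ : ∃ b : ℕ, b = 2 ^ e := ⟨_, rfl⟩
    rw [← hb] at hx hg hY ht
    obtain ⟨hX1, hY1, hC1⟩ := h1 x b g hx
    obtain ⟨X, hX⟩ := Int.eq_ofNat_of_zero_le (le_trans zero_le_one hX1)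
    obtain ⟨Y, hYn⟩ := Int.eq_ofNat_of_zero_le (le_trans zero_le_one hY1)
    obtain ⟨C0, hC0⟩ := Int.eq_ofNat_of_zero_le (le_trans zero_le_one hC1)
    rw [hX] at hX1 ht
    rw [hYn] at hY1 hY
    rw [hC0] at hC1 hg
    have hbY : ∀ e', b = 2 ^ e' → ∃ t, Y = 2 ^ t ∧ e' + t ≤ 2 * X := by
      intro e' he'
      obtain ⟨t', ht', hle⟩ := h2 x e' g (by rw [← he']; exact hx)
      rw [← he', hYn] at ht'
      rw [← he', hX] at hle
      exact ⟨t', by exact_mod_cast ht', by exact_mod_cast hle⟩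
    have hYe : Y = 2 ^ t := by exact_mod_cast hY
    obtain ⟨z, h, l, i, j, n, hn⟩ := (coreIff hExS hExC hLowS hLowC hES hEC hRC hT b g X Y C0
      (by omega) (by exact_mod_cast hX1) (by exact_mod_cast hY1) (by exact_mod_cast hC1) hbY).2
      ⟨⟨e, t, hb, hYe, by simpa using ht⟩, by exact_mod_cast hg⟩
    obtain ⟨f, hf⟩ : ∃ f : ℕ, b = 2 + ∑ i, x i + f := ⟨b - (2 + ∑ i, x i), by omega⟩
    refine ⟨![f, g, z, h, l, i, j, n], ?_⟩
    rw [hev]
    have e0 : (![f, g, z, h, l, i, j, n] : Fin 8 → ℕ) 0 = f := rfl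
    have e1 : (![f, g, z, h, l, i, j, n] : Fin 8 → ℕ) 1 = g := rfl
    have e2 : (![f, g, z, h, l, i, j, n] : Fin 8 → ℕ) 2 = z := rfl
    have e3 : (![f, g, z, h, l, i, j, n] : Fin 8 → ℕ) 3 = h := rfl
    have e4 : (![f, g, z, h, l, i, j, n] : Fin 8 → ℕ) 4 = l := rfl
    have e5 : (![f, g, z, h, l, i, j, n] : Fin 8 → ℕ) 5 = i := rfl
    have e6 : (![f, g, z, h, l, i, j, n] : Fin 8 → ℕ) 6 = j := rfl
    have e7 : (![f, g, z, h, l, i, j, n] : Fin 8 → ℕ) 7 = n := rfl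
    rw [e0, e1, e2, e3, e4, e5, e6, e7, ← hf, hX, hYn, hC0]
    exact hn
  · rintro ⟨y, hy⟩
    rw [hev] at hy
    obtain ⟨b, hb⟩ : ∃ b : ℕ, b = 2 + ∑ i, x i + y 0 := ⟨_, rfl⟩
    rw [← hb] at hy
    have hx : 2 + ∑ i, x i ≤ b := by omega
    obtain ⟨hX1, hY1, hC1⟩ := h1 x b (y 1) hx
    obtain ⟨X, hX⟩ := Int.eq_ofNat_of_zero_le (le_trans zero_le_one hX1)
    obtain ⟨Y, hYn⟩ := Int.eq_ofNat_of_zero_le (le_trans zero_le_one hY1)
    obtain ⟨C0, hC0⟩ := Int.eq_ofNat_of_zero_le (le_trans zero_le_one hC1)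
    rw [hX] at hX1 hy
    rw [hYn] at hY1 hy
    rw [hC0] at hC1 hy
    have hbY : ∀ e', b = 2 ^ e' → ∃ t, Y = 2 ^ t ∧ e' + t ≤ 2 * X := by
      intro e' he'
      obtain ⟨t', ht', hle⟩ := h2 x e' (y 1) (by rw [← he']; exact hx)
      rw [← he', hYn] at ht'
      rw [← he', hX] at hle
      exact ⟨t', by exact_mod_cast ht', by exact_mod_cast hle⟩
    obtain ⟨⟨e, t, he, hYe, ht⟩, hg⟩ := (coreIff hExS hExC hLowS hLowC hES hEC hRC hT b (y 1) X Y C0
      (by omega) (by exact_mod_cast hX1) (by exact_mod_cast hY1) (by exact_mod_cast hC1) hbY).1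
      ⟨y 2, y 3, y 4, y 5, y 6, y 7, hy⟩
    refine ⟨e, y 1, t, ?_, ?_, ?_, ?_⟩
    · rw [← he]; exact hx
    · rw [← he, hC0]; exact_mod_cast hg
    · rw [← he, hYn, hYe]; push_cast; ring
    · rw [← he, hX]; simpa using ht

end AsmM

/-- Module ASM. -/
theorem specDim8 (hExS : SpecExS) (hExC : SpecExC) (hLowS : SpecLowS) (hLowC : SpecLowC)
    (hES : SpecExtrS) (hEC : SpecExtrC) (hRC : SpecRC) (hT : SpecTest) (hCode : SpecCode) :
    SpecDim8 :=
  AsmM.specDim8 hExS hExC hLowS hLowC hES hEC hRC hT hCode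

end Pool.Agent.Lib.MP2027e1
end

section
/-!
# MP_2027e1_lc, project E8: general lemmas on Mathlib's `Dioph` (helper56)
-/
set_option autoImplicit false

namespace Pool.Agent.Lib.MP2027e1.DbM

open Dioph

variable {α β ι : Type}

/-- `MvPolynomial` to `Poly`. -/
theorem exists_poly {σ : Type*} (P : MvPolynomial σ ℤ) : ∃ p : Poly σ, ∀ w, p w = ev P w := by
  induction P using MvPolynomial.induction_on with
  | C a => exact ⟨Poly.const a, fun w => by simp [ev]⟩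
  | add p q hp hq =>
    obtain ⟨f, hf⟩ := hp
    obtain ⟨g, hg⟩ := hq
    refine ⟨f + g, fun w => ?_⟩
    have : (f + g) w = f w + g w := rfl
    rw [this, hf, hg]; simp [ev]
  | mul_X p s hp =>
    obtain ⟨f, hf⟩ := hp
    refine ⟨f * Poly.proj s, fun w => ?_⟩
    have : (f * Poly.proj s) w = f w * w s := rfl
    rw [this, hf]; simp [ev]

theorem univ_dioph : Dioph (Set.univ : Set (α → ℕ)) :=
  Dioph.of_no_dummies _ 0 fun v => by simp

theorem true_dioph : Dioph {_v : α → ℕ | True} := univ_dioph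

/-- finite conjunctions. -/
theorem all_finset_dioph (t : Finset ι) (S : ι → Set (α → ℕ)) (h : ∀ i ∈ t, Dioph (S i)) :
    Dioph {v | ∀ i ∈ t, v ∈ S i} := by
  classical
  induction t using Finset.induction_on with
  | empty => exact Dioph.ext univ_dioph fun v => by simp
  | insert a s ha ih =>
    refine Dioph.ext ((h a (Finset.mem_insert_self _ _)).inter
      (ih fun i hi => h i (Finset.mem_insert_of_mem hi))) fun v => ?_
    simp

theorem all_dioph [Finite ι] (S : ι → Set (α → ℕ)) (h : ∀ i, Dioph (S i)) :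
    Dioph {v | ∀ i, v ∈ S i} := by
  have := Fintype.ofFinite ι
  exact Dioph.ext (all_finset_dioph Finset.univ S fun i _ => h i) fun v => by simp

/-- composition. -/
theorem comp_dioph [Finite ι] {S : Set (ι → ℕ)} (hS : Dioph S) (g : ι → (α → ℕ) → ℕ)
    (hg : ∀ i, DiophFn (g i)) : Dioph {v | (fun i => g i v) ∈ S} := by
  have h1 : Dioph {w : α ⊕ ι → ℕ | ∀ i, w ∈ {w : α ⊕ ι → ℕ | g i (w ∘ Sum.inl) = w (Sum.inr i)}} :=
    all_dioph _ fun i => Dioph.eq_dioph (reindex_diophFn Sum.inl (hg i)) (proj_dioph _)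
  have h2 : Dioph {w : α ⊕ ι → ℕ | w ∘ Sum.inr ∈ S} := reindex_dioph _ Sum.inr hS
  refine Dioph.ext (ex_dioph (h1.inter h2)) fun v => ?_
  constructor
  · rintro ⟨x, hx, hx'⟩
    have e : x = fun i => g i v := by
      funext i
      have := hx i
      simpa using this.symm
    have : (Sum.elim v x) ∘ Sum.inr ∈ S := hx'
    rw [Sum.elim_comp_inr, e] at this
    exact this
  · intro hv
    refine ⟨fun i => g i v, fun i => ?_, ?_⟩
    · show g i ((Sum.elim v fun i => g i v) ∘ Sum.inl) = _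
      rw [Sum.elim_comp_inl]; rfl
    · show (Sum.elim v fun i => g i v) ∘ Sum.inr ∈ S
      rw [Sum.elim_comp_inr]; exact hv

/-- composition for functions. -/
theorem comp_diophFn [Finite ι] {f : (ι → ℕ) → ℕ} (hf : DiophFn f) (g : ι → (α → ℕ) → ℕ)
    (hg : ∀ i, DiophFn (g i)) : DiophFn fun v => f fun i => g i v := by
  have hf' : Dioph {v : Option ι → ℕ | f (v ∘ some) = v none} := hf
  have := comp_dioph (α := Option α) hf'
    (fun o => Option.elim o (fun v => v none) fun i v => g i (v ∘ some)) (by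
      intro o
      cases o with
      | none => exact proj_dioph none
      | some i => exact reindex_diophFn some (hg i))
  exact Dioph.ext this fun v => Iff.rfl

theorem sum_dioph (t : Finset ι) (f : ι → (α → ℕ) → ℕ) (h : ∀ i, DiophFn (f i)) :
    DiophFn fun v => ∑ i ∈ t, f i v := by
  classical
  induction t using Finset.induction_on with
  | empty =>
    simp only [Finset.sum_empty]
    exact (const_dioph 0 : DiophFn (Function.const (α → ℕ) 0))
  | insert a s ha ih =>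
    simp only [Finset.sum_insert ha]
    exact add_dioph (h a) ih

theorem prod_dioph (t : Finset ι) (f : ι → (α → ℕ) → ℕ) (h : ∀ i, DiophFn (f i)) :
    DiophFn fun v => ∏ i ∈ t, f i v := by
  classical
  induction t using Finset.induction_on with
  | empty =>
    simp only [Finset.prod_empty]
    exact (const_dioph 1 : DiophFn (Function.const (α → ℕ) 1))
  | insert a s ha ih =>
    simp only [Finset.prod_insert ha]
    exact mul_dioph (h a) ih

/-- `|P(w)|` as a Diophantine function. -/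
theorem abs_ev_dioph {σ : Type} [Finite σ] (P : MvPolynomial σ ℤ) (g : σ → (α → ℕ) → ℕ)
    (hg : ∀ i, DiophFn (g i)) : DiophFn fun v => (ev P fun i => g i v).natAbs := by
  obtain ⟨p, hp⟩ := exists_poly P
  have h := comp_diophFn (abs_poly_dioph p) g hg
  simpa only [hp] using h

/-- `|P(w)|` as a Diophantine function, arbitrary index type. -/
theorem abs_ev_dioph' {σ : Type} (P : MvPolynomial σ ℤ) (g : σ → (α → ℕ) → ℕ)
    (hg : ∀ i, DiophFn (g i)) : DiophFn fun v => (ev P fun i => g i v).natAbs := by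
  classical
  -- `P` involves finitely many variables
  obtain ⟨n, f, Q, rfl⟩ : ∃ (n : ℕ) (f : Fin n → σ) (Q : MvPolynomial (Fin n) ℤ),
      P = MvPolynomial.rename f Q := by
    obtain ⟨n, f, _, Q, hQ⟩ := MvPolynomial.exists_fin_rename P
    exact ⟨n, f, Q, hQ⟩
  have h := abs_ev_dioph Q (fun i => g (f i)) fun i => hg (f i)
  have e : (fun v : α → ℕ => (ev (MvPolynomial.rename f Q) fun i => g i v).natAbs)
      = fun v => (ev Q fun i => g (f i) v).natAbs := by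
    funext v
    unfold ev
    rw [MvPolynomial.eval_rename]
    rfl
  rw [e]; exact h

/-- existential quantifiers over functions. -/
theorem ex_fun_dioph {S : Set (α ⊕ β → ℕ)} (h : Dioph S) :
    Dioph {v : α → ℕ | ∃ x : β → ℕ, Sum.elim v x ∈ S} := ex_dioph h

/-- the bounded quantifier with an arbitrary bound. -/
theorem bq_dioph (hBQ : SpecBQ) [Finite α] {S : Set (Option α → ℕ)} (hS : Dioph S)
    {f : (α → ℕ) → ℕ} (hf : DiophFn f) :
    Dioph {v : α → ℕ | ∀ k < f v, (Option.elim' k v : Option α → ℕ) ∈ S} :=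
  Dioph.ext (diophFn_comp1 (hBQ α S hS) hf) fun _ => Iff.rfl

end Pool.Agent.Lib.MP2027e1.DbM
end

section
/-!
# MP_2027e1_lc, project E8: BQ, the bounded universal quantifier (helper56)
-/
set_option autoImplicit false

namespace Pool.Agent.Lib.MP2027e1.BQM

open Dioph Finset

/-- `P` with absolute values of the coefficients. -/
noncomputable def qa {σ : Type*} (P : MvPolynomial σ ℤ) (w : σ → ℕ) : ℕ :=
  ∑ m ∈ P.support, (P.coeff m).natAbs * ∏ i ∈ m.support, w i ^ m i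

theorem ev_le {σ : Type*} (P : MvPolynomial σ ℤ) {w w' : σ → ℕ} (h : ∀ i, w i ≤ w' i) :
    (ev P w).natAbs ≤ qa P w' := by
  unfold ev qa
  rw [MvPolynomial.eval_eq]
  refine (Int.natAbs_sum_le _ _).trans (Finset.sum_le_sum fun m _ => ?_)
  rw [Int.natAbs_mul]
  refine Nat.mul_le_mul le_rfl ?_
  have : (∏ i ∈ m.support, (w i : ℤ) ^ m i) = ((∏ i ∈ m.support, w i ^ m i : ℕ) : ℤ) := by
    push_cast; rfl
  rw [this, Int.natAbs_natCast]
  exact Finset.prod_le_prod' fun i _ => Nat.pow_le_pow_left (h i) _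

theorem qa_dioph {α σ : Type} (P : MvPolynomial σ ℤ) (g : σ → (α → ℕ) → ℕ)
    (hg : ∀ i, DiophFn (g i)) : DiophFn fun v => qa P fun i => g i v := by
  unfold qa
  refine DbM.sum_dioph _ _ fun m => mul_dioph (const_dioph _) (DbM.prod_dioph _ _ fun i => ?_)
  exact pow_dioph (hg i) (const_dioph _)

/-- evaluation modulo `q`. -/
theorem ev_congr {σ : Type*} (P : MvPolynomial σ ℤ) {w w' : σ → ℕ} {q : ℕ}
    (h : ∀ i, w i ≡ w' i [MOD q]) : (q : ℤ) ∣ ev P w ↔ (q : ℤ) ∣ ev P w' := by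
  have key : ((ev P w : ℤ) : ZMod q) = ((ev P w' : ℤ) : ZMod q) := by
    unfold ev
    rw [MvPolynomial.eval_eq, MvPolynomial.eval_eq]
    push_cast
    refine Finset.sum_congr rfl fun m _ => ?_
    congr 1
    refine Finset.prod_congr rfl fun i _ => ?_
    congr 1
    exact (ZMod.natCast_eq_natCast_iff _ _ _).2 (h i)
  rw [← ZMod.intCast_zmod_eq_zero_iff_dvd, ← ZMod.intCast_zmod_eq_zero_iff_dvd, key]

/-- the moduli are pairwise coprime. -/
theorem coprime_moduli {y T k l : ℕ} (hT : ∀ d, 0 < d → d ≤ y → d ∣ T) (hk : k < y) (hl : l < y)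
    (hkl : k ≠ l) : Nat.Coprime (1 + (k + 1) * T) (1 + (l + 1) * T) := by
  rcases lt_or_gt_of_ne hkl with h | h
  · have := Nat.coprime_mul_succ (n := k + 1) (m := l + 1) (a := T) (hT _ (by omega) (by omega))
    rw [add_comm 1, add_comm 1]; exact this
  · have := Nat.coprime_mul_succ (n := l + 1) (m := k + 1) (a := T) (hT _ (by omega) (by omega))
    rw [add_comm 1, add_comm 1]; exact this.symm

theorem dvd_desc {q a t u : ℕ} (h : a ≡ t [MOD q]) (ht : t ≤ u) : q ∣ a.descFactorial (u + 1) := by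
  rw [Nat.descFactorial_eq_prod_range]
  rcases le_total t a with h' | h'
  · exact ((Nat.modEq_iff_dvd' h').1 h.symm).trans
      (Finset.dvd_prod_of_mem _ (Finset.mem_range.2 (by omega)))
  · rw [Finset.prod_eq_zero (Finset.mem_range.2 (show a < u + 1 by omega)) (Nat.sub_self a)]
    exact dvd_zero _

theorem desc_dvd {q a u : ℕ} (hq : q.Prime) (h : q ∣ a.descFactorial (u + 1)) :
    ∃ t ≤ u, a ≡ t [MOD q] := by
  rw [Nat.descFactorial_eq_prod_range] at h
  obtain ⟨j, hj, hd⟩ := (Prime.dvd_finsetProd_iff hq.prime _).1 h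
  rw [Finset.mem_range] at hj
  rcases le_total j a with h' | h'
  · exact ⟨j, by omega, ((Nat.modEq_iff_dvd' h').2 hd).symm⟩
  · exact ⟨a, by omega, rfl⟩

section main

variable {α : Type} {m : ℕ} (P : MvPolynomial (Option α ⊕ Fin m) ℤ)

/-- the arithmetic of the bounded quantifier. -/
theorem main (x : α → ℕ) (y : ℕ) :
    (∀ k < y, ∃ t : Fin m → ℕ, ev P (Sum.elim (Option.elim' k x) t) = 0) ↔
    ∃ (u c : ℕ) (a : Fin m → ℕ),
      (∏ k ∈ range y, (1 + (k + 1) *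
          (qa P (Sum.elim (Option.elim' y x) fun _ => u) + u + y + 1).factorial)) ∣
        1 + (c + 1) * (qa P (Sum.elim (Option.elim' y x) fun _ => u) + u + y + 1).factorial ∧
      (∏ k ∈ range y, (1 + (k + 1) *
          (qa P (Sum.elim (Option.elim' y x) fun _ => u) + u + y + 1).factorial)) ∣
        (ev P (Sum.elim (Option.elim' c x) a)).natAbs ∧
      ∀ i, (∏ k ∈ range y, (1 + (k + 1) *
          (qa P (Sum.elim (Option.elim' y x) fun _ => u) + u + y + 1).factorial)) ∣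
        (a i).descFactorial (u + 1) := by
  constructor
  · intro h
    choose! t ht using h
    set u := (range y).sup fun k => Finset.univ.sup (t k) with hu
    have htu : ∀ k < y, ∀ i, t k i ≤ u := fun k hk i =>
      (Finset.le_sup (f := t k) (Finset.mem_univ i)).trans
        (Finset.le_sup (f := fun k => Finset.univ.sup (t k)) (Finset.mem_range.2 hk))
    set Q := qa P (Sum.elim (Option.elim' y x) fun _ => u) + u + y + 1 with hQ
    set T := Q.factorial with hT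
    have hTd : ∀ d, 0 < d → d ≤ y → d ∣ T := fun d h0 hd => Nat.dvd_factorial h0 (by omega)
    have hne : ∀ k ∈ range y, 1 + (k + 1) * T ≠ 0 := fun k _ => by omega
    have hco : Set.Pairwise (range y : Set ℕ) (Function.onFun Nat.Coprime fun k => 1 + (k + 1) * T) := by
      intro k hk l hl hkl
      exact coprime_moduli hTd (by simpa using hk) (by simpa using hl) hkl
    obtain ⟨c, hc⟩ := Nat.chineseRemainderOfFinset (fun k => k) (fun k => 1 + (k + 1) * T)
      (range y) hne hco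
    have ha : ∀ i : Fin m, ∃ a : ℕ, ∀ k ∈ range y, a ≡ t k i [MOD 1 + (k + 1) * T] := fun i => by
      obtain ⟨a, ha⟩ := Nat.chineseRemainderOfFinset (fun k => t k i) (fun k => 1 + (k + 1) * T)
        (range y) hne hco
      exact ⟨a, ha⟩
    choose a ha using ha
    have hprod : ∀ z : ℕ, (∀ k ∈ range y, 1 + (k + 1) * T ∣ z) →
        (∏ k ∈ range y, (1 + (k + 1) * T)) ∣ z := fun z hz =>
      Finset.prod_dvd_of_isRelPrime (fun k hk l hl hkl => Nat.coprime_iff_isRelPrime.1 (hco hk hl hkl)) hz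
    refine ⟨u, c, a, hprod _ fun k hk => ?_, hprod _ fun k hk => ?_, fun i => hprod _ fun k hk => ?_⟩
    · have h1 : 1 + (c + 1) * T ≡ 1 + (k + 1) * T [MOD 1 + (k + 1) * T] :=
        Nat.ModEq.add_left _ (Nat.ModEq.mul_right _ (Nat.ModEq.add_right _ (hc k hk)))
      exact (Nat.modEq_zero_iff_dvd).1 (h1.trans ((Nat.modEq_zero_iff_dvd).2 dvd_rfl))
    · rw [← Int.natCast_dvd]
      refine (ev_congr P (w' := Sum.elim (Option.elim' k x) (t k)) ?_).2 ?_
      · rintro (o | i)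
        · cases o with
          | none => exact hc k hk
          | some s => exact Nat.ModEq.refl _
        · exact ha i k hk
      · rw [ht k (Finset.mem_range.1 hk)]; exact dvd_zero _
    · exact dvd_desc (ha i k hk) (htu k (Finset.mem_range.1 hk) i)
  · rintro ⟨u, c, a, h1, h2, h3⟩ k hk
    set Q := qa P (Sum.elim (Option.elim' y x) fun _ => u) + u + y + 1 with hQ
    set T := Q.factorial with hT
    have hT0 : 0 < T := Nat.factorial_pos _
    have hne1 : 1 + (k + 1) * T ≠ 1 := by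
      have : 0 < (k + 1) * T := Nat.mul_pos (by omega) hT0
      omega
    obtain ⟨q, hq, hqd⟩ := Nat.exists_prime_and_dvd hne1
    have hqM : q ∣ ∏ k ∈ range y, (1 + (k + 1) * T) :=
      hqd.trans (Finset.dvd_prod_of_mem (fun k => 1 + (k + 1) * T) (Finset.mem_range.2 hk))
    have hqT : ¬ q ∣ T := fun h => by
      have : q ∣ 1 := (Nat.dvd_add_left (dvd_mul_of_dvd_right h (k + 1))).1 hqd
      exact hq.one_lt.ne' (Nat.dvd_one.1 this)
    have hQq : Q < q := by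
      by_contra hcon
      exact hqT (Nat.dvd_factorial hq.pos (not_lt.1 hcon))
    have hck : c ≡ k [MOD q] := by
      have e1 : 1 + (c + 1) * T ≡ 1 + (k + 1) * T [MOD q] :=
        ((Nat.modEq_zero_iff_dvd).2 (hqM.trans h1)).trans ((Nat.modEq_zero_iff_dvd).2 hqd).symm
      have e2 := Nat.ModEq.add_left_cancel' 1 e1
      have e3 := Nat.ModEq.cancel_right_of_coprime (c := T)
        (by simpa [Nat.coprime_comm] using ((Nat.Prime.coprime_iff_not_dvd hq).2 hqT)) e2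
      exact Nat.ModEq.add_right_cancel' 1 e3
    have hex : ∀ i, ∃ t ≤ u, a i ≡ t [MOD q] := fun i => desc_dvd hq (hqM.trans (h3 i))
    choose t htu hat using hex
    refine ⟨t, ?_⟩
    have hdv : (q : ℤ) ∣ ev P (Sum.elim (Option.elim' k x) t) := by
      refine (ev_congr P (w := Sum.elim (Option.elim' c x) a) ?_).1 ?_
      · rintro (o | i)
        · cases o with
          | none => exact hck
          | some s => exact Nat.ModEq.refl _
        · exact hat i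
      · rw [Int.natCast_dvd]; exact hqM.trans h2
    have hle : (ev P (Sum.elim (Option.elim' k x) t)).natAbs
        ≤ qa P (Sum.elim (Option.elim' y x) fun _ => u) := by
      refine ev_le P ?_
      rintro (o | i)
      · cases o with
        | none => exact hk.le
        | some s => exact le_rfl
      · exact htu i
    rw [← Int.natAbs_eq_zero]
    exact Nat.eq_zero_of_dvd_of_lt (Int.natCast_dvd.1 hdv) (by omega)

end main

end Pool.Agent.Lib.MP2027e1.BQM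

namespace Pool.Agent.Lib.MP2027e1

open Dioph Finset

theorem specBQ (hConv : SpecConv) (hBin : SpecBin) (hFac : SpecFac) (hProdd : SpecProdd) :
    SpecBQ := by
  intro α _ S hS
  obtain ⟨m, P, hP⟩ := hConv (Option α) S hS
  -- variables: `inl v`, `inr (inl i) = a i`, `inr (inr 0) = u`, `inr (inr 1) = c`
  let β : Type := Fin m ⊕ Fin 2
  let γ : Type := Option α ⊕ β
  have pj : ∀ s : γ, DiophFn fun w : γ → ℕ => w s := fun s => proj_dioph s
  let gy : (Option α ⊕ Fin m) → (γ → ℕ) → ℕ :=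
    Sum.elim (fun o w => w (Sum.inl o)) (fun _ w => w (Sum.inr (Sum.inr 0)))
  let gc : (Option α ⊕ Fin m) → (γ → ℕ) → ℕ :=
    Sum.elim (fun o w => Option.elim' (w (Sum.inr (Sum.inr 1))) (fun s => w (Sum.inl (some s))) o)
      (fun i w => w (Sum.inr (Sum.inl i)))
  have hgy : ∀ s, DiophFn (gy s) := by
    rintro (o | i)
    · exact pj _
    · exact pj _
  have hgc : ∀ s, DiophFn (gc s) := by
    rintro (o | i)
    · cases o with
      | none => exact pj _
      | some s => exact pj _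
    · exact pj _
  let Q : (γ → ℕ) → ℕ := fun w =>
    BQM.qa P (fun s => gy s w) + w (Sum.inr (Sum.inr 0)) + w (Sum.inl none) + 1
  have hQ : DiophFn Q :=
    add_dioph (add_dioph (add_dioph (BQM.qa_dioph P gy hgy) (pj _)) (pj _)) (const_dioph 1)
  let T : (γ → ℕ) → ℕ := fun w => (Q w).factorial
  have hT : DiophFn T := hFac γ Q hQ
  let M : (γ → ℕ) → ℕ := fun w => ∏ k ∈ range (w (Sum.inl none)), (1 + (k + 1) * T w)
  have hM : DiophFn M := hProdd γ (fun w => w (Sum.inl none)) T (pj _) hT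
  have d1 : Dioph {w : γ → ℕ | M w ∣ 1 + (w (Sum.inr (Sum.inr 1)) + 1) * T w} :=
    dvd_dioph hM (add_dioph (const_dioph 1)
      (mul_dioph (add_dioph (pj (Sum.inr (Sum.inr 1))) (const_dioph 1)) hT))
  have d2 : Dioph {w : γ → ℕ | M w ∣ (ev P fun s => gc s w).natAbs} :=
    dvd_dioph hM (DbM.abs_ev_dioph' P gc hgc)
  have hdesc : ∀ i : Fin m, DiophFn fun w : γ → ℕ =>
      (w (Sum.inr (Sum.inl i))).descFactorial (w (Sum.inr (Sum.inr 0)) + 1) := by
    intro i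
    have h1 : DiophFn fun w : γ → ℕ => w (Sum.inr (Sum.inr 0)) + 1 :=
      add_dioph (pj (Sum.inr (Sum.inr 0))) (const_dioph 1)
    have := mul_dioph (hFac γ _ h1) (hBin γ _ _ (pj (Sum.inr (Sum.inl i))) h1)
    simpa only [Nat.descFactorial_eq_factorial_mul_choose] using this
  have d3 : Dioph {w : γ → ℕ | ∀ i : Fin m, w ∈ {w : γ → ℕ | M w ∣
      (w (Sum.inr (Sum.inl i))).descFactorial (w (Sum.inr (Sum.inr 0)) + 1)}} :=
    DbM.all_dioph _ fun i => dvd_dioph hM (hdesc i)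
  refine Dioph.ext (ex_dioph (β := β) ((d1.inter d2).inter d3)) fun v => ?_
  have key := BQM.main P (v ∘ some) (v none)
  have e0 : (∀ k < v none, (Option.elim' k (v ∘ some) : Option α → ℕ) ∈ S) ↔
      ∀ k < v none, ∃ t : Fin m → ℕ, ev P (Sum.elim (Option.elim' k (v ∘ some)) t) = 0 :=
    forall_congr' fun k => forall_congr' fun _ => hP _
  show (∃ x : β → ℕ, _) ↔ (∀ k < v none, (Option.elim' k (v ∘ some) : Option α → ℕ) ∈ S)
  rw [e0, key]
  have ev1 : (Option.elim' (v none) (v ∘ some) : Option α → ℕ) = v := by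
    funext o; cases o <;> rfl
  have key2 : ∀ x : β → ℕ, (fun s => gy s (Sum.elim v x)) =
      Sum.elim (Option.elim' (v none) (v ∘ some)) fun _ => x (Sum.inr 0) := by
    intro x; rw [ev1]; funext s; cases s <;> rfl
  have key3 : ∀ x : β → ℕ, (fun s => gc s (Sum.elim v x)) =
      Sum.elim (Option.elim' (x (Sum.inr 1)) (v ∘ some)) fun i => x (Sum.inl i) := by
    intro x; funext s
    rcases s with o | i
    · cases o <;> rfl
    · rfl
  have key4 : ∀ x : β → ℕ, T (Sum.elim v x) =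
      (BQM.qa P (Sum.elim (Option.elim' (v none) (v ∘ some)) fun _ => x (Sum.inr 0))
        + x (Sum.inr 0) + v none + 1).factorial := by
    intro x
    show (BQM.qa P (fun s => gy s (Sum.elim v x)) + x (Sum.inr 0) + v none + 1).factorial = _
    rw [key2]
  constructor
  · rintro ⟨x, ⟨hx1, hx2⟩, hx3⟩
    refine ⟨x (Sum.inr 0), x (Sum.inr 1), fun i => x (Sum.inl i), ?_, ?_, fun i => ?_⟩
    · have h : (∏ k ∈ range (v none), (1 + (k + 1) * T (Sum.elim v x))) ∣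
        1 + (x (Sum.inr 1) + 1) * T (Sum.elim v x) := hx1
      rw [key4] at h; exact h
    · have h : (∏ k ∈ range (v none), (1 + (k + 1) * T (Sum.elim v x))) ∣
        (ev P fun s => gc s (Sum.elim v x)).natAbs := hx2
      rw [key4, key3] at h; exact h
    · have h : (∏ k ∈ range (v none), (1 + (k + 1) * T (Sum.elim v x))) ∣
        (x (Sum.inl i)).descFactorial (x (Sum.inr 0) + 1) := hx3 i
      rw [key4] at h; exact h
  · rintro ⟨u, c, a, h1, h2, h3⟩
    let x : β → ℕ := Sum.elim a ![u, c]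
    have t1 : x (Sum.inr 0) = u := rfl
    have t2 : x (Sum.inr 1) = c := rfl
    have t3 : (fun i => x (Sum.inl i)) = a := rfl
    refine ⟨x, ⟨?_, ?_⟩, fun i => ?_⟩
    · show (∏ k ∈ range (v none), (1 + (k + 1) * T (Sum.elim v x))) ∣
        1 + (x (Sum.inr 1) + 1) * T (Sum.elim v x)
      rw [key4]; exact h1
    · show (∏ k ∈ range (v none), (1 + (k + 1) * T (Sum.elim v x))) ∣
        (ev P fun s => gc s (Sum.elim v x)).natAbs
      rw [key4, key3]; exact h2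
    · show (∏ k ∈ range (v none), (1 + (k + 1) * T (Sum.elim v x))) ∣
        (x (Sum.inl i)).descFactorial (x (Sum.inr 0) + 1)
      rw [key4]; exact h3 i

end Pool.Agent.Lib.MP2027e1
end

section
/-! MP_2027e1_lc, modules BIN, FAC, PRODD: binomial coefficients, factorials and the products
`∏_{k<y} (1 + (k+1) t)` are Diophantine. -/
set_option autoImplicit false

namespace Pool.Agent.Lib.MP2027e1

open Finset

namespace BinM

/-- a number with digits less than `u` -/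
theorem low_lt (u : ℕ) (d : ℕ → ℕ) (hu : 1 ≤ u) (hd : ∀ j, d j ≤ u - 1) (k : ℕ) :
    ∑ j ∈ range k, d j * u ^ j + 1 ≤ u ^ k := by
  induction k with
  | zero => simp
  | succ k ih =>
    rw [sum_range_succ, pow_succ]
    have h1 : d k * u ^ k ≤ (u - 1) * u ^ k := Nat.mul_le_mul_right _ (hd k)
    have h2 : (u - 1) * u ^ k + u ^ k = u ^ k * u := by
      obtain ⟨w, rfl⟩ := Nat.exists_eq_add_of_le hu
      simp only [Nat.add_sub_cancel_left]
      ring
    omega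

theorem digit (u : ℕ) (d : ℕ → ℕ) (hu : 1 ≤ u) (hd : ∀ j, d j ≤ u - 1) (k m : ℕ) :
    (∑ j ∈ range (k + 1 + m), d j * u ^ j) / u ^ k % u = d k := by
  have h1 : ∑ j ∈ range (k + 1 + m), d j * u ^ j =
      ∑ j ∈ range k, d j * u ^ j + u ^ k * (d k + u * ∑ j ∈ range m, d (k + 1 + j) * u ^ j) := by
    rw [sum_range_add, sum_range_succ, mul_add, mul_left_comm (u ^ k) u, ← mul_assoc u,
      ← pow_succ', mul_sum]
    have h2 : ∀ j ∈ range m, d (k + 1 + j) * u ^ (k + 1 + j) =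
        u ^ (k + 1) * (d (k + 1 + j) * u ^ j) := by
      intro j _
      rw [pow_add]
      ring
    rw [sum_congr rfl h2]
    ring
  have h2 := low_lt u d hu hd k
  have hpos : 0 < u ^ k := pow_pos hu k
  rw [h1, Nat.add_mul_div_left _ _ hpos, Nat.div_eq_of_lt (by omega), zero_add,
    Nat.add_mul_mod_self_left, Nat.mod_eq_of_lt]
  have := hd k
  omega

theorem choose_eq (n k : ℕ) :
    Nat.choose n k = (2 ^ n + 1 + 1) ^ n / (2 ^ n + 1) ^ k % (2 ^ n + 1) := by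
  have h1 : (2 ^ n + 1 + 1) ^ n = ∑ j ∈ range (k + 1 + n), Nat.choose n j * (2 ^ n + 1) ^ j := by
    rw [add_pow]
    have h2 : range (n + 1) ⊆ range (k + 1 + n) := range_mono (by omega)
    rw [← sum_subset h2]
    · apply sum_congr rfl
      intro j _
      rw [one_pow, mul_one, mul_comm, Nat.cast_id]
    · intro j _ hj
      rw [mem_range, not_lt] at hj
      rw [Nat.choose_eq_zero_of_lt (by omega), zero_mul]
  have h3 := digit (2 ^ n + 1) (fun j => Nat.choose n j) (Nat.succ_le_of_lt (Nat.succ_pos _))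
    (fun j => by simpa using Nat.choose_le_two_pow n j) k n
  rw [h1]
  exact h3.symm

theorem fac_aux (k r F : ℕ) (hF : (F + 1) * k ^ 2 + 1 ≤ r) (hkr : k ≤ r) :
    F * r ^ k < (F + 1) * (r + 1 - k) ^ k := by
  have hr0 : 0 < r := by omega
  have hrR : (0 : ℝ) < r := by exact_mod_cast hr0
  have hkR : (k : ℝ) ≤ r := by exact_mod_cast hkr
  have h1 : (1 : ℝ) + k * (-(k / r)) ≤ (1 + -(k / r)) ^ k := by
    apply one_add_mul_le_pow
    have h2 : (k : ℝ) / r ≤ 1 := by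
      rw [div_le_one hrR]
      exact hkR
    linarith
  have h3 : (F : ℝ) < (F + 1) * (1 + k * (-(k / r))) := by
    have h4 : ((F : ℝ) + 1) * k ^ 2 + 1 ≤ r := by exact_mod_cast hF
    have h5 : ((F : ℝ) + 1) * (k * (k / r)) < 1 := by
      have h6 : ((F : ℝ) + 1) * (k * (k / r)) = ((F + 1) * k ^ 2) / r := by ring
      rw [h6, div_lt_one hrR]
      linarith
    linarith
  have h7 : (F : ℝ) * r ^ k < (F + 1) * ((r : ℝ) - k) ^ k := by
    have h8 : ((r : ℝ) - k) ^ k = (1 + -(k / r)) ^ k * r ^ k := by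
      rw [← mul_pow]
      congr 1
      field_simp
      ring
    rw [h8, ← mul_assoc]
    apply mul_lt_mul_of_pos_right _ (pow_pos hrR k)
    refine lt_of_lt_of_le h3 ?_
    apply mul_le_mul_of_nonneg_left h1
    positivity
  have h9 : (((r + 1 - k : ℕ) : ℝ)) = (r : ℝ) + 1 - k := by
    rw [Nat.cast_sub (by omega)]
    push_cast
    ring
  have h10 : (F : ℝ) * r ^ k < (F + 1) * ((r + 1 - k : ℕ) : ℝ) ^ k := by
    rw [h9]
    refine lt_of_lt_of_le h7 ?_
    apply mul_le_mul_of_nonneg_left _ (by positivity)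
    apply pow_le_pow_left₀ (by linarith)
    linarith
  exact_mod_cast h10

theorem fac_eq (k r : ℕ) (hr : (k ^ k + 1) * k ^ 2 + 1 ≤ r) (hkr : k ≤ r) :
    Nat.factorial k = r ^ k / Nat.choose r k := by
  have hF : Nat.factorial k ≤ k ^ k := by
    rw [← Nat.descFactorial_self]
    exact Nat.descFactorial_le_pow k k
  have hD : r.descFactorial k = Nat.factorial k * Nat.choose r k :=
    Nat.descFactorial_eq_factorial_mul_choose r k
  symm
  apply Nat.div_eq_of_lt_le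
  · rw [← hD]
    exact Nat.descFactorial_le_pow r k
  · have h1 := fac_aux k r (Nat.factorial k) (by
      have h2 : (Nat.factorial k + 1) * k ^ 2 ≤ (k ^ k + 1) * k ^ 2 :=
        Nat.mul_le_mul_right _ (by omega)
      omega) hkr
    have h3 := Nat.pow_sub_le_descFactorial r k
    have h4 : Nat.factorial k * r ^ k < Nat.factorial k * ((Nat.factorial k + 1) * Nat.choose r k) := by
      calc Nat.factorial k * r ^ k < (Nat.factorial k + 1) * (r + 1 - k) ^ k := h1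
        _ ≤ (Nat.factorial k + 1) * r.descFactorial k := Nat.mul_le_mul_left _ h3
        _ = Nat.factorial k * ((Nat.factorial k + 1) * Nat.choose r k) := by
          rw [hD]
          ring
    exact lt_of_mul_lt_mul_left h4 (Nat.zero_le _)

/-- the modulus -/
def md (y t : ℕ) : ℕ := t * (1 + t * y) ^ y + 1

theorem prodd_le (y t : ℕ) : ∏ k ∈ range y, (1 + (k + 1) * t) ≤ (1 + t * y) ^ y := by
  have h := Finset.prod_le_pow_card (range y) (fun k => 1 + (k + 1) * t) (1 + t * y) (by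
    intro k hk
    have h1 : k + 1 ≤ y := mem_range.mp hk
    have h2 : (k + 1) * t ≤ y * t := Nat.mul_le_mul_right _ h1
    rw [mul_comm t y]
    omega)
  rwa [card_range] at h

theorem prodd_cong (y t : ℕ) :
    (t ^ y * Nat.factorial y * Nat.choose (md y t - (1 + t * y) ^ y + y) y) ≡
      ∏ k ∈ range y, (1 + (k + 1) * t) [MOD md y t] := by
  obtain ⟨q, hq⟩ : ∃ q, q = md y t - (1 + t * y) ^ y := ⟨_, rfl⟩
  have hle : (1 + t * y) ^ y ≤ md y t := by
    unfold md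
    rcases Nat.eq_zero_or_pos t with rfl | ht
    · simp
    · have h3 : (1 + t * y) ^ y ≤ t * (1 + t * y) ^ y := Nat.le_mul_of_pos_left _ ht
      omega
  have h1 : t * q + md y t = 1 + t * md y t := by
    have h2 : q + (1 + t * y) ^ y = md y t := by omega
    have h3 : t * q + t * (1 + t * y) ^ y = t * md y t := by rw [← mul_add, h2]
    have h4 : md y t = t * (1 + t * y) ^ y + 1 := rfl
    omega
  have h2 : t * q ≡ 1 [MOD md y t] := by
    have h3 : t * q + md y t ≡ 1 + t * md y t [MOD md y t] := by rw [h1]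
    have h4 : t * q + md y t ≡ t * q [MOD md y t] := Nat.add_modEq_right
    have h5 : 1 + t * md y t ≡ 1 [MOD md y t] := by
      have h6 : t * md y t ≡ 0 [MOD md y t] := (Nat.modEq_zero_iff_dvd).mpr (Dvd.intro_left _ rfl)
      simp
    exact (h4.symm.trans h3).trans h5
  rw [← hq, mul_assoc, ← Nat.ascFactorial_eq_factorial_mul_choose, Nat.ascFactorial_eq_prod_range]
  have h3 : t ^ y * ∏ i ∈ range y, (q + 1 + i) = ∏ i ∈ range y, (t * q + (i + 1) * t) := by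
    have h4 : t ^ y = ∏ _i ∈ range y, t := by rw [prod_const, card_range]
    rw [h4, ← prod_mul_distrib]
    apply prod_congr rfl
    intro i _
    ring
  rw [h3]
  have h5 : ∀ n : ℕ, ∏ i ∈ range n, (t * q + (i + 1) * t) ≡
      ∏ k ∈ range n, (1 + (k + 1) * t) [MOD md y t] := by
    intro n
    induction n with
    | zero => exact Nat.ModEq.refl _
    | succ n ih =>
      rw [prod_range_succ, prod_range_succ]
      exact ih.mul (h2.add_right _)
  exact h5 y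

theorem prodd_eq (y t : ℕ) :
    ∏ k ∈ range y, (1 + (k + 1) * t) =
      (t ^ y * Nat.factorial y * Nat.choose (md y t - (1 + t * y) ^ y + y) y) % md y t
        + (1 - t) := by
  rcases Nat.eq_zero_or_pos t with rfl | ht
  · simp [md, Nat.mod_one]
  · have h1 := prodd_cong y t
    rw [h1, Nat.mod_eq_of_lt]
    · have : 1 - t = 0 := by omega
      rw [this, add_zero]
    · have h2 := prodd_le y t
      have h3 : (1 + t * y) ^ y ≤ t * (1 + t * y) ^ y := Nat.le_mul_of_pos_left _ ht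
      unfold md
      omega

end BinM

open BinM

/-- BIN -/
theorem specBin : SpecBin := by
  intro α f g hf hg
  have hu : Dioph.DiophFn fun v : α → ℕ => 2 ^ f v + 1 :=
    Dioph.add_dioph (Dioph.pow_dioph (Dioph.const_dioph 2) hf) (Dioph.const_dioph 1)
  have h : Dioph.DiophFn fun v : α → ℕ =>
      (2 ^ f v + 1 + 1) ^ f v / (2 ^ f v + 1) ^ g v % (2 ^ f v + 1) :=
    Dioph.mod_dioph (Dioph.div_dioph (Dioph.pow_dioph
      (Dioph.add_dioph hu (Dioph.const_dioph 1)) hf) (Dioph.pow_dioph hu hg)) hu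
  have h2 : (fun v : α → ℕ => Nat.choose (f v) (g v)) = fun v : α → ℕ =>
      (2 ^ f v + 1 + 1) ^ f v / (2 ^ f v + 1) ^ g v % (2 ^ f v + 1) := by
    funext v
    exact choose_eq (f v) (g v)
  rw [h2]
  exact h

/-- FAC -/
theorem specFac : SpecFac := by
  intro α f hf
  have h1 : Dioph.DiophFn fun v : α → ℕ => (f v ^ f v + 1) * f v ^ 2 + 1 + f v :=
    Dioph.add_dioph (Dioph.add_dioph (Dioph.mul_dioph (Dioph.add_dioph
      (Dioph.pow_dioph hf hf) (Dioph.const_dioph 1)) (Dioph.pow_dioph hf (Dioph.const_dioph 2)))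
      (Dioph.const_dioph 1)) hf
  have h : Dioph.DiophFn fun v : α → ℕ =>
      ((f v ^ f v + 1) * f v ^ 2 + 1 + f v) ^ f v /
        Nat.choose ((f v ^ f v + 1) * f v ^ 2 + 1 + f v) (f v) :=
    Dioph.div_dioph (Dioph.pow_dioph h1 hf) (specBin α _ _ h1 hf)
  have h2 : (fun v : α → ℕ => Nat.factorial (f v)) = fun v : α → ℕ =>
      ((f v ^ f v + 1) * f v ^ 2 + 1 + f v) ^ f v /
        Nat.choose ((f v ^ f v + 1) * f v ^ 2 + 1 + f v) (f v) := by
    funext v
    exact fac_eq (f v) _ (by omega) (by omega)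
  rw [h2]
  exact h

/-- PRODD -/
theorem specProdd : SpecProdd := by
  intro α f g hf hg
  have h1 : Dioph.DiophFn fun v : α → ℕ => (1 + g v * f v) ^ f v :=
    Dioph.pow_dioph (Dioph.add_dioph (Dioph.const_dioph 1) (Dioph.mul_dioph hg hf)) hf
  have h2 : Dioph.DiophFn fun v : α → ℕ => md (f v) (g v) :=
    Dioph.add_dioph (Dioph.mul_dioph hg h1) (Dioph.const_dioph 1)
  have h3 : Dioph.DiophFn fun v : α → ℕ =>
      (g v ^ f v * Nat.factorial (f v) *
        Nat.choose (md (f v) (g v) - (1 + g v * f v) ^ f v + f v) (f v)) % md (f v) (g v)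
        + (1 - g v) :=
    Dioph.add_dioph (Dioph.mod_dioph (Dioph.mul_dioph (Dioph.mul_dioph
      (Dioph.pow_dioph hg hf) (specFac α f hf)) (specBin α _ _
        (Dioph.add_dioph (Dioph.sub_dioph h2 h1) hf) hf)) h2)
      (Dioph.sub_dioph (Dioph.const_dioph 1) hg)
  have h4 : (fun v : α → ℕ => ∏ k ∈ Finset.range (f v), (1 + (k + 1) * g v)) = fun v : α → ℕ =>
      (g v ^ f v * Nat.factorial (f v) *
        Nat.choose (md (f v) (g v) - (1 + g v * f v) ^ f v + f v) (f v)) % md (f v) (g v)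
        + (1 - g v) := by
    funext v
    exact prodd_eq (f v) (g v)
  rw [h4]
  exact h3

end Pool.Agent.Lib.MP2027e1
end

section
/-!
# MP_2027e1_lc, project E8: module MASK
-/
set_option autoImplicit false

namespace Pool.Agent.Lib.MP2027e1

open Finset

namespace MaskM

/-- The number with digits `c j`, `j < m`, in base `2 ^ E`. -/
def num (E : ℕ) (c : ℕ → ℕ) (m : ℕ) : ℕ := ∑ j ∈ range m, c j * (2 ^ E) ^ j

theorem num_succ (E : ℕ) (c : ℕ → ℕ) (m : ℕ) :
    num E c (m + 1) = 2 ^ (E * m) * c m + num E c m := by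
  unfold num
  rw [sum_range_succ, pow_mul]
  ring

theorem num_lt (E : ℕ) (c : ℕ → ℕ) (m : ℕ) (hc : ∀ j, c j < 2 ^ E) :
    num E c m < 2 ^ (E * m) := by
  induction m with
  | zero => simp [num]
  | succ m ih =>
    rw [num_succ]
    have h1 : c m + 1 ≤ 2 ^ E := hc m
    have h2 : 2 ^ (E * m) * (c m + 1) ≤ 2 ^ (E * m) * 2 ^ E := Nat.mul_le_mul_left _ h1
    have h3 : 2 ^ (E * (m + 1)) = 2 ^ (E * m) * 2 ^ E := by
      rw [Nat.mul_succ, pow_add]
    rw [h3]
    calc 2 ^ (E * m) * c m + num E c m < 2 ^ (E * m) * c m + 2 ^ (E * m) := by omega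
      _ = 2 ^ (E * m) * (c m + 1) := by ring
      _ ≤ _ := h2

theorem and_block (k a b a' b' : ℕ) (ha : a < 2 ^ k) (ha' : a' < 2 ^ k) :
    (2 ^ k * b + a) &&& (2 ^ k * b' + a') = 2 ^ k * (b &&& b') + (a &&& a') := by
  apply Nat.eq_of_testBit_eq
  intro i
  have h : a &&& a' < 2 ^ k := lt_of_le_of_lt Nat.and_le_left ha
  rw [Nat.testBit_and, Nat.testBit_two_pow_mul_add _ ha, Nat.testBit_two_pow_mul_add _ ha',
    Nat.testBit_two_pow_mul_add _ h]
  by_cases hi : i < k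
  · simp [hi]
  · simp [hi]

theorem num_and (E : ℕ) (c c' : ℕ → ℕ) (m : ℕ) (hc : ∀ j, c j < 2 ^ E) (hc' : ∀ j, c' j < 2 ^ E) :
    num E c m &&& num E c' m = num E (fun j => c j &&& c' j) m := by
  induction m with
  | zero => simp [num]
  | succ m ih =>
    rw [num_succ, num_succ, num_succ, and_block _ _ _ _ _ (num_lt E c m hc) (num_lt E c' m hc'), ih]

theorem num_eq_zero (E : ℕ) (c : ℕ → ℕ) (m : ℕ) : num E c m = 0 ↔ ∀ j < m, c j = 0 := by
  unfold num
  rw [Finset.sum_eq_zero_iff]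
  constructor
  · intro h j hj
    have := h j (Finset.mem_range.mpr hj)
    have hp : (2 ^ E) ^ j ≠ 0 := by positivity
    rcases Nat.mul_eq_zero.mp this with h1 | h1
    · exact h1
    · exact absurd h1 hp
  · intro h j hj
    rw [h j (Finset.mem_range.mp hj), zero_mul]

/-- Every number below `(2 ^ E) ^ m` has `m` digits. -/
theorem exists_digits (E : ℕ) (m g : ℕ) (hg : g < 2 ^ (E * m)) :
    ∃ c : ℕ → ℕ, (∀ j, c j < 2 ^ E) ∧ g = num E c m := by
  induction m generalizing g with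
  | zero =>
    refine ⟨fun _ => 0, fun _ => by positivity, ?_⟩
    have : g = 0 := by simpa using hg
    simp [num, this]
  | succ m ih =>
    have hpos : 0 < 2 ^ (E * m) := by positivity
    obtain ⟨c, hc, hg'⟩ := ih (g % 2 ^ (E * m)) (Nat.mod_lt _ hpos)
    have hq : g / 2 ^ (E * m) < 2 ^ E := by
      rw [Nat.div_lt_iff_lt_mul hpos, ← pow_add]
      have : E + E * m = E * (m + 1) := by ring
      rw [this]
      exact hg
    refine ⟨fun j => if j = m then g / 2 ^ (E * m) else c j, ?_, ?_⟩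
    · intro j
      dsimp only
      split_ifs
      · exact hq
      · exact hc j
    · rw [num_succ]
      have h1 : num E (fun j => if j = m then g / 2 ^ (E * m) else c j) m = num E c m := by
        unfold num
        refine Finset.sum_congr rfl fun j hj => ?_
        have : j ≠ m := (Finset.mem_range.mp hj).ne
        simp [this]
      rw [h1, ← hg']
      simp only [if_true]
      exact (Nat.div_add_mod g (2 ^ (E * m))).symm

theorem pop_num (hP : SpecPop1) (E : ℕ) (c : ℕ → ℕ) (m : ℕ) (hc : ∀ j, c j < 2 ^ E) :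
    pop (num E c m) = ∑ j ∈ range m, pop (c j) := by
  induction m with
  | zero => simp [num, pop]
  | succ m ih =>
    rw [num_succ, sum_range_succ, ← ih]
    have := hP (num E c m) (c m) (E * m) (num_lt E c m hc)
    rw [show 2 ^ (E * m) * c m + num E c m = num E c m + c m * 2 ^ (E * m) by ring, this]

/-- The maximal number: all digits `2 ^ E - 1`. -/
theorem num_max (E m : ℕ) : num E (fun _ => 2 ^ E - 1) m = 2 ^ (E * m) - 1 := by
  induction m with
  | zero => simp [num]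
  | succ m ih =>
    rw [num_succ, ih]
    have h1 : 1 ≤ 2 ^ E := Nat.one_le_two_pow
    have h2 : 1 ≤ 2 ^ (E * m) := Nat.one_le_two_pow
    have h3 : 2 ^ (E * (m + 1)) = 2 ^ (E * m) * 2 ^ E := by
      rw [Nat.mul_succ, pow_add]
    have h4 : 2 ^ (E * m) ≤ 2 ^ (E * m) * 2 ^ E := Nat.le_mul_of_pos_right _ h1
    rw [h3, Nat.mul_sub, mul_one]
    omega

theorem num_sub (E : ℕ) (c : ℕ → ℕ) (m : ℕ) (hc : ∀ j, c j < 2 ^ E) :
    2 ^ (E * m) - 1 - num E c m = num E (fun j => 2 ^ E - 1 - c j) m := by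
  rw [← num_max]
  have : num E (fun j => 2 ^ E - 1 - c j) m + num E c m = num E (fun _ => 2 ^ E - 1) m := by
    unfold num
    rw [← Finset.sum_add_distrib]
    refine Finset.sum_congr rfl fun j _ => ?_
    rw [← add_mul]
    have h1 := hc j
    have h2 : 2 ^ E - 1 - c j + c j = 2 ^ E - 1 := by omega
    exact congrArg (fun t => t * (2 ^ E) ^ j) h2
  omega

end MaskM

open MaskM

/-- Module MASK. -/
theorem specMask (hP1 : SpecPop1) (hP3 : SpecPop3) : SpecMask := by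
  classical
  intro ν e E m w heE hE hw hwm
  have hpe : 1 ≤ 2 ^ e := Nat.one_le_two_pow
  have hpE : 2 ^ e ≤ 2 ^ E := Nat.pow_le_pow_right (by norm_num) heE
  -- digit functions supported on the image of `w`
  set I : Finset ℕ := Finset.univ.image w with hI
  have hIcard : I.card = ν := by
    rw [hI, Finset.card_image_of_injective _ hw, Finset.card_univ, Fintype.card_fin]
  have hIm : I ⊆ range m := by
    intro j hj
    rw [hI, Finset.mem_image] at hj
    obtain ⟨s, _, rfl⟩ := hj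
    exact Finset.mem_range.mpr (hwm s)
  have hsum : ∀ c : ℕ → ℕ, (∀ j, j ∉ I → c j = 0) →
      num E c m = ∑ s, c (w s) * (2 ^ E) ^ w s := by
    intro c hc
    unfold num
    rw [← Finset.sum_subset hIm (fun j _ hj => by rw [hc j hj, zero_mul]), hI,
      Finset.sum_image (fun a _ b _ h => hw h)]
  set μ : ℕ → ℕ := fun j => if j ∈ I then 2 ^ e - 1 else 0 with hμ
  have hμlt : ∀ j, μ j < 2 ^ E := by
    intro j
    simp only [hμ]
    split_ifs <;> omega
  have hM : ∑ s, (2 ^ e - 1) * (2 ^ E) ^ w s = num E μ m := by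
    rw [hsum μ (fun j hj => by simp [hμ, hj])]
    refine Finset.sum_congr rfl fun s _ => ?_
    have : w s ∈ I := by rw [hI]; exact Finset.mem_image_of_mem _ (Finset.mem_univ s)
    simp [hμ, this]
  have hBm : (2 ^ E) ^ m = 2 ^ (E * m) := (pow_mul 2 E m).symm
  rw [hM, hBm, num_sub E μ m hμlt]
  set μ' : ℕ → ℕ := fun j => 2 ^ E - 1 - μ j with hμ'
  have hμ'lt : ∀ j, μ' j < 2 ^ E := by
    intro j
    simp only [hμ']
    have : 1 ≤ 2 ^ E := Nat.one_le_two_pow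
    omega
  have hνm : ν ≤ m := by
    rw [← hIcard]
    simpa using Finset.card_le_card hIm
  refine ⟨?_, ?_, ?_, ?_⟩
  · have := num_lt E μ m hμlt
    omega
  · rw [pop_num hP1 E μ' m hμ'lt]
    have h1 : ∀ j, pop (μ' j) = if j ∈ I then E - e else E := by
      intro j
      have h0 := hP3 (μ j) E (hμlt j)
      simp only [hμ']
      rw [h0.1]
      by_cases hj : j ∈ I
      · simp only [hμ, hj, if_true]
        have h2 := hP3 0 e (by positivity)
        simp only [Nat.sub_zero] at h2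
        rw [h2.1]
        simp [pop]
      · simp [hμ, hj, pop]
    rw [Finset.sum_congr rfl (fun j _ => h1 j), Finset.sum_ite, Finset.sum_const, Finset.sum_const]
    have h2 : (range m).filter (fun j => j ∈ I) = I := by
      ext j
      simp only [Finset.mem_filter]
      exact ⟨fun h => h.2, fun h => ⟨hIm h, h⟩⟩
    have h3 : ((range m).filter (fun j => j ∉ I)).card = m - ν := by
      have := Finset.card_filter_add_card_filter_not (s := range m) (fun j => j ∈ I)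
      rw [h2, hIcard, Finset.card_range] at this
      omega
    rw [h2, h3, hIcard, smul_eq_mul, smul_eq_mul]
    have h4 : m * E = ν * E + (m - ν) * E := by
      rw [← add_mul]
      congr 1
      omega
    have h5 : ν * (E - e) = ν * E - ν * e := Nat.mul_sub _ _ _
    have h6 : ν * e ≤ ν * E := Nat.mul_le_mul_left _ heE
    omega
  · exact Nat.mul_le_mul hνm heE
  · intro g hg
    constructor
    · intro h0
      obtain ⟨c, hc, rfl⟩ := exists_digits E m g hg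
      rw [num_and E c μ' m hc hμ'lt, num_eq_zero] at h0
      have hout : ∀ j < m, j ∉ I → c j = 0 := by
        intro j hj hjI
        have h1 := h0 j hj
        simp only [hμ', hμ, hjI, if_false, Nat.sub_zero] at h1
        rw [Nat.and_two_pow_sub_one_eq_mod, Nat.mod_eq_of_lt (hc j)] at h1
        exact h1
      have hin : ∀ j < m, j ∈ I → c j < 2 ^ e := by
        intro j hj hjI
        have h1 := h0 j hj
        simp only [hμ', hμ, hjI, if_true] at h1
        by_contra hcon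
        push Not at hcon
        -- a bit of `c j` at a place `≥ e`
        obtain ⟨i, hi, hbit⟩ := Nat.exists_ge_and_testBit_of_ge_two_pow hcon
        have hiE : i < E := by
          by_contra hiE
          push Not at hiE
          have := Nat.testBit_lt_two_pow (lt_of_lt_of_le (hc j) (Nat.pow_le_pow_right (by norm_num) hiE))
          rw [this] at hbit
          exact Bool.noConfusion hbit
        have h2 : (c j &&& (2 ^ E - 1 - (2 ^ e - 1))).testBit i = true := by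
          rw [Nat.testBit_and, hbit, Bool.true_and]
          have h3 : 2 ^ E - 1 - (2 ^ e - 1) = 2 ^ e * (2 ^ (E - e) - 1) := by
            rw [Nat.mul_sub, ← pow_add, show e + (E - e) = E by omega]
            omega
          rw [h3, Nat.testBit_two_pow_mul]
          simp only [ge_iff_le, Bool.and_eq_true, decide_eq_true_eq]
          refine ⟨hi, ?_⟩
          rw [Nat.testBit_two_pow_sub_one]
          simp only [decide_eq_true_eq]
          omega
        rw [h1] at h2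
        simp at h2
      refine ⟨fun s => c (w s), fun s => hin _ (hwm s) ?_, ?_⟩
      · rw [hI]; exact Finset.mem_image_of_mem _ (Finset.mem_univ s)
      · -- replace `c` by zero outside `I`
        have h1 : num E c m = num E (fun j => if j ∈ I then c j else 0) m := by
          unfold num
          refine Finset.sum_congr rfl fun j hj => ?_
          by_cases hjI : j ∈ I
          · simp [hjI]
          · simp [hjI, hout j (Finset.mem_range.mp hj) hjI]
        rw [h1, hsum _ (fun j hj => by simp [hj])]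
        refine Finset.sum_congr rfl fun s _ => ?_
        have : w s ∈ I := by rw [hI]; exact Finset.mem_image_of_mem _ (Finset.mem_univ s)
        simp [this]
    · rintro ⟨z, hz, rfl⟩
      set ζ : ℕ → ℕ := fun j => if h : ∃ s, w s = j then z h.choose else 0 with hζ
      have hζw : ∀ s, ζ (w s) = z s := by
        intro s
        have h : ∃ s', w s' = w s := ⟨s, rfl⟩
        simp only [hζ, h, dif_pos]
        congr 1
        exact hw h.choose_spec
      have hζ0 : ∀ j, j ∉ I → ζ j = 0 := by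
        intro j hj
        have h : ¬ ∃ s, w s = j := by
          rintro ⟨s, rfl⟩
          apply hj
          rw [hI]
          exact Finset.mem_image_of_mem _ (Finset.mem_univ s)
        simp only [hζ, h, dif_neg, not_false_eq_true]
      have hζe : ∀ j, ζ j < 2 ^ e := by
        intro j
        by_cases h : ∃ s, w s = j
        · obtain ⟨s, rfl⟩ := h
          rw [hζw]
          exact hz s
        · simp only [hζ, h, dif_neg, not_false_eq_true]
          positivity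
      have hζlt : ∀ j, ζ j < 2 ^ E := fun j => lt_of_lt_of_le (hζe j) hpE
      have h1 : ∑ s, z s * (2 ^ E) ^ w s = num E ζ m := by
        rw [hsum ζ hζ0]
        exact Finset.sum_congr rfl fun s _ => by rw [hζw]
      rw [h1, num_and E ζ μ' m hζlt hμ'lt, num_eq_zero]
      intro j _
      by_cases hjI : j ∈ I
      · simp only [hμ', hμ, hjI, if_true]
        have h3 : 2 ^ E - 1 - (2 ^ e - 1) = 2 ^ e * (2 ^ (E - e) - 1) := by
          rw [Nat.mul_sub, ← pow_add, show e + (E - e) = E by omega]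
          omega
        rw [h3]
        have := and_block e (ζ j) 0 0 (2 ^ (E - e) - 1) (hζe j) (by positivity)
        simpa using this
      · rw [hζ0 j hjI, Nat.zero_and]

end Pool.Agent.Lib.MP2027e1
end

section
/-!
# MP_2027e1_lc, project E8: module DIG
-/
set_option autoImplicit false

namespace Pool.Agent.Lib.MP2027e1

open Finset MaskM

/-- Module DIG. -/
theorem specDig : SpecDig := by
  intro E J Ω d hE hΩ hd
  have hsplit : ∑ j ∈ Finset.range (J + 1), d j * (2 ^ E) ^ j = num E d (J + 1) := rfl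
  -- `num E d (J+1) = 2^(EΩ) (d Ω + 2^E H) + num E d Ω`
  have key : ∀ n, Ω + 1 ≤ n → ∃ H, num E d n = 2 ^ (E * Ω) * (2 ^ E * H + d Ω) + num E d Ω := by
    intro n hn
    induction n, hn using Nat.le_induction with
    | base => exact ⟨0, by rw [num_succ]; simp⟩
    | succ n hn ih =>
      obtain ⟨H, hH⟩ := ih
      refine ⟨H + 2 ^ (E * (n - (Ω + 1))) * d n, ?_⟩
      rw [num_succ, hH]
      have h1 : 2 ^ (E * n) = 2 ^ (E * Ω) * (2 ^ E * 2 ^ (E * (n - (Ω + 1)))) := by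
        rw [← pow_add, ← pow_add]
        congr 1
        obtain ⟨k, rfl⟩ := Nat.exists_eq_add_of_le hn
        rw [Nat.add_sub_cancel_left]
        ring
      rw [h1]
      ring
  obtain ⟨H, hH⟩ := key (J + 1) (by omega)
  rw [hsplit, hH, ← pow_mul]
  have h1 := and_block (E * Ω) (num E d Ω) (2 ^ E * H + d Ω) 0 (2 ^ (E - 1) - 1)
    (num_lt E d Ω hd) (by positivity)
  rw [Nat.and_zero, Nat.add_zero, Nat.add_zero] at h1
  rw [mul_comm (2 ^ (E - 1) - 1) (2 ^ (E * Ω)), h1, Nat.and_two_pow_sub_one_eq_mod]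
  have h2 : 2 ^ E = 2 ^ (E - 1) * 2 := by
    rw [← pow_succ]
    congr 1
    omega
  have h3 : (2 ^ E * H + d Ω) % 2 ^ (E - 1) = d Ω % 2 ^ (E - 1) := by
    rw [h2, mul_assoc, Nat.mul_add_mod]
  rw [h3, Nat.mul_eq_zero]
  constructor
  · rintro (h | h)
    · exact absurd h (by positivity)
    · exact Nat.dvd_of_mod_eq_zero h
  · intro h
    exact Or.inr (Nat.mod_eq_zero_of_dvd h)

end Pool.Agent.Lib.MP2027e1
end

section
/-!
# MP_2027e1_lc, project E8, module POP: the binary digit sum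
-/
set_option autoImplicit false

namespace Pool.Agent.Lib.MP2027e1

namespace PopM

theorem pop_zero : pop 0 = 0 := by simp [pop]

theorem pop_eq (n : ℕ) : pop n = n % 2 + pop (n / 2) := by
  rcases n with _ | n
  · simp [pop]
  · unfold pop
    rw [Nat.digits_add_two_add_one 0 n]
    simp

theorem pop_two_mul (n : ℕ) : pop (2 * n) = pop n := by
  rw [pop_eq]
  have h1 : 2 * n % 2 = 0 := by omega
  have h2 : 2 * n / 2 = n := by omega
  rw [h1, h2, zero_add]

theorem pop_two_mul_add_one (n : ℕ) : pop (2 * n + 1) = pop n + 1 := by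
  rw [pop_eq]
  have h1 : (2 * n + 1) % 2 = 1 := by omega
  have h2 : (2 * n + 1) / 2 = n := by omega
  rw [h1, h2, add_comm]

theorem pop_succ_le (n : ℕ) : pop (n + 1) ≤ pop n + 1 := by
  induction n using Nat.strong_induction_on with
  | _ n ih =>
    rcases Nat.even_or_odd' n with ⟨c, hc | hc⟩
    · rw [hc, pop_two_mul_add_one, pop_two_mul]
    · have h1 : n + 1 = 2 * (c + 1) := by omega
      rw [h1, pop_two_mul, hc, pop_two_mul_add_one]
      have := ih c (by omega)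
      omega

theorem land_eq_zero_iff (a b : ℕ) :
    a &&& b = 0 ↔ (a % 2 = 0 ∨ b % 2 = 0) ∧ (a / 2) &&& (b / 2) = 0 := by
  have h1 : (a &&& b) / 2 = (a / 2) &&& (b / 2) := Nat.and_div_two
  have h2 : (a &&& b) % 2 = 1 ↔ a % 2 = 1 ∧ b % 2 = 1 := Nat.and_mod_two_eq_one
  rw [← h1]
  constructor
  · intro h
    rw [h]
    refine ⟨?_, rfl⟩
    rw [h] at h2
    by_contra hcon
    have : a % 2 = 1 ∧ b % 2 = 1 := by omega
    have := h2.2 this
    omega
  · rintro ⟨h3, h4⟩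
    have h5 : (a &&& b) % 2 = 0 := by
      by_contra hcon
      have h6 : (a &&& b) % 2 = 1 := by omega
      have := h2.1 h6
      omega
    omega

theorem pop_pow_sub_one (k : ℕ) : pop (2 ^ k - 1) = k := by
  induction k with
  | zero => simp [pop]
  | succ k ih =>
    have h : 2 ^ (k + 1) - 1 = 2 * (2 ^ k - 1) + 1 := by
      have := Nat.one_le_two_pow (n := k)
      rw [pow_succ]; omega
    rw [h, pop_two_mul_add_one, ih]

end PopM

open PopM

/-- Module POP1. -/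
theorem specPop1 : SpecPop1 := by
  intro a b k
  induction k generalizing a with
  | zero =>
    intro h
    have : a = 0 := by simpa using h
    rw [this]; simp [pop_zero]
  | succ k ih =>
    intro h
    rw [pop_eq (a + b * 2 ^ (k + 1)), pop_eq a]
    have h1 : (a + b * 2 ^ (k + 1)) % 2 = a % 2 := by
      rw [pow_succ, ← mul_assoc]; omega
    have h2 : (a + b * 2 ^ (k + 1)) / 2 = a / 2 + b * 2 ^ k := by
      rw [pow_succ, ← mul_assoc]; omega
    rw [h1, h2, ih (a / 2) (by rw [pow_succ] at h; omega)]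
    ring

/-- Module POP2. -/
theorem specPop2 : SpecPop2 := by
  intro a
  induction a using Nat.strong_induction_on with
  | _ a ih =>
    intro b
    rcases Nat.eq_zero_or_pos a with h0 | h0
    · subst h0; simp [pop_zero]
    · obtain ⟨h1, h2⟩ := ih (a / 2) (by omega) (b / 2)
      have hl := land_eq_zero_iff a b
      rw [pop_eq (a + b), pop_eq a, pop_eq b, hl, ← h2]
      by_cases h3 : a % 2 = 1 ∧ b % 2 = 1
      · have h4 : (a + b) % 2 = 0 := by omega
        have h5 : (a + b) / 2 = a / 2 + b / 2 + 1 := by omega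
        have h6 := pop_succ_le (a / 2 + b / 2)
        rw [h4, h5]
        constructor
        · omega
        · constructor
          · intro h; omega
          · intro h; omega
      · have h4 : (a + b) % 2 = a % 2 + b % 2 := by omega
        have h5 : (a + b) / 2 = a / 2 + b / 2 := by omega
        rw [h4, h5]
        constructor
        · omega
        · constructor
          · intro h; omega
          · intro h; omega

/-- Module POP3. -/
theorem specPop3 : SpecPop3 := by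
  intro a k ha
  have h1 : a &&& (2 ^ k - (a + 1)) = 0 := by
    apply Nat.eq_of_testBit_eq
    intro i
    rw [Nat.testBit_and, Nat.testBit_two_pow_sub_succ ha]
    cases h : a.testBit i <;> simp
  have h2 := (specPop2 a (2 ^ k - (a + 1))).2.2 h1
  have h3 : a + (2 ^ k - (a + 1)) = 2 ^ k - 1 := by omega
  have h4 : 2 ^ k - (a + 1) = 2 ^ k - 1 - a := by omega
  rw [h3, pop_pow_sub_one, h4] at h2
  omega

end Pool.Agent.Lib.MP2027e1
end

section
/-!
# MP_2027e1_lc, project E8, module CODE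
-/
set_option autoImplicit false

namespace Pool.Agent.Lib.MP2027e1.CodeM

open Finset MaskM PopM

/-- digit sum criterion -/
theorem pop_crit (S T k : ℕ) (hS : S < 2 ^ k) :
    k + pop T ≤ pop ((S + T) * 2 ^ k + (2 ^ k - 1 - S)) ↔ S &&& T = 0 := by
  have h0 : 0 < 2 ^ k := by positivity
  have h1 := specPop1 (2 ^ k - 1 - S) (S + T) k (by omega)
  obtain ⟨h2, h3⟩ := specPop3 S k hS
  obtain ⟨h4, h5⟩ := specPop2 S T
  rw [add_comm ((S + T) * 2 ^ k), h1, h2, ← h5]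
  omega

theorem and_crit (k a u c v : ℕ) (ha : a < 2 ^ k) (hc : c < 2 ^ k) :
    (a + 2 ^ k * u) &&& (c + 2 ^ k * v) = 0 ↔ a &&& c = 0 ∧ u &&& v = 0 := by
  rw [add_comm a, add_comm c, and_block k a u c v ha hc]
  have h0 : 2 ^ k ≠ 0 := by positivity
  constructor
  · intro h
    have h1 : 2 ^ k * (u &&& v) = 0 := by omega
    refine ⟨by omega, ?_⟩
    rcases Nat.mul_eq_zero.1 h1 with h2 | h2
    · exact absurd h2 h0
    · exact h2
  · rintro ⟨h1, h2⟩
    rw [h1, h2]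
    simp

theorem pop_shift (u k : ℕ) : pop (u * 2 ^ k) = pop u := by
  have := specPop1 0 u k (by positivity)
  rw [zero_add, pop_zero, zero_add] at this
  exact this

section ring

variable {p ν : ℕ} {R : Type*} [CommRing R]

/-- `𝔅` -/
def gB (c1 δ : ℕ) (b : R) : R := 2 ^ c1 * b ^ δ
/-- `𝔅/2` -/
def gH (c1 δ : ℕ) (b : R) : R := 2 ^ (c1 - 1) * b ^ δ
/-- `c` -/
def gc (w : Fin p ⊕ Fin ν → ℕ) (x : Fin p → R) (β g : R) : R :=
  1 + ∑ i, x i * β ^ w (Sum.inl i) + g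
/-- `K` -/
def gK (δ J : ℕ) (Dβ h β c : R) : R := c ^ δ * Dβ + h * ∑ j ∈ range (J + 1), β ^ j
/-- `M` -/
def gM (w : Fin p ⊕ Fin ν → ℕ) (β b1 : R) : R := ∑ s : Fin ν, b1 * β ^ w (Sum.inr s)
/-- `S` -/
def gS (m : ℕ) (β g K : R) : R := g + β ^ m * K
/-- `T` -/
def gT (m Ω : ℕ) (β h M : R) : R := (β ^ m - 1 - M) + β ^ m * ((h - 1) * β ^ Ω)
/-- `X` -/
def gX (q : ℕ) (β S T : R) : R := (S + T) * β ^ q + β ^ q - 1 - S

/-- everything -/
noncomputable def gXX (δ Ω J m q c1 : ℕ) (w : Fin p ⊕ Fin ν → ℕ) (D : Polynomial ℤ) (x : Fin p → R) (b g : R) :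
    R :=
  gX q (gB c1 δ b)
    (gS m (gB c1 δ b) g
      (gK δ J (Polynomial.aeval (gB c1 δ b) D) (gH c1 δ b) (gB c1 δ b) (gc w x (gB c1 δ b) g)))
    (gT m Ω (gB c1 δ b) (gH c1 δ b) (gM w (gB c1 δ b) (b - 1)))

theorem map_gB {S : Type*} [CommRing S] (f : R →+* S) (c1 δ : ℕ) (b : R) :
    f (gB c1 δ b) = gB c1 δ (f b) := by
  simp [gB, map_ofNat]

theorem map_gH {S : Type*} [CommRing S] (f : R →+* S) (c1 δ : ℕ) (b : R) :
    f (gH c1 δ b) = gH c1 δ (f b) := by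
  simp [gH, map_ofNat]

theorem map_aeval' {S : Type*} [CommRing S] (f : R →+* S) (D : Polynomial ℤ) (r : R) :
    f (Polynomial.aeval r D) = Polynomial.aeval (f r) D := by
  rw [Polynomial.aeval_def, Polynomial.hom_eval₂, Polynomial.aeval_def]
  congr 1
  exact RingHom.ext_int _ _

theorem map_gXX {S : Type*} [CommRing S] (f : R →+* S) (δ Ω J m q c1 : ℕ)
    (w : Fin p ⊕ Fin ν → ℕ) (D : Polynomial ℤ) (x : Fin p → R) (b g : R) :
    f (gXX δ Ω J m q c1 w D x b g) = gXX δ Ω J m q c1 w D (fun i => f (x i)) (f b) (f g) := by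
  simp only [gXX, gX, gS, gT, gM, gK, gc, map_add, map_sub, map_mul, map_pow, map_sum, map_one,
    map_gB, map_gH, map_aeval']

end ring

/-! natural number versions -/

/-- `𝔅` -/
def nB (c1 δ b : ℕ) : ℕ := 2 ^ c1 * b ^ δ
/-- `𝔅/2` -/
def nH (c1 δ b : ℕ) : ℕ := 2 ^ (c1 - 1) * b ^ δ
/-- `c` -/
def nc {p ν : ℕ} (w : Fin p ⊕ Fin ν → ℕ) (x : Fin p → ℕ) (β g : ℕ) : ℕ :=
  1 + ∑ i, x i * β ^ w (Sum.inl i) + g
/-- `K` -/
def nK (δ J Dβ h β c : ℕ) : ℕ := c ^ δ * Dβ + h * ∑ j ∈ range (J + 1), β ^ j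
/-- `M` -/
def nM {p ν : ℕ} (w : Fin p ⊕ Fin ν → ℕ) (β b1 : ℕ) : ℕ := ∑ s : Fin ν, b1 * β ^ w (Sum.inr s)
/-- `S` -/
def nS (m β g K : ℕ) : ℕ := g + β ^ m * K
/-- `T` -/
def nT (m Ω β h M : ℕ) : ℕ := (β ^ m - 1 - M) + β ^ m * ((h - 1) * β ^ Ω)

variable {p ν : ℕ}

theorem sum_pow_lt (β n : ℕ) (hβ : 2 ≤ β) : (β - 1) * ∑ j ∈ range n, β ^ j = β ^ n - 1 := by
  rw [Nat.geomSum_eq hβ]
  exact Nat.mul_div_cancel' (by simpa using Nat.sub_dvd_pow_sub_pow β 1 n)

theorem sum_pow_le (β n : ℕ) (hβ : 2 ≤ β) : ∑ j ∈ range n, β ^ j ≤ β ^ n := by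
  have h := sum_pow_lt β n hβ
  have h1 : ∑ j ∈ range n, β ^ j ≤ (β - 1) * ∑ j ∈ range n, β ^ j :=
    Nat.le_mul_of_pos_left _ (by omega)
  omega

/-- `M ≤ 𝔅^m - 1` -/
theorem nM_le {w : Fin p ⊕ Fin ν → ℕ} (hw : Function.Injective w) {m : ℕ} (hwm : ∀ s, w s < m)
    {β b1 : ℕ} (hβ : 2 ≤ β) (hb : b1 ≤ β - 1) : nM w β b1 ≤ β ^ m - 1 := by
  rw [nM, ← mul_sum, ← sum_pow_lt β m hβ]
  refine Nat.mul_le_mul hb ?_
  have h1 : ∑ s : Fin ν, β ^ w (Sum.inr s) = ∑ j ∈ (univ : Finset (Fin ν)).image (fun s => w (Sum.inr s)), β ^ j := by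
    rw [Finset.sum_image]
    intro a _ b _ hab
    exact Sum.inr_injective (hw hab)
  rw [h1]
  refine Finset.sum_le_sum_of_subset ?_
  intro j hj
  rw [Finset.mem_image] at hj
  obtain ⟨s, _, rfl⟩ := hj
  exact Finset.mem_range.2 (hwm _)

theorem le_nB {c1 δ b : ℕ} (hδ : 1 ≤ δ) (hb : 1 ≤ b) (hc : 1 ≤ c1) : 2 * b ≤ nB c1 δ b := by
  rw [nB]
  refine Nat.mul_le_mul ?_ ?_
  · calc 2 = 2 ^ 1 := by norm_num
      _ ≤ 2 ^ c1 := Nat.pow_le_pow_right (by norm_num) hc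
  · calc b = b ^ 1 := (pow_one b).symm
      _ ≤ b ^ δ := Nat.pow_le_pow_right hb hδ

theorem nB_eq {c1 δ b : ℕ} (hc : 1 ≤ c1) : nB c1 δ b = 2 * nH c1 δ b := by
  obtain ⟨c, rfl⟩ : ∃ c, c1 = c + 1 := ⟨c1 - 1, by omega⟩
  rw [nB, nH, Nat.add_sub_cancel, pow_succ]
  ring

/-- bound for `S` -/
theorem nS_lt {δ J m q Dβ h β g : ℕ} {w : Fin p ⊕ Fin ν → ℕ} (hwm : ∀ s, w s < m)
    {x : Fin p → ℕ} (hβ : 2 ≤ β) (hx : 1 + ∑ i, x i ≤ β) (hD : Dβ ≤ β ^ (J + 1)) (hh : h ≤ β)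
    (hg : g < β ^ m) (hq : m + (m + 1) * δ + J + 4 ≤ q) :
    nS m β g (nK δ J Dβ h β (nc w x β g)) < β ^ q := by
  have hβ0 : 0 < β := by omega
  have hc : nc w x β g ≤ β ^ (m + 1) := by
    have h1 : ∑ i, x i * β ^ w (Sum.inl i) ≤ (∑ i, x i) * β ^ m := by
      rw [sum_mul]
      refine sum_le_sum fun i _ => Nat.mul_le_mul_left _ ?_
      exact Nat.pow_le_pow_right hβ0 (hwm _).le
    have h2 : (1 + ∑ i, x i) * β ^ m ≤ β * β ^ m := Nat.mul_le_mul_right _ hx
    rw [nc, pow_succ, mul_comm (β ^ m) β]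
    calc 1 + ∑ i, x i * β ^ w (Sum.inl i) + g ≤ (∑ i, x i) * β ^ m + (1 + g) := by omega
      _ ≤ (∑ i, x i) * β ^ m + β ^ m := by omega
      _ = (1 + ∑ i, x i) * β ^ m := by ring
      _ ≤ _ := h2
  have hK1 : (nc w x β g) ^ δ * Dβ ≤ β ^ ((m + 1) * δ + J + 2) := by
    calc (nc w x β g) ^ δ * Dβ ≤ (β ^ (m + 1)) ^ δ * β ^ (J + 1) :=
          Nat.mul_le_mul (Nat.pow_le_pow_left hc δ) hD
      _ = β ^ ((m + 1) * δ + (J + 1)) := by rw [← pow_mul, ← pow_add]
      _ ≤ _ := Nat.pow_le_pow_right hβ0 (by omega)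
  have hK2 : h * ∑ j ∈ range (J + 1), β ^ j ≤ β ^ ((m + 1) * δ + J + 2) := by
    calc h * ∑ j ∈ range (J + 1), β ^ j ≤ β * β ^ (J + 1) :=
          Nat.mul_le_mul hh (sum_pow_le β (J + 1) hβ)
      _ = β ^ (J + 2) := by rw [pow_succ β (J + 1)]; ring
      _ ≤ _ := Nat.pow_le_pow_right hβ0 (by omega)
  set A : ℕ := (m + 1) * δ + J + 2 with hA
  have hK : nK δ J Dβ h β (nc w x β g) ≤ β ^ (A + 1) := by
    rw [nK, pow_succ]
    calc _ ≤ β ^ A + β ^ A := Nat.add_le_add hK1 hK2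
      _ = β ^ A * 2 := by ring
      _ ≤ β ^ A * β := Nat.mul_le_mul_left _ hβ
  have h3 : 1 + β ^ (A + 1) ≤ β ^ (A + 2) := by
    have h4 : 1 ≤ β ^ (A + 1) := Nat.one_le_pow _ _ hβ0
    calc 1 + β ^ (A + 1) ≤ β ^ (A + 1) * 2 := by omega
      _ ≤ β ^ (A + 1) * β := Nat.mul_le_mul_left _ hβ
      _ = β ^ (A + 2) := by rw [← pow_succ]
  rw [nS]
  calc g + β ^ m * nK δ J Dβ h β (nc w x β g) < β ^ m + β ^ m * nK δ J Dβ h β (nc w x β g) := by omega
    _ = β ^ m * (1 + nK δ J Dβ h β (nc w x β g)) := by ring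
    _ ≤ β ^ m * β ^ (A + 2) := Nat.mul_le_mul_left _ (by omega)
    _ = β ^ (m + (A + 2)) := by rw [← pow_add]
    _ ≤ β ^ q := Nat.pow_le_pow_right hβ0 (by omega)

theorem one_le_nS {δ J m Dβ h β g c : ℕ} (hβ : 1 ≤ β) (hh : 1 ≤ h) :
    1 ≤ nS m β g (nK δ J Dβ h β c) := by
  have h1 : 1 ≤ ∑ j ∈ range (J + 1), β ^ j := by
    rw [sum_range_succ']
    have : 1 ≤ β ^ 0 := by simp
    omega
  have h2 : 1 ≤ h * ∑ j ∈ range (J + 1), β ^ j := Nat.mul_pos hh h1
  have h3 : 1 ≤ nK δ J Dβ h β c := by rw [nK]; omega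
  have h4 : 1 ≤ β ^ m * nK δ J Dβ h β c := Nat.mul_pos (Nat.pow_pos hβ) h3
  rw [nS]; omega

theorem aeval_int (β : ℤ) (D : Polynomial ℤ) : Polynomial.aeval β D = D.eval β := by
  rw [Polynomial.aeval_def, show algebraMap ℤ ℤ = RingHom.id ℤ from RingHom.ext_int _ _,
    Polynomial.eval₂_id]

/-- the value of the polynomial `X` in natural numbers -/
theorem gXX_eq {δ Ω J m q c1 : ℕ} {w : Fin p ⊕ Fin ν → ℕ} {D : Polynomial ℤ} {x : Fin p → ℕ}
    {b g : ℕ} (hb : 1 ≤ b) (hc : 1 ≤ c1) (hD : 0 ≤ D.eval ((nB c1 δ b : ℕ) : ℤ))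
    (hM : nM w (nB c1 δ b) (b - 1) ≤ (nB c1 δ b) ^ m - 1) (hβ : 2 ≤ nB c1 δ b) :
    gXX δ Ω J m q c1 w D (fun i => (x i : ℤ)) (b : ℤ) (g : ℤ)
      = ((nS m (nB c1 δ b) g (nK δ J (D.eval ((nB c1 δ b : ℕ) : ℤ)).toNat (nH c1 δ b) (nB c1 δ b)
            (nc w x (nB c1 δ b) g)) : ℤ)
          + (nT m Ω (nB c1 δ b) (nH c1 δ b) (nM w (nB c1 δ b) (b - 1)) : ℤ))
          * ((nB c1 δ b : ℕ) : ℤ) ^ q + ((nB c1 δ b : ℕ) : ℤ) ^ q - 1
        - (nS m (nB c1 δ b) g (nK δ J (D.eval ((nB c1 δ b : ℕ) : ℤ)).toNat (nH c1 δ b) (nB c1 δ b)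
            (nc w x (nB c1 δ b) g)) : ℤ) := by
  have e1 : gB c1 δ (b : ℤ) = ((nB c1 δ b : ℕ) : ℤ) := by simp [gB, nB]
  have e2 : gH c1 δ (b : ℤ) = ((nH c1 δ b : ℕ) : ℤ) := by simp [gH, nH]
  have hβ' := nB_eq (δ := δ) (b := b) hc
  set β := nB c1 δ b with hβdef
  set h := nH c1 δ b with hh
  have hh1 : 1 ≤ h := by omega
  have e3 : gc w (fun i => (x i : ℤ)) (β : ℤ) (g : ℤ) = ((nc w x β g : ℕ) : ℤ) := by
    simp [gc, nc]
  have e4 : gM w (β : ℤ) ((b : ℤ) - 1) = ((nM w β (b - 1) : ℕ) : ℤ) := by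
    simp [gM, nM, Nat.cast_sub hb]
  have hβm : 1 ≤ β ^ m := Nat.one_le_pow _ _ (by omega)
  have e5 : gT m Ω (β : ℤ) (h : ℤ) ((nM w β (b - 1) : ℕ) : ℤ)
      = ((nT m Ω β h (nM w β (b - 1)) : ℕ) : ℤ) := by
    rw [gT, nT]
    push_cast [Nat.cast_sub hM, Nat.cast_sub hβm, Nat.cast_sub hh1]
    ring
  have e6 : gK δ J (D.eval (β : ℤ)) (h : ℤ) (β : ℤ) ((nc w x β g : ℕ) : ℤ)
      = ((nK δ J (D.eval (β : ℤ)).toNat h β (nc w x β g) : ℕ) : ℤ) := by
    rw [gK, nK]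
    push_cast [Int.toNat_of_nonneg hD]
    ring
  rw [gXX, e1, e2, aeval_int, e3, e6, e4, e5, gX, gS]
  rw [nS]
  push_cast
  ring

/-- the digits of `K` -/
theorem nK_eq {δ J : ℕ} {w : Fin p ⊕ Fin ν → ℕ} {D : Polynomial ℤ} {x : Fin p → ℕ}
    {z : Fin ν → ℕ} {β h g : ℕ} (hD : 0 ≤ D.eval (β : ℤ))
    (hg : g = ∑ s, z s * β ^ w (Sum.inr s))
    (hdeg : ((1 + ∑ s, Polynomial.C ((Sum.elim x z s : ℕ) : ℤ) * Polynomial.X ^ w s) ^ δ
      * D).natDegree ≤ J)
    (hpos : ∀ j, 0 ≤ ((1 + ∑ s, Polynomial.C ((Sum.elim x z s : ℕ) : ℤ) * Polynomial.X ^ w s) ^ δ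
      * D).coeff j + h) :
    nK δ J (D.eval (β : ℤ)).toNat h β (nc w x β g)
      = ∑ j ∈ range (J + 1), (((1 + ∑ s, Polynomial.C ((Sum.elim x z s : ℕ) : ℤ)
          * Polynomial.X ^ w s) ^ δ * D).coeff j + h).toNat * β ^ j := by
  have h1 := Polynomial.eval_eq_sum_range' (Nat.lt_succ_of_le hdeg) (β : ℤ)
  have h2 : ((1 + ∑ s, Polynomial.C ((Sum.elim x z s : ℕ) : ℤ) * Polynomial.X ^ w s) ^ δ
      * D).eval (β : ℤ) = (nc w x β g : ℤ) ^ δ * D.eval (β : ℤ) := by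
    rw [Polynomial.eval_mul, Polynomial.eval_pow]
    congr 2
    rw [Polynomial.eval_add, Polynomial.eval_one, Polynomial.eval_finsetSum, nc, hg]
    rw [Fintype.sum_sum_type]
    push_cast
    simp only [Polynomial.eval_mul, Polynomial.eval_C, Polynomial.eval_pow, Polynomial.eval_X,
      Sum.elim_inl, Sum.elim_inr]
    ring
  have h3 : ((nK δ J (D.eval (β : ℤ)).toNat h β (nc w x β g) : ℕ) : ℤ)
      = ((∑ j ∈ range (J + 1), (((1 + ∑ s, Polynomial.C ((Sum.elim x z s : ℕ) : ℤ)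
          * Polynomial.X ^ w s) ^ δ * D).coeff j + h).toNat * β ^ j : ℕ) : ℤ) := by
    rw [nK]
    push_cast [Int.toNat_of_nonneg hD]
    rw [← h2, h1, mul_sum, ← sum_add_distrib]
    refine sum_congr rfl fun j _ => ?_
    rw [Int.toNat_of_nonneg (hpos j)]
    ring
  exact_mod_cast h3

theorem toNat_lt_aux {κ : ℤ} {H : ℕ} (h : κ < H) (h' : 0 ≤ κ + H) : (κ + H).toNat < H + H := by
  omega

theorem nB_pow (c1 δ e : ℕ) : nB c1 δ (2 ^ e) = 2 ^ (c1 + δ * e) := by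
  rw [nB, ← pow_mul, ← pow_add, mul_comm e δ]

theorem nH_pow {c1 : ℕ} (δ e : ℕ) (hc : 1 ≤ c1) : nH c1 δ (2 ^ e) = 2 ^ (c1 + δ * e - 1) := by
  rw [nH, ← pow_mul, ← pow_add, mul_comm e δ]
  congr 1
  omega

theorem crit {δ Ω J m D1 c0 c1 q : ℕ} {P : MvPolynomial (Fin p ⊕ Fin ν) ℤ}
    {w : Fin p ⊕ Fin ν → ℕ} {D : Polynomial ℤ} (hδ : 1 ≤ δ) (hc0 : 1 ≤ c0) (hΩ : Ω ≤ J)
    (hw : Function.Injective w) (hwm : ∀ s, w s < m)
    (hprop : ∀ Y : Fin p ⊕ Fin ν → ℕ,
        (((1 + ∑ s, Polynomial.C (Y s : ℤ) * Polynomial.X ^ w s) ^ δ * D).coeff Ω = c0 * ev P Y) ∧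
        (((1 + ∑ s, Polynomial.C (Y s : ℤ) * Polynomial.X ^ w s) ^ δ * D).natDegree ≤ J) ∧
        ∀ j, |((1 + ∑ s, Polynomial.C (Y s : ℤ) * Polynomial.X ^ w s) ^ δ * D).coeff j|
          ≤ D1 * (1 + ∑ s, (Y s : ℤ)) ^ δ)
    (hc1 : D1 * (p + ν + 1) ^ δ < 2 ^ (c1 - 1)) (hc1' : 1 ≤ c1)
    (x : Fin p → ℕ) (e g : ℕ) (hx : 2 + ∑ i, x i ≤ 2 ^ e)
    (hD0 : 0 ≤ D.eval ((nB c1 δ (2 ^ e) : ℕ) : ℤ)) (hg : g < (nB c1 δ (2 ^ e)) ^ m)
    (hS : nS m (nB c1 δ (2 ^ e)) g (nK δ J (D.eval ((nB c1 δ (2 ^ e) : ℕ) : ℤ)).toNat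
      (nH c1 δ (2 ^ e)) (nB c1 δ (2 ^ e)) (nc w x (nB c1 δ (2 ^ e)) g))
        < (nB c1 δ (2 ^ e)) ^ q) :
    (q * (c1 + δ * e) + ((m * (c1 + δ * e) - ν * e) + (c1 + δ * e - 1)) ≤
      pop ((nS m (nB c1 δ (2 ^ e)) g (nK δ J (D.eval ((nB c1 δ (2 ^ e) : ℕ) : ℤ)).toNat
          (nH c1 δ (2 ^ e)) (nB c1 δ (2 ^ e)) (nc w x (nB c1 δ (2 ^ e)) g))
        + nT m Ω (nB c1 δ (2 ^ e)) (nH c1 δ (2 ^ e)) (nM w (nB c1 δ (2 ^ e)) (2 ^ e - 1)))
          * (nB c1 δ (2 ^ e)) ^ q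
        + ((nB c1 δ (2 ^ e)) ^ q - 1
          - nS m (nB c1 δ (2 ^ e)) g (nK δ J (D.eval ((nB c1 δ (2 ^ e) : ℕ) : ℤ)).toNat
          (nH c1 δ (2 ^ e)) (nB c1 δ (2 ^ e)) (nc w x (nB c1 δ (2 ^ e)) g))))) ↔
    ∃ z : Fin ν → ℕ, (∀ s, z s < 2 ^ e) ∧ g = ∑ s, z s * (nB c1 δ (2 ^ e)) ^ w (Sum.inr s) ∧
      ev P (Sum.elim x z) = 0 := by
  have hE1 : 1 ≤ c1 + δ * e := by omega
  have heE : e ≤ c1 + δ * e := by
    have : 1 * e ≤ δ * e := Nat.mul_le_mul_right _ hδ
    omega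
  rw [nB_pow, nH_pow δ e hc1'] at *
  have hh2 : (2 : ℕ) ^ (c1 - 1) * (2 ^ e) ^ δ = 2 ^ (c1 + δ * e - 1) := by
    rw [← nH_pow δ e hc1', nH]
  set E := c1 + δ * e with hE
  have hinj : Function.Injective fun s : Fin ν => w (Sum.inr s) :=
    fun a b hab => Sum.inr_injective (hw hab)
  obtain ⟨hm1, hm2, hm3, hm4⟩ := specMask specPop1 specPop3 ν e E m (fun s => w (Sum.inr s)) heE hE1
    hinj (fun s => hwm _)
  -- pop T
  set low := (2 ^ E) ^ m - 1 - ∑ s : Fin ν, (2 ^ e - 1) * (2 ^ E) ^ w (Sum.inr s) with hlow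
  have hlowlt : low < 2 ^ (E * m) := by
    rw [pow_mul, hlow]
    have : 0 < (2 ^ E) ^ m := by positivity
    omega
  have hT : nT m Ω (2 ^ E) (2 ^ (E - 1)) (nM w (2 ^ E) (2 ^ e - 1))
      = low + 2 ^ (E * m) * ((2 ^ (E - 1) - 1) * (2 ^ E) ^ Ω) := by
    rw [nT, nM, pow_mul]
  have hpopT : pop (nT m Ω (2 ^ E) (2 ^ (E - 1)) (nM w (2 ^ E) (2 ^ e - 1)))
      = (m * E - ν * e) + (E - 1) := by
    rw [hT, mul_comm (2 ^ (E * m)), specPop1 _ _ _ hlowlt, hm2, ← pow_mul, pop_shift,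
      pop_pow_sub_one]
  have hgS := hS
  set K := nK δ J (D.eval (((2 ^ E : ℕ) : ℕ) : ℤ)).toNat (2 ^ (E - 1)) (2 ^ E)
    (nc w x (2 ^ E) g) with hK
  rw [← pow_mul] at hgS
  rw [← hpopT, ← pow_mul, mul_comm q E, pop_crit _ _ _ hgS, hT, nS, ← pow_mul,
    and_crit _ _ _ _ _ (by rw [pow_mul]; exact hg) hlowlt, hm4 g hg]
  -- digits
  have hbound : ∀ z : Fin ν → ℕ, (∀ s, z s < 2 ^ e) → ∀ j,
      |((1 + ∑ s, Polynomial.C ((Sum.elim x z s : ℕ) : ℤ) * Polynomial.X ^ w s) ^ δ * D).coeff j|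
        < (2 ^ (E - 1) : ℕ) := by
    intro z hz j
    refine lt_of_le_of_lt ((hprop (Sum.elim x z)).2.2 j) ?_
    have h1 : 1 + ∑ s, Sum.elim x z s ≤ (p + ν + 1) * 2 ^ e := by
      rw [Fintype.sum_sum_type]
      simp only [Sum.elim_inl, Sum.elim_inr]
      have h2 : ∑ s, z s ≤ ν * 2 ^ e := by
        calc ∑ s, z s ≤ ∑ s : Fin ν, 2 ^ e := sum_le_sum fun s _ => (hz s).le
          _ = ν * 2 ^ e := by simp
      have h3 : (p + ν + 1) * 2 ^ e = p * 2 ^ e + ν * 2 ^ e + 2 ^ e := by ring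
      rw [h3]
      have h4 : 0 ≤ p * 2 ^ e := Nat.zero_le _
      omega
    have h5 : D1 * (1 + ∑ s, Sum.elim x z s) ^ δ < 2 ^ (E - 1) := by
      calc D1 * (1 + ∑ s, Sum.elim x z s) ^ δ ≤ D1 * ((p + ν + 1) * 2 ^ e) ^ δ :=
            Nat.mul_le_mul_left _ (Nat.pow_le_pow_left h1 δ)
        _ = (D1 * (p + ν + 1) ^ δ) * (2 ^ e) ^ δ := by rw [mul_pow]; ring
        _ < 2 ^ (c1 - 1) * (2 ^ e) ^ δ := Nat.mul_lt_mul_of_pos_right hc1 (by positivity)
        _ = 2 ^ (E - 1) := hh2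
    exact_mod_cast h5
  have hkey : ∀ z : Fin ν → ℕ, (∀ s, z s < 2 ^ e) →
      g = ∑ s, z s * (2 ^ E) ^ w (Sum.inr s) →
      (K &&& ((2 ^ (E - 1) - 1) * (2 ^ E) ^ Ω) = 0 ↔ ev P (Sum.elim x z) = 0) := by
    intro z hz hgz
    have hb := hbound z hz
    have hpos : ∀ j, 0 ≤ ((1 + ∑ s, Polynomial.C ((Sum.elim x z s : ℕ) : ℤ)
        * Polynomial.X ^ w s) ^ δ * D).coeff j + ((2 ^ (E - 1) : ℕ) : ℤ) := by
      intro j
      have := (abs_lt.1 (hb j)).1
      linarith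
    have hKeq := nK_eq (δ := δ) (J := J) (β := 2 ^ E) (h := 2 ^ (E - 1)) hD0 hgz
      (hprop (Sum.elim x z)).2.1 hpos
    rw [hK, hKeq]
    have hdig := specDig E J Ω (fun j => (((1 + ∑ s, Polynomial.C ((Sum.elim x z s : ℕ) : ℤ)
        * Polynomial.X ^ w s) ^ δ * D).coeff j + ((2 ^ (E - 1) : ℕ) : ℤ)).toNat) hE1 hΩ (by
      intro j
      have h1 := (abs_lt.1 (hb j)).2
      have h2 : (2 : ℕ) ^ E = 2 ^ (E - 1) + 2 ^ (E - 1) := by
        have : E = (E - 1) + 1 := by omega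
        conv_lhs => rw [this, pow_succ]
        ring
      rw [h2]
      exact toNat_lt_aux h1 (hpos j))
    rw [hdig]
    have h1 := (hprop (Sum.elim x z)).1
    have h2 := hb Ω
    have h3 := hpos Ω
    rw [h1] at h2 h3 ⊢
    have h4 : 2 ^ (E - 1) ∣ ((c0 : ℤ) * ev P (Sum.elim x z) + ((2 ^ (E - 1) : ℕ) : ℤ)).toNat ↔
        ((2 ^ (E - 1) : ℕ) : ℤ) ∣ (c0 : ℤ) * ev P (Sum.elim x z) := by
      rw [← Int.natCast_dvd_natCast, Int.toNat_of_nonneg h3]
      exact Int.dvd_add_left (dvd_refl _)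
    rw [h4]
    constructor
    · intro h5
      have h6 := Int.eq_zero_of_abs_lt_dvd h5 h2
      rcases mul_eq_zero.1 h6 with h7 | h7
      · exfalso
        have : c0 = 0 := by exact_mod_cast h7
        omega
      · exact h7
    · intro h5
      rw [h5, mul_zero]
      exact dvd_zero _
  constructor
  · rintro ⟨⟨z, hz, hgz⟩, hKz⟩
    exact ⟨z, hz, hgz, (hkey z hz hgz).1 hKz⟩
  · rintro ⟨z, hz, hgz, hPz⟩
    exact ⟨⟨z, hz, hgz⟩, (hkey z hz hgz).2 hPz⟩

end Pool.Agent.Lib.MP2027e1.CodeM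

namespace Pool.Agent.Lib.MP2027e1

open Finset CodeM PopM

/-- Module CODE. -/
theorem specCode (hMult : SpecMult) : SpecCode := by
  intro p ν P
  obtain ⟨δ, Ω, J, m, D1, c0, w, D, hδ, hc0, hD1, hΩ, hw, hwm, hDpos, hprop⟩ := hMult p ν P
  set c1 : ℕ := D1 * (p + ν + 1) ^ δ + 1 with hc1def
  have hc1' : 1 ≤ c1 := by omega
  have hc1 : D1 * (p + ν + 1) ^ δ < 2 ^ (c1 - 1) := by
    rw [hc1def, Nat.add_sub_cancel]
    exact Nat.lt_two_pow_self
  have hD1c : D1 < 2 ^ c1 := by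
    have h1 : D1 ≤ D1 * (p + ν + 1) ^ δ := Nat.le_mul_of_pos_right _ (by positivity)
    have h2 : 2 ^ (c1 - 1) ≤ 2 ^ c1 := Nat.pow_le_pow_right (by norm_num) (by omega)
    omega
  set q : ℕ := m + (m + 1) * δ + J + 4 + ν with hq
  -- general facts for `b ≥ 1`
  have hβD : ∀ b : ℕ, 1 ≤ b → D1 < nB c1 δ b := by
    intro b hb
    rw [nB]
    calc D1 < 2 ^ c1 := hD1c
      _ ≤ 2 ^ c1 * b ^ δ := Nat.le_mul_of_pos_right _ (by positivity)
  have hDp : ∀ b : ℕ, 1 ≤ b → 0 < D.eval ((nB c1 δ b : ℕ) : ℤ) := by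
    intro b hb
    exact hDpos _ (by exact_mod_cast hβD b hb)
  have hβ2 : ∀ b : ℕ, 1 ≤ b → 2 ≤ nB c1 δ b := by
    intro b hb
    have := le_nB (c1 := c1) hδ hb hc1'
    omega
  have hMle : ∀ b : ℕ, 1 ≤ b → nM w (nB c1 δ b) (b - 1) ≤ (nB c1 δ b) ^ m - 1 := by
    intro b hb
    have := le_nB (c1 := c1) hδ hb hc1'
    exact nM_le hw hwm (hβ2 b hb) (by omega)
  have hcoef : ∀ j, |D.coeff j| ≤ D1 ∧ D.natDegree ≤ J := by
    intro j
    have h := hprop (fun _ => 0)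
    simp only [Nat.cast_zero, map_zero, zero_mul, sum_const_zero, add_zero, one_pow, one_mul,
      mul_one] at h
    exact ⟨h.2.2 j, h.2.1⟩
  have hDle : ∀ b : ℕ, 1 ≤ b → (D.eval ((nB c1 δ b : ℕ) : ℤ)).toNat ≤ (nB c1 δ b) ^ (J + 1) := by
    intro b hb
    set β := nB c1 δ b with hβ
    have h1 := Polynomial.eval_eq_sum_range' (Nat.lt_succ_of_le (hcoef 0).2) (β : ℤ)
    have h2 : D.eval (β : ℤ) ≤ ((D1 * ∑ j ∈ range (J + 1), β ^ j : ℕ) : ℤ) := by
      rw [h1]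
      push_cast
      rw [mul_sum]
      refine sum_le_sum fun j _ => ?_
      exact mul_le_mul_of_nonneg_right ((le_abs_self _).trans (hcoef j).1) (by positivity)
    have h3 : D1 * ∑ j ∈ range (J + 1), β ^ j ≤ β ^ (J + 1) := by
      calc D1 * ∑ j ∈ range (J + 1), β ^ j ≤ (β - 1) * ∑ j ∈ range (J + 1), β ^ j :=
            Nat.mul_le_mul_right _ (by have := hβD b hb; omega)
        _ = β ^ (J + 1) - 1 := sum_pow_lt β _ (hβ2 b hb)
        _ ≤ β ^ (J + 1) := Nat.sub_le _ _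
    have h4 : D.eval (β : ℤ) ≤ ((β ^ (J + 1) : ℕ) : ℤ) := h2.trans (by exact_mod_cast h3)
    omega
  -- the polynomials
  set vx : Fin p → MvPolynomial (Fin p ⊕ Fin 2) ℤ := fun i => MvPolynomial.X (Sum.inl i) with hvx
  set vb : MvPolynomial (Fin p ⊕ Fin 2) ℤ := MvPolynomial.X (Sum.inr 0) with hvb
  set vg : MvPolynomial (Fin p ⊕ Fin 2) ℤ := MvPolynomial.X (Sum.inr 1) with hvg
  have evx : ∀ (x : Fin p → ℕ) (b g : ℕ),
      ev (gXX δ Ω J m q c1 w D vx vb vg) (pt x b g)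
        = gXX δ Ω J m q c1 w D (fun i => (x i : ℤ)) (b : ℤ) (g : ℤ) := by
    intro x b g
    rw [ev, map_gXX]
    simp [hvx, hvb, hvg, pt]
  have evc : ∀ (x : Fin p → ℕ) (b g : ℕ),
      ev ((gB c1 δ vb) ^ m) (pt x b g) = (((nB c1 δ b) ^ m : ℕ) : ℤ) := by
    intro x b g
    rw [ev, map_pow, map_gB]
    simp [hvb, pt, gB, nB]
  have evy : ∀ (x : Fin p → ℕ) (b g : ℕ),
      ev (MvPolynomial.C (2 ^ ((q + m + 1) * c1 - 1)) * vb ^ (δ * (q + m + 1) - ν)) (pt x b g)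
        = ((2 ^ ((q + m + 1) * c1 - 1) * b ^ (δ * (q + m + 1) - ν) : ℕ) : ℤ) := by
    intro x b g
    rw [ev]
    simp [hvb, pt]
  -- abbreviations
  have hX1 : ∀ (x : Fin p → ℕ) (b g : ℕ), 2 + ∑ i, x i ≤ b →
      2 * (((nB c1 δ b) ^ q : ℕ) : ℤ) ≤ 2 * gXX δ Ω J m q c1 w D (fun i => (x i : ℤ)) (b : ℤ) (g : ℤ) := by
    intro x b g hb
    have hb1 : 1 ≤ b := by omega
    rw [gXX_eq hb1 hc1' (hDp b hb1).le (hMle b hb1) (hβ2 b hb1)]
    have hH : 1 ≤ nH c1 δ b := by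
      have h1 := nB_eq (δ := δ) (b := b) hc1'
      have h2 := hβ2 b hb1
      omega
    have hS1 : 1 ≤ nS m (nB c1 δ b) g (nK δ J (D.eval ((nB c1 δ b : ℕ) : ℤ)).toNat (nH c1 δ b)
        (nB c1 δ b) (nc w x (nB c1 δ b) g)) := one_le_nS (by have := hβ2 b hb1; omega) hH
    set S := nS m (nB c1 δ b) g (nK δ J (D.eval ((nB c1 δ b : ℕ) : ℤ)).toNat (nH c1 δ b)
        (nB c1 δ b) (nc w x (nB c1 δ b) g)) with hS
    set T := nT m Ω (nB c1 δ b) (nH c1 δ b) (nM w (nB c1 δ b) (b - 1)) with hT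
    have hN2 : 2 ≤ (nB c1 δ b) ^ q := by
      calc 2 ≤ nB c1 δ b := hβ2 b hb1
        _ = (nB c1 δ b) ^ 1 := (pow_one _).symm
        _ ≤ (nB c1 δ b) ^ q := Nat.pow_le_pow_right (by have := hβ2 b hb1; omega) (by omega)
    push_cast
    have hN2' : (2 : ℤ) ≤ ((nB c1 δ b : ℕ) : ℤ) ^ q := by exact_mod_cast hN2
    have hS1' : (1 : ℤ) ≤ (S : ℤ) := by exact_mod_cast hS1
    have hT0 : (0 : ℤ) ≤ (T : ℤ) := by positivity
    generalize ((nB c1 δ b : ℕ) : ℤ) ^ q = N at hN2'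
    nlinarith [mul_nonneg (sub_nonneg.2 hS1') (by linarith : (0 : ℤ) ≤ N - 1),
      mul_nonneg hT0 (by linarith : (0 : ℤ) ≤ N)]
  have hνt : ν ≤ δ * (q + m + 1) := by
    calc ν ≤ 1 * (q + m + 1) := by omega
      _ ≤ δ * (q + m + 1) := Nat.mul_le_mul_right _ hδ
  have hexp : ∀ e : ℕ, ν * e ≤ m * (c1 + δ * e) →
      (q + m + 1) * c1 - 1 + e * (δ * (q + m + 1) - ν)
      = q * (c1 + δ * e) + ((m * (c1 + δ * e) - ν * e) + (c1 + δ * e - 1)) := by
    intro e he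
    have h1 : 1 ≤ (q + m + 1) * c1 := Nat.mul_pos (by omega) hc1'
    have h2 : ν * e ≤ e * (δ * (q + m + 1)) := by
      rw [mul_comm ν e]
      exact Nat.mul_le_mul_left _ hνt
    zify [h1, hνt, he, show 1 ≤ c1 + δ * e by omega]
    ring
  have hνe : ∀ e : ℕ, ν * e ≤ m * (c1 + δ * e) := by
    intro e
    have heE : e ≤ c1 + δ * e := by
      have : 1 * e ≤ δ * e := Nat.mul_le_mul_right _ hδ
      omega
    exact (specMask specPop1 specPop3 ν e (c1 + δ * e) m (fun s => w (Sum.inr s)) heE (by omega)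
      (fun a b hab => Sum.inr_injective (hw hab)) (fun s => hwm _)).2.2.1
  have hPY : ∀ (x : Fin p → ℕ) (e g : ℕ),
      ev (MvPolynomial.C (2 ^ ((q + m + 1) * c1 - 1)) * vb ^ (δ * (q + m + 1) - ν))
        (pt x (2 ^ e) g)
        = 2 ^ (q * (c1 + δ * e) + ((m * (c1 + δ * e) - ν * e) + (c1 + δ * e - 1))) := by
    intro x e g
    rw [evy, ← hexp e (hνe e), pow_add, pow_mul]
    push_cast
    rfl
  refine ⟨gXX δ Ω J m q c1 w D vx vb vg,
    MvPolynomial.C (2 ^ ((q + m + 1) * c1 - 1)) * vb ^ (δ * (q + m + 1) - ν),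
    (gB c1 δ vb) ^ m, ?_, ?_, ?_⟩
  · intro x b g hb
    have hb1 : 1 ≤ b := by omega
    have hβ := hβ2 b hb1
    refine ⟨?_, ?_, ?_⟩
    · rw [evx]
      have h1 := hX1 x b g hb
      have h2 : (1 : ℤ) ≤ (((nB c1 δ b) ^ q : ℕ) : ℤ) := by
        exact_mod_cast Nat.one_le_pow q _ (by omega)
      linarith
    · rw [evy]
      have : 1 ≤ 2 ^ ((q + m + 1) * c1 - 1) * b ^ (δ * (q + m + 1) - ν) :=
        Nat.mul_pos (by positivity) (Nat.pow_pos hb1)
      exact_mod_cast this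
    · rw [evc]
      exact_mod_cast Nat.one_le_pow m _ (by omega)
  · intro x e g hx
    refine ⟨_, hPY x e g, ?_⟩
    rw [evx]
    refine le_trans ?_ (hX1 x (2 ^ e) g hx)
    rw [nB_pow, ← pow_mul]
    have heE : e ≤ c1 + δ * e := by
      have : 1 * e ≤ δ * e := Nat.mul_le_mul_right _ hδ
      omega
    set E := c1 + δ * e with hE
    have h1 : e + (q * E + ((m * E - ν * e) + (E - 1))) ≤ (q + m + 2) * E := by
      have : (q + m + 2) * E = q * E + m * E + E + E := by ring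
      rw [this]
      have h2 : m * E - ν * e ≤ m * E := Nat.sub_le _ _
      omega
    have h3 : (q + m + 2) * E ≤ 2 * (E * q) := by
      have : 2 * (E * q) = (q + q) * E := by ring
      rw [this]
      exact Nat.mul_le_mul_right _ (by omega)
    have h4 : E * q ≤ 2 ^ (E * q) := Nat.lt_two_pow_self.le
    have h5 : e + (q * E + ((m * E - ν * e) + (E - 1))) ≤ 2 * 2 ^ (E * q) := by omega
    exact_mod_cast h5
  · intro x
    -- the criterion for one `e`, `g`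
    have hcrit : ∀ e g : ℕ, 2 + ∑ i, x i ≤ 2 ^ e → g < (nB c1 δ (2 ^ e)) ^ m →
        ((q * (c1 + δ * e) + ((m * (c1 + δ * e) - ν * e) + (c1 + δ * e - 1)) ≤
          pop (ev (gXX δ Ω J m q c1 w D vx vb vg) (pt x (2 ^ e) g)).toNat) ↔
        ∃ z : Fin ν → ℕ, (∀ s, z s < 2 ^ e) ∧
          g = ∑ s, z s * (nB c1 δ (2 ^ e)) ^ w (Sum.inr s) ∧ ev P (Sum.elim x z) = 0) := by
      intro e g hx hg
      have hb1 : 1 ≤ 2 ^ e := by omega
      have hle := le_nB (c1 := c1) hδ hb1 hc1'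
      have hHle : nH c1 δ (2 ^ e) ≤ nB c1 δ (2 ^ e) := by
        have := nB_eq (δ := δ) (b := 2 ^ e) hc1'
        omega
      have hS := nS_lt (δ := δ) (J := J) (q := q) (h := nH c1 δ (2 ^ e)) (g := g) hwm (x := x)
        (hβ2 _ hb1) (by omega) (hDle _ hb1) hHle hg (by omega)
      have hc := crit hδ hc0 hΩ hw hwm hprop hc1 hc1' x e g hx (hDp _ hb1).le hg hS
      rw [← hc, evx, gXX_eq hb1 hc1' (hDp _ hb1).le (hMle _ hb1) (hβ2 _ hb1)]
      have hS' := hS
      set S := nS m (nB c1 δ (2 ^ e)) g (nK δ J (D.eval ((nB c1 δ (2 ^ e) : ℕ) : ℤ)).toNat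
        (nH c1 δ (2 ^ e)) (nB c1 δ (2 ^ e)) (nc w x (nB c1 δ (2 ^ e)) g)) with hSdef
      set T := nT m Ω (nB c1 δ (2 ^ e)) (nH c1 δ (2 ^ e)) (nM w (nB c1 δ (2 ^ e)) (2 ^ e - 1))
        with hTdef
      have h1 : ((S : ℤ) + T) * ((nB c1 δ (2 ^ e) : ℕ) : ℤ) ^ q
          + ((nB c1 δ (2 ^ e) : ℕ) : ℤ) ^ q - 1 - S
          = (((S + T) * (nB c1 δ (2 ^ e)) ^ q + ((nB c1 δ (2 ^ e)) ^ q - 1 - S) : ℕ) : ℤ) := by
        have h2 : S + 1 ≤ (nB c1 δ (2 ^ e)) ^ q := hS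
        have h3 : (((nB c1 δ (2 ^ e)) ^ q - 1 - S : ℕ) : ℤ)
            = ((nB c1 δ (2 ^ e) : ℕ) : ℤ) ^ q - 1 - S := by
          rw [Nat.sub_sub, Nat.cast_sub (by omega)]
          push_cast
          ring
        push_cast [h3]
        ring
      rw [h1, Int.toNat_natCast]
    constructor
    · rintro ⟨z, hz⟩
      set e : ℕ := 2 + ∑ i, x i + ∑ s, z s with he
      have hlt : e < 2 ^ e := Nat.lt_two_pow_self
      have hx : 2 + ∑ i, x i ≤ 2 ^ e := by omega
      have hzs : ∀ s, z s < 2 ^ e := by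
        intro s
        have : z s ≤ ∑ s, z s := single_le_sum (fun _ _ => Nat.zero_le _) (mem_univ s)
        omega
      have hb1 : 1 ≤ 2 ^ e := by omega
      have hg : ∑ s, z s * (nB c1 δ (2 ^ e)) ^ w (Sum.inr s) < (nB c1 δ (2 ^ e)) ^ m := by
        have h1 : ∑ s, z s * (nB c1 δ (2 ^ e)) ^ w (Sum.inr s)
            ≤ nM w (nB c1 δ (2 ^ e)) (2 ^ e - 1) := by
          rw [nM]
          refine sum_le_sum fun s _ => Nat.mul_le_mul_right _ ?_
          have := hzs s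
          omega
        have h2 := hMle _ hb1
        have h3 : 1 ≤ (nB c1 δ (2 ^ e)) ^ m := Nat.one_le_pow _ _ (by have := hβ2 _ hb1; omega)
        omega
      refine ⟨e, ∑ s, z s * (nB c1 δ (2 ^ e)) ^ w (Sum.inr s), _, hx, ?_, hPY x e _, ?_⟩
      · rw [evc]
        exact_mod_cast hg
      · exact (hcrit e _ hx hg).2 ⟨z, hzs, rfl, hz⟩
    · rintro ⟨e, g, t, hx, hg, ht, hpop⟩
      rw [evc] at hg
      have hg' : g < (nB c1 δ (2 ^ e)) ^ m := by exact_mod_cast hg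
      rw [hPY] at ht
      have ht' : q * (c1 + δ * e) + ((m * (c1 + δ * e) - ν * e) + (c1 + δ * e - 1)) = t := by
        have h1 : (2 : ℕ) ^ (q * (c1 + δ * e) + ((m * (c1 + δ * e) - ν * e) + (c1 + δ * e - 1)))
            = 2 ^ t := by exact_mod_cast ht
        exact Nat.pow_right_injective (le_refl 2) h1
      rw [← ht'] at hpop
      obtain ⟨z, _, _, hz⟩ := (hcrit e g hx hg').1 hpop
      exact ⟨z, hz⟩

end Pool.Agent.Lib.MP2027e1
end

section
/-!
# MP_2027e1_lc, project E8: modules CONV and CONV2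
-/
set_option autoImplicit false

namespace Pool.Agent.Lib.MP2027e1

namespace ConvM

/-- Mathlib's `Poly` are the `MvPolynomial` functions. -/
theorem exists_mv {γ : Type} (p : Poly γ) : ∃ P : MvPolynomial γ ℤ, ∀ x : γ → ℕ, p x = ev P x := by
  refine Poly.induction (C := fun p : Poly γ => ∃ P : MvPolynomial γ ℤ, ∀ x : γ → ℕ, p x = ev P x)
    ?_ ?_ ?_ ?_ p
  · intro i
    exact ⟨MvPolynomial.X i, fun x => by simp [ev]⟩
  · intro n
    exact ⟨MvPolynomial.C n, fun x => by simp [ev]⟩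
  · rintro f g ⟨P, hP⟩ ⟨Q, hQ⟩
    exact ⟨P - Q, fun x => by rw [Poly.sub_apply, hP, hQ]; simp [ev]⟩
  · rintro f g ⟨P, hP⟩ ⟨Q, hQ⟩
    exact ⟨P * Q, fun x => by rw [Poly.mul_apply, hP, hQ]; simp [ev]⟩

theorem exists_poly {γ : Type} (P : MvPolynomial γ ℤ) : ∃ p : Poly γ, ∀ x : γ → ℕ, p x = ev P x := by
  induction P using MvPolynomial.induction_on with
  | C n => exact ⟨Poly.const n, fun x => by simp [ev]⟩
  | add P Q hP hQ =>
    obtain ⟨p, hp⟩ := hP
    obtain ⟨q, hq⟩ := hQ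
    exact ⟨p + q, fun x => by rw [Poly.add_apply, hp, hq]; simp [ev]⟩
  | mul_X P i hP =>
    obtain ⟨p, hp⟩ := hP
    exact ⟨p * Poly.proj i, fun x => by rw [Poly.mul_apply, hp, Poly.proj_apply]; simp [ev]⟩

end ConvM

open ConvM

/-- Module CONV. -/
theorem specConv : SpecConv := by
  classical
  rintro α S ⟨β, p, hp⟩
  obtain ⟨P, hP⟩ := exists_mv p
  -- the dummies which occur
  set B : Finset β := P.vars.preimage Sum.inr (Sum.inr_injective.injOn) with hB
  have hmem : ∀ b, b ∈ B ↔ (Sum.inr b : α ⊕ β) ∈ P.vars := fun b => by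
    rw [hB, Finset.mem_preimage]
  set ρ : β → Fin (B.card + 1) := fun b =>
    if h : b ∈ B then (B.equivFin ⟨b, h⟩).castSucc else Fin.last _ with hρ
  have hinj : ∀ b ∈ B, ∀ b' ∈ B, ρ b = ρ b' → b = b' := by
    intro b hb b' hb' h
    simp only [hρ, hb, hb', dif_pos] at h
    have := B.equivFin.injective (Fin.castSucc_injective _ h)
    exact congrArg Subtype.val this
  refine ⟨B.card + 1, MvPolynomial.rename (Sum.map id ρ) P, fun v => (hp v).trans ?_⟩
  have hev : ∀ t : Fin (B.card + 1) → ℕ,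
      ev (MvPolynomial.rename (Sum.map id ρ) P) (Sum.elim v t) = ev P (Sum.elim v (t ∘ ρ)) := by
    intro t
    unfold ev
    rw [MvPolynomial.eval_rename]
    congr 1
    congr 1
    funext s
    rcases s with a | b <;> rfl
  constructor
  · rintro ⟨t, ht⟩
    refine ⟨fun i => if h : ∃ b, b ∈ B ∧ ρ b = i then t h.choose else 0, ?_⟩
    rw [hev, ← ht, hP]
    unfold ev
    refine MvPolynomial.eval₂Hom_congr' rfl ?_ rfl
    intro s hs _
    rcases s with a | b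
    · rfl
    · have hb : b ∈ B := (hmem b).mpr hs
      have h : ∃ b', b' ∈ B ∧ ρ b' = ρ b := ⟨b, hb, rfl⟩
      have hc : h.choose = b := hinj _ h.choose_spec.1 _ hb h.choose_spec.2
      simp only [Sum.elim_inr, Function.comp_apply, h, dif_pos, hc]
  · rintro ⟨t, ht⟩
    rw [hev] at ht
    exact ⟨t ∘ ρ, by rw [hP]; exact ht⟩

/-- Module CONV2. -/
theorem specConv2 : SpecConv2 := by
  intro α S m P h
  obtain ⟨p, hp⟩ := exists_poly P
  refine ⟨Fin m, p, fun v => (h v).trans ?_⟩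
  exact exists_congr fun t => by rw [hp]

end Pool.Agent.Lib.MP2027e1
end

section
/-!
# Module NORM of the project E8
-/
set_option autoImplicit false

namespace Pool.Agent.Lib.MP2027e1.NormM

lemma sqrt_sq_sub {a : ℝ} (ha : 1 ≤ a) : Real.sqrt (a ^ 2 - 1) ^ 2 = a ^ 2 - 1 :=
  Real.sq_sqrt (by nlinarith)

lemma al_pos {a : ℝ} (ha : 1 ≤ a) : 1 ≤ al a := by
  unfold al
  have := Real.sqrt_nonneg (a ^ 2 - 1)
  linarith

lemma al_mul {a : ℝ} (ha : 1 ≤ a) : al a * (a - Real.sqrt (a ^ 2 - 1)) = 1 := by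
  unfold al
  have := sqrt_sq_sub ha
  nlinarith

lemma al_inv {a : ℝ} (ha : 1 ≤ a) : (al a)⁻¹ = a - Real.sqrt (a ^ 2 - 1) :=
  (eq_inv_of_mul_eq_one_right (al_mul ha)).symm

lemma uu_pos {a : ℝ} (ha : 1 ≤ a) : 0 < uu a := by
  unfold uu
  have := al_pos ha
  positivity

lemma uu_inv (a : ℝ) : (uu a)⁻¹ = al a ^ 2 := by
  unfold uu
  rw [inv_inv]

lemma uu_eq {a : ℝ} (ha : 1 ≤ a) : uu a = (a - Real.sqrt (a ^ 2 - 1)) ^ 2 := by
  unfold uu
  rw [← inv_pow, al_inv ha]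

lemma uu_add_inv {a : ℝ} (ha : 1 ≤ a) : uu a + (uu a)⁻¹ = (2 * a) ^ 2 - 2 := by
  rw [uu_inv, uu_eq ha]
  unfold al
  have := sqrt_sq_sub ha
  nlinarith

lemma norm_aux (u V C L b : ℝ) (hu : u ≠ 0) (hV : V ^ 2 - 2 = u + u⁻¹) :
    RR V C L b =
      ((L * (1 - 4 * u) - C * (1 + u)) ^ 2 - b ^ 2 * C ^ 2 * (1 + u) ^ 2 * (1 - 4 * u))
      * ((L * (1 - 4 * u⁻¹) - C * (1 + u⁻¹)) ^ 2
          - b ^ 2 * C ^ 2 * (1 + u⁻¹) ^ 2 * (1 - 4 * u⁻¹)) := by
  unfold RR t3 t2 t1 f0 f1 f2 f3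
  rw [hV]
  field_simp
  ring

end Pool.Agent.Lib.MP2027e1.NormM

namespace Pool.Agent.Lib.MP2027e1

/-- **Module NORM.** -/
theorem specNorm : SpecNorm := by
  intro a C L b ha
  exact NormM.norm_aux (uu a) (2 * a) C L b (NormM.uu_pos (by linarith)).ne'
    (NormM.uu_add_inv (by linarith)).symm

end Pool.Agent.Lib.MP2027e1
end

section
/-!
# Module SER of the project E8
-/
set_option autoImplicit false

namespace Pool.Agent.Lib.MP2027e1.SerM

open Finset

lemma conv (n : ℕ) :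
    ∑ p ∈ antidiagonal n, (Nat.centralBinom p.1 : ℝ) * Nat.centralBinom p.2 = 4 ^ n := by
  induction n with
  | zero => simp
  | succ n ih =>
    have hsym : ∀ m : ℕ, ∑ p ∈ antidiagonal m, (p.1 : ℝ) *
        ((Nat.centralBinom p.1 : ℝ) * Nat.centralBinom p.2)
        = ∑ p ∈ antidiagonal m, (p.2 : ℝ) *
        ((Nat.centralBinom p.1 : ℝ) * Nat.centralBinom p.2) := by
      intro m
      rw [← Finset.Nat.sum_antidiagonal_swap]
      refine Finset.sum_congr rfl (fun p _ => ?_)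
      simp only [Prod.fst_swap, Prod.snd_swap]
      ring
    have hhalf : ∀ m : ℕ, ∑ p ∈ antidiagonal m, (p.1 : ℝ) *
        ((Nat.centralBinom p.1 : ℝ) * Nat.centralBinom p.2)
        = (m : ℝ) / 2 * ∑ p ∈ antidiagonal m, (Nat.centralBinom p.1 : ℝ) * Nat.centralBinom p.2 := by
      intro m
      have h1 : ∑ p ∈ antidiagonal m, (p.1 : ℝ) *
          ((Nat.centralBinom p.1 : ℝ) * Nat.centralBinom p.2)
          + ∑ p ∈ antidiagonal m, (p.2 : ℝ) *
          ((Nat.centralBinom p.1 : ℝ) * Nat.centralBinom p.2)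
          = (m : ℝ) * ∑ p ∈ antidiagonal m,
            (Nat.centralBinom p.1 : ℝ) * Nat.centralBinom p.2 := by
        rw [← Finset.sum_add_distrib, Finset.mul_sum]
        refine Finset.sum_congr rfl (fun p hp => ?_)
        have h2 : p.1 + p.2 = m := mem_antidiagonal.mp hp
        rw [← h2]
        push_cast
        ring
      rw [← hsym] at h1
      linarith
    have h3 := hhalf (n + 1)
    rw [Finset.Nat.sum_antidiagonal_succ] at h3
    simp only [Nat.cast_zero, zero_mul, zero_add] at h3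
    have h4 : ∑ p ∈ antidiagonal n, ((p.1 + 1 : ℕ) : ℝ) *
        ((Nat.centralBinom (p.1 + 1) : ℝ) * Nat.centralBinom p.2)
        = 2 * ((n : ℝ) + 1) * 4 ^ n := by
      have h5 : ∀ p ∈ antidiagonal n, ((p.1 + 1 : ℕ) : ℝ) *
          ((Nat.centralBinom (p.1 + 1) : ℝ) * Nat.centralBinom p.2)
          = 4 * ((p.1 : ℝ) * ((Nat.centralBinom p.1 : ℝ) * Nat.centralBinom p.2))
            + 2 * ((Nat.centralBinom p.1 : ℝ) * Nat.centralBinom p.2) := by
        intro p _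
        have h6 : (((p.1 + 1) * (p.1 + 1).centralBinom : ℕ) : ℝ)
            = ((2 * (2 * p.1 + 1) * p.1.centralBinom : ℕ) : ℝ) := by
          exact_mod_cast Nat.succ_mul_centralBinom_succ p.1
        push_cast at h6 ⊢
        rw [← mul_assoc, h6]
        ring
      rw [Finset.sum_congr rfl h5, Finset.sum_add_distrib, ← Finset.mul_sum, ← Finset.mul_sum,
        hhalf n, ih]
      ring
    rw [h4] at h3
    have hn : ((n : ℝ) + 1) ≠ 0 := by positivity
    have h7 : ∑ p ∈ antidiagonal (n + 1), (Nat.centralBinom p.1 : ℝ) * Nat.centralBinom p.2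
        = 4 * 4 ^ n := by
      push_cast at h3
      have h8 : ((n : ℝ) + 1) * (∑ p ∈ antidiagonal (n + 1),
          (Nat.centralBinom p.1 : ℝ) * Nat.centralBinom p.2) = ((n : ℝ) + 1) * (4 * 4 ^ n) := by
        linarith
      exact mul_left_cancel₀ hn h8
    rw [h7]
    ring

lemma centralBinom_le (k : ℕ) : (Nat.centralBinom k : ℝ) ≤ 4 ^ k := by
  have h := Finset.single_le_sum (f := fun p : ℕ × ℕ => (Nat.centralBinom p.1 : ℝ) *
    Nat.centralBinom p.2) (s := antidiagonal k) (fun p _ => by positivity)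
    (show (k, 0) ∈ antidiagonal k by simp)
  rw [conv] at h
  simpa using h

lemma sk_le (b k : ℕ) : (sk b k : ℝ) ≤ (b + 1) * 4 ^ k := by
  unfold sk
  push_cast
  have := mul_le_mul_of_nonneg_left (centralBinom_le k) (Nat.cast_nonneg (α := ℝ) b)
  linarith

lemma hasSum_central (u : ℝ) (h0 : 0 ≤ u) (h1 : u < 1 / 4) :
    HasSum (fun k : ℕ => (Nat.centralBinom k : ℝ) * u ^ k) (1 / Real.sqrt (1 - 4 * u)) := by
  have hg : Summable (fun k : ℕ => (4 * u) ^ k) :=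
    summable_geometric_of_lt_one (by linarith) (by linarith)
  have hle : ∀ k : ℕ, (Nat.centralBinom k : ℝ) * u ^ k ≤ (4 * u) ^ k := by
    intro k
    rw [mul_pow]
    exact mul_le_mul_of_nonneg_right (centralBinom_le k) (by positivity)
  have hs : Summable (fun k : ℕ => (Nat.centralBinom k : ℝ) * u ^ k) :=
    Summable.of_nonneg_of_le (fun k => by positivity) hle hg
  have hn : Summable (fun k : ℕ => ‖(Nat.centralBinom k : ℝ) * u ^ k‖) := by
    refine hs.congr (fun k => ?_)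
    rw [Real.norm_eq_abs, abs_of_nonneg (by positivity)]
  have hprod := tsum_mul_tsum_eq_tsum_sum_antidiagonal_of_summable_norm hn hn
  have h2 : ∀ n : ℕ, ∑ kl ∈ antidiagonal n, ((Nat.centralBinom kl.1 : ℝ) * u ^ kl.1) *
      ((Nat.centralBinom kl.2 : ℝ) * u ^ kl.2) = (4 * u) ^ n := by
    intro n
    rw [mul_pow, ← conv n, Finset.sum_mul]
    refine Finset.sum_congr rfl (fun p hp => ?_)
    have h3 : p.1 + p.2 = n := mem_antidiagonal.mp hp
    rw [← h3, pow_add]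
    ring
  rw [tsum_congr h2, tsum_geometric_of_lt_one (by linarith) (by linarith)] at hprod
  set S : ℝ := ∑' k : ℕ, (Nat.centralBinom k : ℝ) * u ^ k with hS
  have hSnn : 0 ≤ S := tsum_nonneg (fun k => by positivity)
  have hpos : 0 < 1 - 4 * u := by linarith
  have hSeq : S = 1 / Real.sqrt (1 - 4 * u) := by
    have h4 : S ^ 2 = (1 / Real.sqrt (1 - 4 * u)) ^ 2 := by
      rw [sq, hprod, div_pow, Real.sq_sqrt hpos.le]
      simp
    exact (pow_left_inj₀ hSnn (by positivity) (by norm_num)).mp h4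
  rw [← hSeq]
  exact hs.hasSum

end Pool.Agent.Lib.MP2027e1.SerM

namespace Pool.Agent.Lib.MP2027e1

/-- **Module SER.** -/
theorem specSer : SpecSer := by
  intro b u h0 h1
  have h2 := (SerM.hasSum_central u h0 h1).mul_left (b : ℝ)
  have h3 : HasSum (fun k : ℕ => (4 * u) ^ k) (1 - 4 * u)⁻¹ :=
    hasSum_geometric_of_lt_one (by linarith) (by linarith)
  have h4 := h2.add h3
  have e1 : (fun k : ℕ => (sk b k : ℝ) * u ^ k)
      = fun k : ℕ => (b : ℝ) * ((Nat.centralBinom k : ℝ) * u ^ k) + (4 * u) ^ k := by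
    funext k
    unfold sk
    push_cast
    rw [mul_pow]
    ring
  have e2 : (b : ℝ) / Real.sqrt (1 - 4 * u) + 1 / (1 - 4 * u)
      = (b : ℝ) * (1 / Real.sqrt (1 - 4 * u)) + (1 - 4 * u)⁻¹ := by
    rw [mul_one_div, one_div]
  rw [e1, e2]
  exact h4

end Pool.Agent.Lib.MP2027e1
end

section
/-!
# MP_2027e1_lc, project E8, module ERR
-/
set_option autoImplicit false

namespace Pool.Agent.Lib.MP2027e1.ErrM

open Finset

variable {a al be u t : ℝ}

lemma psi_formula (a : ℤ) (al be : ℝ) (hs : al + be = 2 * a) (hm : al * be = 1) (n : ℕ) :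
    (psi a n : ℝ) * (al - be) = al ^ n - be ^ n ∧
      (psi a (n + 1) : ℝ) * (al - be) = al ^ (n + 1) - be ^ (n + 1) := by
  induction n with
  | zero => simp [psi]
  | succ n ih =>
    refine ⟨ih.2, ?_⟩
    have h3 : psi a (n + 1 + 1) = 2 * a * psi a (n + 1) - psi a n := rfl
    rw [h3]
    push_cast
    rw [← hs]
    have e : ((al + be) * (psi a (n + 1) : ℝ) - psi a n) * (al - be)
        = (al + be) * ((psi a (n + 1) : ℝ) * (al - be)) - (psi a n : ℝ) * (al - be) := by ring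
    rw [e, ih.1, ih.2]
    have e2 : (al + be) * (al ^ (n + 1) - be ^ (n + 1)) - (al ^ n - be ^ n)
        = al ^ (n + 1 + 1) - be ^ (n + 1 + 1) + (al * be - 1) * (al ^ n - be ^ n) := by ring
    rw [e2, hm]
    ring

lemma psi_odd (a : ℤ) (al be : ℝ) (hs : al + be = 2 * a) (hm : al * be = 1) (X : ℕ) :
    (psi a (2 * X + 1) : ℝ) * (1 - be ^ 2) = (al ^ 2) ^ X - (be ^ 2) ^ (X + 1) := by
  have h := (psi_formula a al be hs hm (2 * X)).2
  have e1 : (psi a (2 * X + 1) : ℝ) * (1 - be ^ 2)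
      = be * ((psi a (2 * X + 1) : ℝ) * (al - be)) := by
    rw [← hm]; ring
  rw [e1, h]
  have e2 : be * (al ^ (2 * X + 1) - be ^ (2 * X + 1))
      = (al * be) * (al ^ 2) ^ X - (be ^ 2) ^ (X + 1) := by
    rw [← pow_mul, ← pow_mul]; ring
  rw [e2, hm, one_mul]

lemma psi_even (a : ℤ) (al be : ℝ) (hs : al + be = 2 * a) (hm : al * be = 1) (m : ℕ) :
    (2 * a) * (psi a (2 * m) : ℝ) * (1 - be ^ 2)
      = (1 + be ^ 2) * ((al ^ 2) ^ m - (be ^ 2) ^ m) := by
  have h := (psi_formula a al be hs hm (2 * m)).1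
  have e1 : (2 * a) * (psi a (2 * m) : ℝ) * (1 - be ^ 2)
      = (be * (al + be)) * ((psi a (2 * m) : ℝ) * (al - be)) := by
    rw [← hm, ← hs]; ring
  rw [e1, h, ← pow_mul, ← pow_mul]
  have e2 : be * (al + be) = 1 + be ^ 2 := by rw [← hm]; ring
  rw [e2]

/-- tail of the series -/
lemma tail (b : ℕ) (u : ℝ) (h0 : 0 ≤ u) (h1 : u < 1 / 4) (n : ℕ) :
    0 ≤ (b / Real.sqrt (1 - 4 * u) + 1 / (1 - 4 * u)) - ∑ k ∈ range n, (sk b k : ℝ) * u ^ k ∧
    (b / Real.sqrt (1 - 4 * u) + 1 / (1 - 4 * u)) - ∑ k ∈ range n, (sk b k : ℝ) * u ^ k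
      ≤ (b + 1) * (4 * u) ^ n / (1 - 4 * u) := by
  have hs := specSer b u h0 h1
  have h2 := (hasSum_nat_add_iff' n).2 hs
  have h3 : HasSum (fun k : ℕ => ((b : ℝ) + 1) * (4 * u) ^ n * (4 * u) ^ k)
      ((b + 1) * (4 * u) ^ n * (1 - 4 * u)⁻¹) :=
    (hasSum_geometric_of_lt_one (by linarith) (by linarith)).mul_left _
  constructor
  · exact h2.nonneg (fun k => by positivity)
  · rw [div_eq_mul_inv]
    refine hasSum_le (fun k => ?_) h2 h3
    have h4 := SerM.sk_le b (k + n)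
    calc (sk b (k + n) : ℝ) * u ^ (k + n) ≤ ((b + 1) * 4 ^ (k + n)) * u ^ (k + n) :=
          mul_le_mul_of_nonneg_right h4 (by positivity)
      _ = (b + 1) * (4 * u) ^ n * (4 * u) ^ k := by rw [mul_pow, mul_pow]; ring

/-- the finite computation -/
lemma main (b X : ℕ) (t u g C N V : ℝ) (ps : ℕ → ℝ) (htu : t * u = 1)
    (hC : C * (1 - u) = t ^ X - u ^ (X + 1))
    (hps : ∀ m, V * ps m * (1 - u) = (1 + u) * (t ^ m - u ^ m))
    (hN : N = (∑ k ∈ range X, (sk b k : ℝ) * V * ps (X - k)) + sk b X) :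
    (1 - u) * (C * (1 + u) * g - N)
      = (1 + u) * (t ^ X * (g - ∑ k ∈ range (X + 1), (sk b k : ℝ) * u ^ k))
        + 2 * u * sk b X - (1 + u) * u ^ (X + 1) * g
        + (1 + u) * ∑ k ∈ range X, (sk b k : ℝ) * u ^ (X - k) := by
  have h1 : t ^ X * ∑ k ∈ range (X + 1), (sk b k : ℝ) * u ^ k
      = (∑ k ∈ range X, (sk b k : ℝ) * t ^ (X - k)) + sk b X := by
    rw [mul_sum, sum_range_succ]
    congr 1
    · refine sum_congr rfl fun k hk => ?_
      have hk' : k < X := mem_range.1 hk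
      have e : t ^ X * u ^ k = t ^ (X - k) := by
        have : t ^ X = t ^ (X - k) * t ^ k := by rw [← pow_add]; congr 1; omega
        rw [this, mul_assoc, ← mul_pow, htu, one_pow, mul_one]
      rw [← e]; ring
    · have e : t ^ X * u ^ X = 1 := by rw [← mul_pow, htu, one_pow]
      calc t ^ X * ((sk b X : ℝ) * u ^ X) = (t ^ X * u ^ X) * sk b X := by ring
        _ = sk b X := by rw [e, one_mul]
  have h2 : (1 - u) * ∑ k ∈ range X, (sk b k : ℝ) * V * ps (X - k)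
      = (1 + u) * (∑ k ∈ range X, (sk b k : ℝ) * t ^ (X - k))
        - (1 + u) * ∑ k ∈ range X, (sk b k : ℝ) * u ^ (X - k) := by
    rw [mul_sum, mul_sum, mul_sum, ← sum_sub_distrib]
    refine sum_congr rfl fun k _ => ?_
    calc (1 - u) * ((sk b k : ℝ) * V * ps (X - k)) = sk b k * (V * ps (X - k) * (1 - u)) := by ring
      _ = sk b k * ((1 + u) * (t ^ (X - k) - u ^ (X - k))) := by rw [hps]
      _ = _ := by ring
  have h3 : (1 - u) * (C * (1 + u) * g - N) = (C * (1 - u)) * (1 + u) * g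
      - (1 - u) * ∑ k ∈ range X, (sk b k : ℝ) * V * ps (X - k) - (1 - u) * sk b X := by
    rw [hN]; ring
  rw [h3, hC, h2, mul_sub (t ^ X), h1]
  ring

end Pool.Agent.Lib.MP2027e1.ErrM

namespace Pool.Agent.Lib.MP2027e1

open Finset ErrM

/-- Module ERR. -/
theorem specErr : SpecErr := by
  intro a b X M hb hX hM ha
  have h2X : 1 ≤ 2 ^ X := Nat.one_le_two_pow
  have ha1 : 1000 ≤ a := by
    refine le_trans ?_ ha
    have : 1 ≤ M * b * 2 ^ X := Nat.one_le_iff_ne_zero.2 (by positivity)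
    calc 1000 = 1000 * 1 := by norm_num
      _ ≤ 1000 * (M * b * 2 ^ X) := Nat.mul_le_mul_left _ this
      _ = 1000 * M * b * 2 ^ X := by ring
  have haR : (1000 : ℝ) ≤ a := by exact_mod_cast ha1
  have haR1 : (1 : ℝ) ≤ a := by linarith
  set α : ℝ := al a with hα
  set β : ℝ := (al a)⁻¹ with hβ
  have hα1 : 1 ≤ α := NormM.al_pos haR1
  have hm : α * β = 1 := mul_inv_cancel₀ (by positivity)
  have hs : α + β = 2 * ((a : ℤ) : ℝ) := by
    rw [hβ, NormM.al_inv haR1, hα, al]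
    push_cast
    ring
  have hu : uu a = β ^ 2 := by rw [uu, hβ, inv_pow]
  set u : ℝ := uu a with hudef
  set t : ℝ := α ^ 2 with ht
  have htu : t * u = 1 := by rw [hu, ht, ← mul_pow, hm, one_pow]
  have hu0 : 0 < u := NormM.uu_pos haR1
  have hαa : (a : ℝ) ≤ α := by
    rw [hα, al]
    have := Real.sqrt_nonneg ((a : ℝ) ^ 2 - 1)
    linarith
  have hua : u * a ^ 2 ≤ 1 := by
    rw [← htu, mul_comm t u]
    exact mul_le_mul_of_nonneg_left (pow_le_pow_left₀ (by positivity) hαa 2) hu0.le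
  have hu1 : u ≤ 1 / 1000000 := by
    have h1 : (1000000 : ℝ) ≤ a ^ 2 := by nlinarith
    have h2 : u * 1000000 ≤ u * a ^ 2 := mul_le_mul_of_nonneg_left h1 hu0.le
    linarith
  have hu4 : u < 1 / 4 := by linarith
  set g : ℝ := b / Real.sqrt (1 - 4 * u) + 1 / (1 - 4 * u) with hg
  have hC : (psi a (2 * X + 1) : ℝ) * (1 - u) = t ^ X - u ^ (X + 1) := by
    have := psi_odd a α β hs hm X
    rw [← hu] at this
    exact this
  have hps : ∀ m, (2 * (a : ℝ)) * (psi a (2 * m) : ℝ) * (1 - u) = (1 + u) * (t ^ m - u ^ m) := by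
    intro m
    have := psi_even a α β hs hm m
    rw [← hu] at this
    push_cast at this
    exact this
  have hN : ((NN a b X : ℤ) : ℝ)
      = (∑ k ∈ range X, (sk b k : ℝ) * (2 * (a : ℝ)) * (fun m => (psi a (2 * m) : ℝ)) (X - k))
        + sk b X := by
    rw [NN]
    push_cast
    rfl
  have key := main b X t u g (psi a (2 * X + 1) : ℝ) (NN a b X : ℝ) (2 * (a : ℝ))
    (fun m => (psi a (2 * m) : ℝ)) htu hC hps hN
  have hth : th a (psi a (2 * X + 1)) b = (psi a (2 * X + 1) : ℝ) * (1 + u) * g := rfl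
  rw [hth]
  -- bounds
  have hq : (1 : ℝ) ≤ 4 ^ X := one_le_pow₀ (by norm_num)
  set Q : ℝ := ((b : ℝ) + 1) * 4 ^ X * u with hQ
  have hQ0 : 0 ≤ Q := by positivity
  obtain ⟨t1, t2⟩ := tail b u hu0.le hu4 (X + 1)
  obtain ⟨g1, g2⟩ := tail b u hu0.le hu4 0
  rw [range_zero, sum_empty, sub_zero, pow_zero, mul_one] at g2
  rw [range_zero, sum_empty, sub_zero] at g1
  have h14 : (0 : ℝ) < 1 - 4 * u := by linarith
  -- term 1
  have hA0 : 0 ≤ t ^ X * (g - ∑ k ∈ range (X + 1), (sk b k : ℝ) * u ^ k) := by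
    refine mul_nonneg (by positivity) t1
  have hA1 : t ^ X * (g - ∑ k ∈ range (X + 1), (sk b k : ℝ) * u ^ k) ≤ 5 * Q := by
    have h1 : t ^ X * (g - ∑ k ∈ range (X + 1), (sk b k : ℝ) * u ^ k)
        ≤ t ^ X * ((b + 1) * (4 * u) ^ (X + 1) / (1 - 4 * u)) :=
      mul_le_mul_of_nonneg_left t2 (by positivity)
    have h2 : t ^ X * ((b + 1) * (4 * u) ^ (X + 1) / (1 - 4 * u)) = 4 * Q / (1 - 4 * u) := by
      have e : t ^ X * u ^ X = 1 := by rw [← mul_pow, htu, one_pow]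
      have e2 : t ^ X * ((b + 1) * (4 * u) ^ (X + 1) / (1 - 4 * u))
          = (t ^ X * u ^ X) * (4 * Q / (1 - 4 * u)) := by
        rw [hQ, mul_pow, pow_succ, pow_succ]; ring
      rw [e2, e, one_mul]
    have h3 : 4 * Q / (1 - 4 * u) ≤ 5 * Q := by
      rw [div_le_iff₀ h14]
      nlinarith
    linarith
  -- term 2
  have hB0 : 0 ≤ 2 * u * (sk b X : ℝ) := by positivity
  have hB1 : 2 * u * (sk b X : ℝ) ≤ 2 * Q := by
    have := mul_le_mul_of_nonneg_left (SerM.sk_le b X) hu0.le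
    rw [hQ]
    linarith
  -- term 3
  have hg0 : 0 ≤ g := g1
  have hD0 : 0 ≤ u ^ (X + 1) * g := by positivity
  have hD1 : u ^ (X + 1) * g ≤ 2 * Q := by
    have h1 : g ≤ 2 * (b + 1) := by
      refine g2.trans ?_
      rw [div_le_iff₀ h14]
      have : (0 : ℝ) ≤ (b : ℝ) + 1 := by positivity
      nlinarith
    have h2 : u ^ (X + 1) ≤ u := by
      calc u ^ (X + 1) ≤ u ^ 1 := pow_le_pow_of_le_one hu0.le (by linarith) (by omega)
        _ = u := pow_one u
    calc u ^ (X + 1) * g ≤ u * (2 * (b + 1)) := mul_le_mul h2 h1 hg0 hu0.le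
      _ = 2 * (((b : ℝ) + 1) * 1 * u) := by ring
      _ ≤ 2 * Q := by
        rw [hQ]
        have : ((b : ℝ) + 1) * 1 * u ≤ ((b : ℝ) + 1) * 4 ^ X * u :=
          mul_le_mul_of_nonneg_right (mul_le_mul_of_nonneg_left hq (by positivity)) hu0.le
        linarith
  -- term 4
  have hE0 : 0 ≤ ∑ k ∈ range X, (sk b k : ℝ) * u ^ (X - k) :=
    sum_nonneg fun k _ => by positivity
  have hE1 : ∑ k ∈ range X, (sk b k : ℝ) * u ^ (X - k) ≤ Q := by
    have h1 : ∀ k ∈ range X, (sk b k : ℝ) * u ^ (X - k) ≤ ((b : ℝ) + 1) * u * 4 ^ k := by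
      intro k hk
      have hk' : k < X := mem_range.1 hk
      have h2 : u ^ (X - k) ≤ u := by
        calc u ^ (X - k) ≤ u ^ 1 := pow_le_pow_of_le_one hu0.le (by linarith) (by omega)
          _ = u := pow_one u
      calc (sk b k : ℝ) * u ^ (X - k) ≤ ((b + 1) * 4 ^ k) * u :=
            mul_le_mul (SerM.sk_le b k) h2 (by positivity) (by positivity)
        _ = ((b : ℝ) + 1) * u * 4 ^ k := by ring
    refine (sum_le_sum h1).trans ?_
    rw [← mul_sum, geom_sum_eq (by norm_num)]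
    have h3 : ((4 : ℝ) ^ X - 1) / (4 - 1) ≤ 4 ^ X := by
      rw [div_le_iff₀ (by norm_num)]
      linarith
    calc ((b : ℝ) + 1) * u * (((4 : ℝ) ^ X - 1) / (4 - 1)) ≤ ((b : ℝ) + 1) * u * 4 ^ X :=
          mul_le_mul_of_nonneg_left h3 (by positivity)
      _ = Q := by rw [hQ]; ring
  -- total
  have hu2 : 1 + u ≤ 2 := by linarith
  have hT : |(1 - u) * ((psi a (2 * X + 1) : ℝ) * (1 + u) * g - (NN a b X : ℝ))| ≤ 16 * Q := by
    rw [key, abs_le]
    have p1 := mul_nonneg (by positivity : (0 : ℝ) ≤ 1 + u) hA0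
    have p2 : (1 + u) * (t ^ X * (g - ∑ k ∈ range (X + 1), (sk b k : ℝ) * u ^ k)) ≤ 2 * (5 * Q) :=
      mul_le_mul hu2 hA1 hA0 (by norm_num)
    have p3 : (1 + u) * u ^ (X + 1) * g ≤ 2 * (2 * Q) := by
      rw [mul_assoc]
      exact mul_le_mul hu2 hD1 hD0 (by norm_num)
    have p4 : 0 ≤ (1 + u) * u ^ (X + 1) * g := by positivity
    have p5 : (1 + u) * ∑ k ∈ range X, (sk b k : ℝ) * u ^ (X - k) ≤ 2 * Q :=
      mul_le_mul hu2 hE1 hE0 (by norm_num)
    have p6 := mul_nonneg (by positivity : (0 : ℝ) ≤ 1 + u) hE0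
    constructor
    · linarith
    · linarith
  have hT2 : |(psi a (2 * X + 1) : ℝ) * (1 + u) * g - (NN a b X : ℝ)| ≤ 17 * Q := by
    rw [abs_mul, abs_of_pos (by linarith : (0 : ℝ) < 1 - u)] at hT
    have h1 : (16 : ℝ) / 17 ≤ 1 - u := by linarith
    have h2 := mul_le_mul_of_nonneg_right h1
      (abs_nonneg ((psi a (2 * X + 1) : ℝ) * (1 + u) * g - (NN a b X : ℝ)))
    linarith
  refine hT2.trans ?_
  -- Q is small
  have hMR : (1 : ℝ) ≤ M := by exact_mod_cast hM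
  have hbR : (2 : ℝ) ≤ b := by exact_mod_cast hb
  have haR2 : (1000 : ℝ) * M * b * 2 ^ X ≤ a := by exact_mod_cast ha
  have h5 : (1000 * (M : ℝ) * b * 2 ^ X) ^ 2 ≤ a ^ 2 := pow_le_pow_left₀ (by positivity) haR2 2
  have h6 : u * (1000 * (M : ℝ) * b * 2 ^ X) ^ 2 ≤ 1 :=
    (mul_le_mul_of_nonneg_left h5 hu0.le).trans hua
  have h7 : (1000 * (M : ℝ) * b * 2 ^ X) ^ 2 = 1000000 * (M : ℝ) ^ 2 * b ^ 2 * 4 ^ X := by
    have : (4 : ℝ) ^ X = (2 ^ X) ^ 2 := by rw [← pow_mul, mul_comm, pow_mul]; norm_num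
    rw [this]; ring
  rw [h7] at h6
  rw [le_div_iff₀ (by positivity)]
  have h8 : (b : ℝ) + 1 ≤ b ^ 2 := by nlinarith
  have h9 : (M : ℝ) ≤ M ^ 2 := by nlinarith
  have h10 : Q * M ≤ u * (M ^ 2 * b ^ 2 * 4 ^ X) := by
    have e1 : ((b : ℝ) + 1) * M ≤ b ^ 2 * M ^ 2 := mul_le_mul h8 h9 (by positivity) (by positivity)
    calc Q * M = (((b : ℝ) + 1) * M) * (4 ^ X * u) := by rw [hQ]; ring
      _ ≤ (b ^ 2 * M ^ 2) * (4 ^ X * u) := mul_le_mul_of_nonneg_right e1 (by positivity)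
      _ = u * (M ^ 2 * b ^ 2 * 4 ^ X) := by ring
  have h11 : u * (1000000 * (M : ℝ) ^ 2 * b ^ 2 * 4 ^ X)
      = 1000000 * (u * (M ^ 2 * b ^ 2 * 4 ^ X)) := by ring
  rw [h11] at h6
  have h12 : 17 * Q * (1000 * M) = 17000 * (Q * M) := by ring
  rw [h12]
  linarith

end Pool.Agent.Lib.MP2027e1
end

section
/-!
# MP_2027e1_lc, project E8: common lemmas on Pell's equation

`psi a n` is Mathlib's `Pell.yn`.
-/
set_option autoImplicit false

namespace Pool.Agent.Lib.MP2027e1.PellM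

open Pool.Agent.Lib.MP2027e1

theorem psi_eq {a : ℕ} (a1 : 1 < a) (n : ℕ) : psi (a : ℤ) n = (Pell.yn a1 n : ℤ) := by
  induction n using Nat.twoStepInduction with
  | zero => simp [psi]
  | one => simp [psi]
  | more n ih0 ih1 =>
    have h := Pell.yn_succ_succ a1 n
    have h' : (Pell.yn a1 (n + 2) : ℤ) + Pell.yn a1 n = 2 * a * Pell.yn a1 (n + 1) := by
      exact_mod_cast h
    rw [psi, ih0, ih1]
    linarith

/-- Pell's equation over `ℤ`. -/
theorem pell_int {a : ℕ} (a1 : 1 < a) (n : ℕ) :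
    (Pell.xn a1 n : ℤ) ^ 2 = ((a : ℤ) ^ 2 - 1) * (Pell.yn a1 n : ℤ) ^ 2 + 1 := by
  have h := Pell.pell_eqz a1 n
  have hd : ((a * a - 1 : ℕ) : ℤ) = (a : ℤ) ^ 2 - 1 := by
    have : 1 ≤ a * a := by nlinarith
    push_cast [Nat.cast_sub this]
    ring
  change (Pell.xn a1 n : ℤ) * (Pell.xn a1 n : ℤ)
    - ((a * a - 1 : ℕ) : ℤ) * (Pell.yn a1 n : ℤ) * (Pell.yn a1 n : ℤ) = 1 at h
  rw [hd] at h
  linear_combination h

/-- Solutions of Pell's equation. -/
theorem exists_yn {a : ℕ} (a1 : 1 < a) {y : ℕ} (h : IsSquare (((a : ℤ) ^ 2 - 1) * (y : ℤ) ^ 2 + 1)) :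
    ∃ n, y = Pell.yn a1 n ∧ ((a : ℤ) ^ 2 - 1) * (y : ℤ) ^ 2 + 1 = (Pell.xn a1 n : ℤ) ^ 2 := by
  obtain ⟨s, hs⟩ := h
  have hs' : ((a : ℤ) ^ 2 - 1) * (y : ℤ) ^ 2 + 1 = (s.natAbs : ℤ) * (s.natAbs : ℤ) := by
    rw [hs]
    have := Int.natAbs_mul_self' s
    exact this.symm
  have hd : ((a * a - 1 : ℕ) : ℤ) = (a : ℤ) ^ 2 - 1 := by
    have : 1 ≤ a * a := by nlinarith
    push_cast [Nat.cast_sub this]
    ring
  have hn : s.natAbs * s.natAbs - (a * a - 1) * y * y = 1 := by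
    have h1 : s.natAbs * s.natAbs = (a * a - 1) * y * y + 1 := by
      apply Int.natCast_inj.mp
      rw [Nat.cast_mul, ← hs', Nat.cast_add, Nat.cast_mul, Nat.cast_mul, hd]
      push_cast
      ring
    omega
  obtain ⟨n, hx, hy⟩ := Pell.eq_pell a1 hn
  refine ⟨n, hy, ?_⟩
  rw [hy]
  rw [pell_int]

theorem two_mul_le_yn {a : ℕ} (a1 : 1 < a) : ∀ k : ℕ, 2 ≤ k → 2 * k ≤ Pell.yn a1 k := by
  intro k hk
  induction k, hk using Nat.le_induction with
  | base =>
    have h := Pell.yn_succ_succ a1 0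
    simp only [Pell.yn_zero, Pell.yn_one, zero_add] at h
    have h2 : Pell.yn a1 2 = 2 * a := by simpa using h
    rw [h2]
    omega
  | succ k hk ih =>
    have h : Pell.yn a1 (k + 1) = Pell.xn a1 k + Pell.yn a1 k * a := Pell.yn_succ a1 k
    have h2 : Pell.yn a1 k * 2 ≤ Pell.yn a1 k * a := Nat.mul_le_mul_left _ a1
    omega

theorem pow_le_yn {a : ℕ} (a1 : 1 < a) (n : ℕ) : a ^ n ≤ Pell.yn a1 (n + 1) := by
  rw [Pell.yn_succ]
  have := Pell.xn_ge_a_pow a1 n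
  omega

theorem isSquare_of_mul {a b : ℤ} (ha : 0 < a) (hb : 0 < b) (h : IsCoprime a b)
    (hs : IsSquare (a * b)) : IsSquare a ∧ IsSquare b := by
  obtain ⟨c, hc⟩ := hs
  have hc' : a * b = c ^ 2 := by rw [hc]; ring
  constructor
  · obtain ⟨a0, h0 | h0⟩ := Int.sq_of_isCoprime h hc'
    · exact ⟨a0, by rw [h0]; ring⟩
    · nlinarith [sq_nonneg a0]
  · obtain ⟨a0, h0 | h0⟩ := Int.sq_of_isCoprime h.symm (by rw [mul_comm]; exact hc')
    · exact ⟨a0, by rw [h0]; ring⟩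
    · nlinarith [sq_nonneg a0]

end Pool.Agent.Lib.MP2027e1.PellM
end

section
/-!
# MP_2027e1_lc, project E8: module EXC (completeness of the exactness test)
-/
set_option autoImplicit false

namespace Pool.Agent.Lib.MP2027e1

namespace ExCM

theorem yn_two {a : ℕ} (a1 : 1 < a) : Pell.yn a1 2 = 2 * a := by
  have h := Pell.yn_succ_succ a1 0
  simp only [Pell.yn_zero, Pell.yn_one, zero_add] at h
  simpa using h

theorem yn_three {a : ℕ} (a1 : 1 < a) : (Pell.yn a1 3 : ℤ) = 4 * (a : ℤ) ^ 2 - 1 := by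
  have h : Pell.yn a1 3 + Pell.yn a1 1 = 2 * a * Pell.yn a1 2 := Pell.yn_succ_succ a1 1
  rw [yn_two a1, Pell.yn_one] at h
  have h' : (Pell.yn a1 3 : ℤ) + 1 = 2 * a * (2 * a) := by exact_mod_cast h
  linarith

/-- A multiple of `2 C² D` among the `y_m`, `C = y_B`, `D = x_B²`. -/
theorem exists_mul {a : ℕ} (a1 : 1 < a) {B : ℕ} (hB : 0 < B) :
    ∃ m, 0 < m ∧ ∃ i : ℕ, Pell.yn a1 m
      = 2 * Pell.yn a1 B ^ 2 * Pell.xn a1 B ^ 2 * (i + 1) := by
  have h1 : Pell.yn a1 (2 * B) = 2 * (Pell.xn a1 B * Pell.yn a1 B) := by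
    rw [two_mul, Pell.yn_add]
    ring
  have h2 := Pell.ysq_dvd_yy a1 (2 * B)
  have hy0 : 0 < Pell.yn a1 (2 * B) := by
    have := Pell.yn_ge_n a1 (2 * B)
    omega
  refine ⟨2 * B * Pell.yn a1 (2 * B), by positivity, ?_⟩
  have h3 : 2 * Pell.yn a1 B ^ 2 * Pell.xn a1 B ^ 2 ∣ Pell.yn a1 (2 * B * Pell.yn a1 (2 * B)) := by
    refine dvd_trans ?_ h2
    rw [h1]
    exact ⟨2, by ring⟩
  obtain ⟨c, hc⟩ := h3
  have hpos : 0 < Pell.yn a1 (2 * B * Pell.yn a1 (2 * B)) := by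
    have := Pell.yn_ge_n a1 (2 * B * Pell.yn a1 (2 * B))
    have h4 : 0 < 2 * B * Pell.yn a1 (2 * B) := by positivity
    omega
  have hc0 : c ≠ 0 := by
    rintro rfl
    rw [hc] at hpos
    simp at hpos
  refine ⟨c - 1, ?_⟩
  rw [Nat.sub_add_cancel (Nat.one_le_iff_ne_zero.2 hc0)]
  exact hc

end ExCM

open ExCM in
theorem specExC : SpecExC := by
  intro a B ha hB
  have a1 : 1 < a := ha
  refine ⟨?_, ?_⟩
  · rw [PellM.psi_eq a1]
    exact_mod_cast Pell.yn_ge_n a1 B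
  obtain ⟨m, hm0, i, hi⟩ := exists_mul a1 (show 0 < B by omega)
  rw [PellM.psi_eq a1]
  set C : ℕ := Pell.yn a1 B with hCdef
  have haz : (2 : ℤ) ≤ a := by exact_mod_cast ha
  have hBC : B ≤ C := Pell.yn_ge_n a1 B
  have hCz : (3 : ℤ) ≤ C := by exact_mod_cast hB.trans hBC
  have hBz : (3 : ℤ) ≤ B := by exact_mod_cast hB
  have hD : DD (a : ℤ) C = (Pell.xn a1 B : ℤ) ^ 2 := by
    unfold DD
    rw [← PellM.pell_int a1 B]
  have hE : EE (a : ℤ) C i = (Pell.yn a1 m : ℤ) := by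
    unfold EE
    rw [hD, hi]
    push_cast
    ring
  have hF : FF (a : ℤ) C i = (Pell.xn a1 m : ℤ) ^ 2 := by
    unfold FF
    rw [hE, ← PellM.pell_int a1 m]
  set F : ℕ := Pell.xn a1 m ^ 2 with hFdef
  have hFz : FF (a : ℤ) C i = (F : ℤ) := by
    rw [hF, hFdef]
    push_cast
    ring
  -- sizes
  have hE1 : 2 * (C : ℤ) ^ 2 ≤ EE (a : ℤ) C i := by
    have hD1 : 1 ≤ DD (a : ℤ) C := by
      unfold DD
      have : 0 ≤ ((a : ℤ) ^ 2 - 1) * (C : ℤ) ^ 2 := mul_nonneg (by nlinarith) (sq_nonneg _)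
      linarith
    have hiz : (0 : ℤ) ≤ i := Int.natCast_nonneg i
    unfold EE
    have h1 : 0 ≤ 2 * (C : ℤ) ^ 2 := by positivity
    calc 2 * (C : ℤ) ^ 2 = 2 * (C : ℤ) ^ 2 * 1 * 1 := by ring
      _ ≤ 2 * (C : ℤ) ^ 2 * DD (a : ℤ) C * (i + 1) := by
        apply mul_le_mul
        · exact mul_le_mul_of_nonneg_left hD1 h1
        · linarith
        · norm_num
        · exact mul_nonneg h1 (by linarith)
  have hCC : (C : ℤ) ≤ (C : ℤ) ^ 2 := by nlinarith
  have hFC : ((a : ℤ) ^ 2 - 1) * (2 * (C : ℤ)) ^ 2 + 1 ≤ F := by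
    rw [← hFz]
    unfold FF
    have h1 : (2 * (C : ℤ)) ^ 2 ≤ (EE (a : ℤ) C i) ^ 2 := by
      apply pow_le_pow_left₀ (by positivity)
      linarith
    have h2 : 0 ≤ (a : ℤ) ^ 2 - 1 := by nlinarith
    nlinarith
  have hF2C : 2 * (C : ℤ) ≤ F := by
    have h3 : (1 : ℤ) ≤ (a : ℤ) ^ 2 - 1 := by nlinarith
    have h4 : 1 * (2 * (C : ℤ)) ^ 2 ≤ ((a : ℤ) ^ 2 - 1) * (2 * (C : ℤ)) ^ 2 :=
      mul_le_mul_of_nonneg_right h3 (sq_nonneg _)
    nlinarith
  have hF2a : 2 * (a : ℤ) ≤ F := by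
    have h3 : (1 : ℤ) ≤ (2 * (C : ℤ)) ^ 2 := by nlinarith
    have h4 : ((a : ℤ) ^ 2 - 1) * 1 ≤ ((a : ℤ) ^ 2 - 1) * (2 * (C : ℤ)) ^ 2 :=
      mul_le_mul_of_nonneg_left h3 (by nlinarith)
    nlinarith
  -- `G`
  have hGz0 : GG (a : ℤ) C i = a + F * (F - a) := by
    unfold GG
    rw [hFz]
  obtain ⟨G, hGe⟩ := Int.eq_ofNat_of_zero_le (show 0 ≤ GG (a : ℤ) C i by rw [hGz0]; nlinarith)
  have hGz : (G : ℤ) = a + F * (F - a) := by rw [← hGe, hGz0]
  have hGF : (F : ℤ) ^ 2 ≤ 2 * G := by rw [hGz]; nlinarith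
  have b1 : 1 < G := by
    have : (1 : ℤ) < G := by nlinarith
    exact_mod_cast this
  -- `H`
  set H : ℕ := Pell.yn b1 B with hHdef
  have hHC : (F : ℤ) ∣ (H : ℤ) - C := by
    have h1 : a ≡ G [MOD F] := by
      rw [Nat.modEq_iff_dvd, hGz]
      exact ⟨F - a, by ring⟩
    have h2 := (Pell.xy_modEq_of_modEq a1 b1 h1 B).2
    rw [Nat.modEq_iff_dvd] at h2
    exact h2
  have hEC : FF (a : ℤ) C i - 1 = 2 * C * (((a : ℤ) ^ 2 - 1) * (EE (a : ℤ) C i)
      * (C * DD (a : ℤ) C * (i + 1))) := by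
    unfold FF
    rw [show (EE (a : ℤ) C i) ^ 2 = EE (a : ℤ) C i * (2 * C ^ 2 * DD (a : ℤ) C * (i + 1)) by
      rw [pow_two]; rfl]
    ring
  set w := ((a : ℤ) ^ 2 - 1) * (EE (a : ℤ) C i) * (C * DD (a : ℤ) C * (i + 1)) with hwdef
  rw [hFz] at hEC
  have hG1 : ((2 * C : ℕ) : ℤ) ∣ ((G - 1 : ℕ) : ℤ) := by
    rw [Nat.cast_sub b1.le, hGz]
    push_cast
    refine ⟨w * (1 + F - a), ?_⟩
    linear_combination (1 + (F : ℤ) - a) * hEC
  have hHB : (2 * C : ℤ) ∣ (H : ℤ) - B := by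
    have h1 := (Pell.yn_modEq_a_sub_one b1 B).of_dvd (Int.natCast_dvd_natCast.1 hG1)
    rw [Nat.modEq_iff_dvd] at h1
    have h2 : (2 * C : ℤ) ∣ (B : ℤ) - H := by
      have : ((2 * C : ℕ) : ℤ) = 2 * C := by push_cast; ring
      rw [← this]
      exact h1
    have h3 := (dvd_neg).2 h2
    rwa [neg_sub] at h3
  -- `2 C F ∣ H - C - B F - C F`
  have hcop : IsCoprime (2 * (C : ℤ)) (F : ℤ) := by
    refine ⟨-w, 1, ?_⟩
    linear_combination hEC
  have hdvd : 2 * (C : ℤ) * F ∣ (H : ℤ) - C - B * F - C * F := by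
    apply hcop.mul_dvd
    · obtain ⟨q, hq⟩ := hHB
      refine ⟨q - B * w - 1 - C * w, ?_⟩
      linear_combination hq - (B + C : ℤ) * hEC
    · obtain ⟨q, hq⟩ := hHC
      refine ⟨q - B - C, ?_⟩
      linear_combination hq
  -- size of `H`
  have hHbig : (C : ℤ) + (B + C) * F ≤ H := by
    have h1 : (Pell.yn b1 3 : ℤ) ≤ H := by
      exact_mod_cast (Pell.strictMono_y b1).monotone hB
    rw [yn_three b1] at h1
    have h2 : ((F : ℤ) ^ 2) ^ 2 ≤ (2 * G) ^ 2 := pow_le_pow_left₀ (by positivity) hGF 2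
    have hBCz : (B : ℤ) ≤ C := by exact_mod_cast hBC
    have hF6 : (6 : ℤ) ≤ F := by linarith
    have h3 : (C : ℤ) + (B + C) * F ≤ F + F * F := by nlinarith
    have h4 : (F : ℤ) + F * F ≤ ((F : ℤ) ^ 2) ^ 2 - 1 := by
      have : (36 : ℤ) ≤ (F : ℤ) ^ 2 := by nlinarith
      nlinarith
    nlinarith
  obtain ⟨j', hj'⟩ := hdvd
  have hCF : 0 < 2 * (C : ℤ) * F := by
    have : (0 : ℤ) < F := by linarith
    positivity
  have hj0 : 0 ≤ j' := by
    by_contra hneg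
    push Not at hneg
    have : 2 * (C : ℤ) * F * j' < 0 := mul_neg_of_pos_of_neg hCF hneg
    linarith
  obtain ⟨j, hj⟩ := Int.eq_ofNat_of_zero_le hj0
  refine ⟨i, j, ?_⟩
  have hHH : HH (a : ℤ) B C i j = (H : ℤ) := by
    unfold HH
    rw [hFz]
    rw [hj] at hj'
    linear_combination -hj'
  have hI : II (a : ℤ) B C i j = (Pell.xn b1 B : ℤ) ^ 2 := by
    unfold II
    rw [hHH, hGe, ← PellM.pell_int b1 B]
  refine ⟨(Pell.xn a1 B : ℤ) * Pell.xn a1 m * Pell.xn b1 B, ?_⟩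
  unfold A2
  rw [hD, hF, hI]
  ring

end Pool.Agent.Lib.MP2027e1
end

section
/-!
# MP_2027e1_lc, project E8: module EXS (soundness of the exactness test)
-/
set_option autoImplicit false

namespace Pool.Agent.Lib.MP2027e1

namespace ExSM

theorem one_le_DD (a C : ℤ) (ha : 2 ≤ a) : 1 ≤ DD a C := by
  unfold DD
  have : 0 ≤ (a ^ 2 - 1) * C ^ 2 := mul_nonneg (by nlinarith) (sq_nonneg _)
  linarith

/-- `F = 1 + D q`. -/
theorem FF_eq (a C i : ℤ) :
    FF a C i = 1 + DD a C * ((a ^ 2 - 1) * (EE a C i) * (2 * C ^ 2 * (i + 1))) := by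
  unfold FF EE
  ring

theorem GG_sub_one (a C i : ℤ) :
    GG a C i - 1 = DD a C * (((a ^ 2 - 1) * (EE a C i) * (2 * C ^ 2 * (i + 1)))
      * (1 + FF a C i - a)) := by
  have h := FF_eq a C i
  have : GG a C i - 1 = (FF a C i - 1) * (1 + FF a C i - a) := by
    unfold GG
    ring
  rw [this]
  rw [show FF a C i - 1 = DD a C * ((a ^ 2 - 1) * (EE a C i) * (2 * C ^ 2 * (i + 1))) by
    linarith]
  ring

theorem coprime_DF (a C i : ℤ) : IsCoprime (DD a C) (FF a C i) := by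
  refine ⟨-((a ^ 2 - 1) * (EE a C i) * (2 * C ^ 2 * (i + 1))), 1, ?_⟩
  have h := FF_eq a C i
  linear_combination h

theorem coprime_DI (a B C i j : ℤ) : IsCoprime (DD a C) (II a B C i j) := by
  have h := GG_sub_one a C i
  set q := ((a ^ 2 - 1) * (EE a C i) * (2 * C ^ 2 * (i + 1))) * (1 + FF a C i - a) with hq
  refine ⟨-(q * (GG a C i + 1) * (HH a B C i j) ^ 2), 1, ?_⟩
  unfold II
  linear_combination ((GG a C i + 1) * (HH a B C i j) ^ 2) * h

theorem coprime_FI (a B C i j : ℤ) : IsCoprime (FF a C i) (II a B C i j) := by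
  -- `I = D + F * w`
  have hG : GG a C i = a + FF a C i * (FF a C i - a) := rfl
  have hH : HH a B C i j = C + FF a C i * (B + (2 * j + 1) * C) := by
    unfold HH
    ring
  set F := FF a C i with hF
  have hI : II a B C i j = DD a C + F * (((F - a) * (2 * a + F * (F - a))) * (HH a B C i j) ^ 2
      + (a ^ 2 - 1) * ((B + (2 * j + 1) * C) * (2 * C + F * (B + (2 * j + 1) * C)))) := by
    unfold II DD
    rw [hG, hH]
    ring
  rw [hI]
  exact ((coprime_DF a C i).symm).add_mul_left_right _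

/-- The combinatorial core, over `ℕ`. -/
theorem core {a G B C F : ℕ} (a1 : 1 < a) (b1 : 1 < G) {k m r : ℕ} (hB : 3 ≤ B) (hBC : B ≤ C)
    (hC : C = Pell.yn a1 k) (hF : F = Pell.xn a1 m ^ 2) (hm : 0 < m) (hCm : C ∣ m)
    (hGa : a ≡ G [MOD F]) (hH : Pell.yn b1 r ≡ C [MOD F])
    (hG1 : 2 * C ∣ G - 1) (hHB : Pell.yn b1 r ≡ B [MOD 2 * C]) : B = k := by
  have hk2 : 2 ≤ k := by
    by_contra hk
    have : k = 0 ∨ k = 1 := by omega
    rcases this with h | h <;> subst h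
    · simp at hC; omega
    · simp at hC; omega
  have h2k : 2 * k ≤ m := by
    have h1 := PellM.two_mul_le_yn a1 k hk2
    have h2 := Nat.le_of_dvd hm hCm
    omega
  -- `y_r(a) ≡ y_k(a)` mod `F`
  have hy : Pell.yn a1 r ≡ Pell.yn a1 k [MOD F] := by
    rw [← hC]
    exact (Pell.xy_modEq_of_modEq a1 b1 hGa r).2.trans hH
  -- `x_{2r}(a) ≡ x_{2k}(a)` mod `x_m(a)`
  have hx2 : ∀ n : ℕ, Pell.xn a1 (2 * n) = 1 + 2 * ((a * a - 1) * (Pell.yn a1 n * Pell.yn a1 n)) := by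
    intro n
    have h1 : Pell.xn a1 (n + n) = Pell.xn a1 n * Pell.xn a1 n
        + (a * a - 1) * Pell.yn a1 n * Pell.yn a1 n := Pell.xn_add a1 n n
    have h2 : Pell.xn a1 n * Pell.xn a1 n - (a * a - 1) * Pell.yn a1 n * Pell.yn a1 n = 1 :=
      Pell.pell_eq a1 n
    rw [two_mul, h1]
    have h3 : (a * a - 1) * Pell.yn a1 n * Pell.yn a1 n
        = (a * a - 1) * (Pell.yn a1 n * Pell.yn a1 n) := by ring
    rw [h3] at h2 ⊢
    omega
  have hx : Pell.xn a1 (2 * r) ≡ Pell.xn a1 (2 * k) [MOD Pell.xn a1 m] := by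
    have h1 : Pell.xn a1 (2 * r) ≡ Pell.xn a1 (2 * k) [MOD F] := by
      rw [hx2, hx2]
      exact (Nat.ModEq.refl 1).add ((Nat.ModEq.refl 2).mul ((Nat.ModEq.refl _).mul (hy.mul hy)))
    exact h1.of_dvd (by rw [hF]; exact Dvd.intro_left _ (by ring))
  have hcong := Pell.modEq_of_xn_modEq a1 (i := 2 * k) (j := 2 * r) (n := m) (by omega) h2k hx
  -- everything modulo `2 C`
  have h4 : 2 * (2 * C) ∣ 4 * m := by
    obtain ⟨c, hc⟩ := hCm
    exact ⟨c, by rw [hc]; ring⟩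
  have hrB : r ≡ B [MOD 2 * C] := by
    have h1 := (Pell.yn_modEq_a_sub_one b1 r).of_dvd hG1
    exact h1.symm.trans hHB
  have hkC : k ≤ C := by
    rw [hC]
    exact Pell.yn_ge_n a1 k
  rcases hcong with h | h
  · have h5 : 2 * r ≡ 2 * k [MOD 2 * (2 * C)] := h.of_dvd h4
    have h6 : r ≡ k [MOD 2 * C] := Nat.ModEq.mul_left_cancel' (by norm_num) h5
    have h7 : B ≡ k [MOD 2 * C] := hrB.symm.trans h6
    have h8 : B % (2 * C) = k % (2 * C) := h7
    rwa [Nat.mod_eq_of_lt (by omega), Nat.mod_eq_of_lt (by omega)] at h8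
  · have h5 : 2 * r + 2 * k ≡ 0 [MOD 2 * (2 * C)] := h.of_dvd h4
    have h6 : 2 * (r + k) ≡ 2 * 0 [MOD 2 * (2 * C)] := by
      rw [mul_add, mul_zero]
      exact h5
    have h7 : r + k ≡ 0 [MOD 2 * C] := Nat.ModEq.mul_left_cancel' (by norm_num) h6
    have h8 : B + k ≡ 0 [MOD 2 * C] := ((hrB.symm).add_right k).trans h7
    have h9 : 2 * C ∣ B + k := (Nat.modEq_zero_iff_dvd).1 h8
    obtain ⟨q, hq⟩ := h9
    have hq1 : q = 1 := by
      have hq0 : q ≠ 0 := by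
        rintro rfl
        omega
      have hq2 : q < 2 := by
        by_contra hq2
        have : 2 * C * 2 ≤ 2 * C * q := Nat.mul_le_mul_left _ (by omega)
        omega
      omega
    subst hq1
    omega

end ExSM

open ExSM in
theorem specExS : SpecExS := by
  intro a B C i j ha hB hBC hsq
  have a1 : 1 < a := ha
  have haz : (2 : ℤ) ≤ a := by exact_mod_cast ha
  have hCz : (3 : ℤ) ≤ C := by exact_mod_cast hB.trans hBC
  have hBz : (3 : ℤ) ≤ B := by exact_mod_cast hB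
  have hiz : (0 : ℤ) ≤ i := Int.natCast_nonneg i
  have hjz : (0 : ℤ) ≤ j := Int.natCast_nonneg j
  -- positivity
  have hD : 1 ≤ DD (a : ℤ) C := one_le_DD _ _ haz
  have hE : 1 ≤ EE (a : ℤ) C i := by
    unfold EE
    have h1 : 1 ≤ 2 * (C : ℤ) ^ 2 := by nlinarith
    have h2 : 1 ≤ 2 * (C : ℤ) ^ 2 * DD (a : ℤ) C := by nlinarith
    nlinarith
  have ha2 : (a : ℤ) ≤ (a : ℤ) ^ 2 - 1 := by nlinarith
  have hFa : (a : ℤ) + 1 ≤ FF (a : ℤ) C i := by
    unfold FF
    have : 1 ≤ (EE (a : ℤ) C i) ^ 2 := by nlinarith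
    nlinarith
  have hG : (a : ℤ) < GG (a : ℤ) C i := by
    unfold GG
    nlinarith
  have hH : 0 ≤ HH (a : ℤ) B C i j := by
    unfold HH
    have hF0 : 0 ≤ FF (a : ℤ) C i := by linarith
    positivity
  have hI : 1 ≤ II (a : ℤ) B C i j := by
    unfold II
    have : 0 ≤ ((GG (a : ℤ) C i) ^ 2 - 1) * (HH (a : ℤ) B C i j) ^ 2 :=
      mul_nonneg (by nlinarith) (sq_nonneg _)
    linarith
  -- the three squares
  have hDFI : IsSquare (DD (a : ℤ) C * FF (a : ℤ) C i * II (a : ℤ) B C i j) := hsq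
  have hcop : IsCoprime (DD (a : ℤ) C * FF (a : ℤ) C i) (II (a : ℤ) B C i j) :=
    IsCoprime.mul_left (coprime_DI _ _ _ _ _) (coprime_FI _ _ _ _ _)
  obtain ⟨hDF, hIs⟩ := PellM.isSquare_of_mul (by nlinarith) (by linarith) hcop hDFI
  obtain ⟨hDs, hFs⟩ := PellM.isSquare_of_mul (by linarith) (by linarith) (coprime_DF _ _ _) hDF
  -- Pell solutions
  obtain ⟨k, hk, -⟩ := PellM.exists_yn a1 (y := C) hDs
  obtain ⟨E, hEe⟩ := Int.eq_ofNat_of_zero_le (show 0 ≤ EE (a : ℤ) C i by linarith)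
  obtain ⟨G, hGe⟩ := Int.eq_ofNat_of_zero_le (show 0 ≤ GG (a : ℤ) C i by linarith)
  obtain ⟨H, hHe⟩ := Int.eq_ofNat_of_zero_le hH
  have hFE : FF (a : ℤ) C i = ((a : ℤ) ^ 2 - 1) * (E : ℤ) ^ 2 + 1 := by
    unfold FF
    rw [hEe]
  have hIE : II (a : ℤ) B C i j = ((G : ℤ) ^ 2 - 1) * (H : ℤ) ^ 2 + 1 := by
    unfold II
    rw [hGe, hHe]
  rw [hFE] at hFs
  rw [hIE] at hIs
  obtain ⟨m, hm, hFm⟩ := PellM.exists_yn a1 hFs
  have b1 : 1 < G := by
    have : (2 : ℤ) < G := by rw [← hGe]; linarith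
    omega
  obtain ⟨r, hr, -⟩ := PellM.exists_yn b1 hIs
  have hF : FF (a : ℤ) C i = ((Pell.xn a1 m ^ 2 : ℕ) : ℤ) := by
    rw [hFE, hFm]
    push_cast
    ring
  have hE1 : 1 ≤ E := by
    have : (1 : ℤ) ≤ E := by rw [← hEe]; exact hE
    exact_mod_cast this
  have hm0 : 0 < m := by
    rcases Nat.eq_zero_or_pos m with h | h
    · subst h
      simp at hm
      omega
    · exact h
  have hCm : C ∣ m := by
    have h1 : (C : ℤ) * C ∣ (E : ℤ) := by
      rw [← hEe]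
      unfold EE
      exact ⟨2 * DD (a : ℤ) C * (i + 1), by ring⟩
    have h2 : C * C ∣ E := by exact_mod_cast h1
    rw [hm, hk] at h2
    rw [hk]
    exact Pell.dvd_of_ysq_dvd a1 h2
  have hw : FF (a : ℤ) C i - 1 = 2 * C * (((a : ℤ) ^ 2 - 1) * (EE (a : ℤ) C i)
      * (C * DD (a : ℤ) C * (i + 1))) := by
    unfold FF
    rw [show (EE (a : ℤ) C i) ^ 2 = EE (a : ℤ) C i * (2 * C ^ 2 * DD (a : ℤ) C * (i + 1)) by
      rw [pow_two]; rfl]
    ring
  set w := ((a : ℤ) ^ 2 - 1) * (EE (a : ℤ) C i) * (C * DD (a : ℤ) C * (i + 1)) with hwdef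
  have hGz : (G : ℤ) = a + FF (a : ℤ) C i * (FF (a : ℤ) C i - a) := by
    rw [← hGe]
    rfl
  have hHz : (H : ℤ) = C + B * FF (a : ℤ) C i + (2 * j + 1) * C * FF (a : ℤ) C i := by
    rw [← hHe]
    rfl
  have hres := core a1 b1 (k := k) (m := m) (r := r) (F := Pell.xn a1 m ^ 2) hB hBC hk rfl hm0 hCm
    (by
      rw [Nat.modEq_iff_dvd, ← hF, hGz]
      exact ⟨FF (a : ℤ) C i - a, by ring⟩)
    (by
      rw [← hr, Nat.modEq_iff_dvd, ← hF, hHz]
      exact ⟨-(B + (2 * j + 1) * C), by ring⟩)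
    (by
      have h1 : ((2 * C : ℕ) : ℤ) ∣ ((G - 1 : ℕ) : ℤ) := by
        rw [Nat.cast_sub (by omega), hGz]
        push_cast
        refine ⟨w * (1 + FF (a : ℤ) C i - a), ?_⟩
        linear_combination (1 + FF (a : ℤ) C i - a) * hw
      exact_mod_cast h1)
    (by
      rw [← hr, Nat.modEq_iff_dvd, hHz]
      push_cast
      refine ⟨-(B * w) - (j + 1) - C * (2 * j + 1) * w, ?_⟩
      linear_combination (-(B : ℤ) - (2 * j + 1) * C) * hw)
  rw [PellM.psi_eq a1, hres, ← hk]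

end Pool.Agent.Lib.MP2027e1
end

section
/-!
# Module EXTR of the project E8
-/
set_option autoImplicit false

namespace Pool.Agent.Lib.MP2027e1.ExtrM

open Finset

lemma RR_cast (V C L b : ℤ) : ((RR V C L b : ℤ) : ℝ) = RR (V : ℝ) (C : ℝ) (L : ℝ) (b : ℝ) := by
  unfold RR t3 t2 t1 f0 f1 f2 f3
  push_cast
  ring

lemma psi_mono (a : ℤ) (ha : 1 ≤ a) (n : ℕ) : 0 ≤ psi a n ∧ psi a n + 1 ≤ psi a (n + 1) := by
  induction n with
  | zero => simp [psi]
  | succ n ih =>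
    obtain ⟨h1, h2⟩ := ih
    have h3 : psi a (n + 1 + 1) = 2 * a * psi a (n + 1) - psi a n := rfl
    refine ⟨by linarith, ?_⟩
    rw [h3]
    nlinarith

lemma psi_nonneg (a : ℤ) (ha : 1 ≤ a) (n : ℕ) : 0 ≤ psi a n := (psi_mono a ha n).1

lemma psi_pos (a : ℤ) (ha : 1 ≤ a) (n : ℕ) : 1 ≤ psi a (n + 1) := by
  have h := psi_mono a ha n
  linarith [h.1, h.2]

lemma NN_nonneg (a b X : ℕ) (ha : 1 ≤ a) : 0 ≤ NN a b X := by
  unfold NN
  have haZ : (1 : ℤ) ≤ a := by exact_mod_cast ha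
  have h1 : 0 ≤ ∑ k ∈ Finset.range X, (sk b k : ℤ) * (2 * a) * psi a (2 * (X - k)) :=
    Finset.sum_nonneg (fun k _ => mul_nonneg (by positivity) (psi_nonneg _ haZ _))
  positivity

end Pool.Agent.Lib.MP2027e1.ExtrM

namespace Pool.Agent.Lib.MP2027e1

open ExtrM

/-- **Module EXTR**, soundness. -/
theorem specExtrS (hE : SpecErr) (hN : SpecNrmS) : SpecExtrS := by
  intro a b X L hb hX ha hlt
  have h2X : 1 ≤ 2 ^ X := Nat.one_le_two_pow
  have hba : 1000 * b ≤ a := by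
    refine le_trans ?_ ha
    exact Nat.le_mul_of_pos_right _ (by positivity)
  have ha1 : 1 ≤ a := by omega
  have hC : (1 : ℤ) ≤ psi a (2 * X + 1) := psi_pos a (by exact_mod_cast ha1) (2 * X)
  have hCR : (1 : ℝ) ≤ ((psi a (2 * X + 1) : ℤ) : ℝ) := by exact_mod_cast hC
  have hltR : 256 * (RR (2 * (a : ℝ)) ((psi a (2 * X + 1) : ℤ) : ℝ) L b) ^ 2
      < ((b : ℝ) ^ 3 * ((psi a (2 * X + 1) : ℤ) : ℝ) ^ 3 * (2 * (a : ℝ)) ^ 6) ^ 2 := by
    have h1 := RR_cast (2 * (a : ℤ)) (psi a (2 * X + 1)) L b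
    push_cast at h1
    rw [← h1]
    exact_mod_cast hlt
  have h1 := hN a (psi a (2 * X + 1)) L b (by exact_mod_cast hb) (by exact_mod_cast hba) hCR
    (by positivity) hltR
  have h2 := hE a b X 1 hb hX le_rfl (by simpa using ha)
  have h3 : |(L : ℝ) - NN a b X| < 1 := by
    have e1 : (L : ℝ) - NN a b X = (L - th a (psi a (2 * X + 1)) b)
        + (th a (psi a (2 * X + 1)) b - NN a b X) := by ring
    rw [e1]
    have e2 : (1 : ℝ) / (1000 * ((1 : ℕ) : ℝ)) < 1 / 2 := by norm_num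
    exact (abs_add_le _ _).trans_lt (by linarith)
  have h4 : |(L : ℤ) - NN a b X| < 1 := by
    have : (((|(L : ℤ) - NN a b X|) : ℤ) : ℝ) < ((1 : ℤ) : ℝ) := by
      push_cast
      exact h3
    exact_mod_cast this
  have h5 := Int.abs_lt_one_iff.mp h4
  linarith

/-- **Module EXTR**, completeness. -/
theorem specExtrC (hE : SpecErr) (hN : SpecNrmC) : SpecExtrC := by
  intro a b X M hb hX hM ha
  have h2X : 1 ≤ 2 ^ X := Nat.one_le_two_pow
  have hba : 1000 * b ≤ a := by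
    refine le_trans ?_ ha
    calc 1000 * b = 1000 * 1 * b * 1 := by ring
      _ ≤ 1000 * M * b * 2 ^ X := by gcongr
  have ha1 : 1 ≤ a := by omega
  have hC : (1 : ℤ) ≤ psi a (2 * X + 1) := psi_pos a (by exact_mod_cast ha1) (2 * X)
  have hCR : (1 : ℝ) ≤ ((psi a (2 * X + 1) : ℤ) : ℝ) := by exact_mod_cast hC
  have hNN : (0 : ℝ) ≤ ((NN a b X : ℤ) : ℝ) := by exact_mod_cast NN_nonneg a b X ha1
  have h2 := hE a b X M hb hX hM ha
  rw [abs_sub_comm] at h2
  have h1 := hN a (psi a (2 * X + 1)) (NN a b X) b M (by exact_mod_cast hb)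
    (by exact_mod_cast hba) hCR hNN (by exact_mod_cast hM) h2
  have h3 := RR_cast (2 * (a : ℤ)) (psi a (2 * X + 1)) (NN a b X) b
  push_cast at h3
  rw [← h3] at h1
  exact_mod_cast h1

end Pool.Agent.Lib.MP2027e1
end

section
/-!
# MP_2027e1_lc, project E8, module FINAL
-/
set_option autoImplicit false

namespace Pool.Agent.Lib.MP2027e1

namespace FinalM

open Nat.Partrec (Code)

/-- domains of partial recursive functions, uniformly -/
theorem re_eval : REPred (fun v : ℕ × ℕ => (Code.eval (Denumerable.ofNat Code (v.1 - 1)) v.2).Dom) := by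
  have h1 : Computable (fun v : ℕ × ℕ => Denumerable.ofNat Code (v.1 - 1)) :=
    (Computable.ofNat Code).comp
      ((Primrec.nat_sub.comp Primrec.fst (Primrec.const 1)).to_comp)
  have h : Partrec (fun v : ℕ × ℕ => Code.eval (Denumerable.ofNat Code (v.1 - 1)) v.2) :=
    Nat.Partrec.Code.eval_part.comp h1 Computable.snd
  exact h.dom_re

theorem exists_code_of_re {S : Set ℕ} (hS : REPred (fun x => x ∈ S)) :
    ∃ c : Code, ∀ x, x ∈ S ↔ (c.eval x).Dom := by
  unfold REPred at hS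
  obtain ⟨c, hc⟩ := Nat.Partrec.Code.exists_code.1 hS
  refine ⟨c, fun x => ?_⟩
  rw [hc]
  simp [Part.assert]

end FinalM

/-- Module FINAL. -/
theorem specFinal (hD : SpecDPRM) (h8 : SpecDim8) : SpecFinal := by
  obtain ⟨ν, P, hP⟩ := hD
    (fun i x => (Nat.Partrec.Code.eval (Denumerable.ofNat Nat.Partrec.Code (i - 1)) x).Dom)
    FinalM.re_eval
  obtain ⟨Q, hQ⟩ := h8 2 ν P
  refine ⟨Q, fun S hS => ?_⟩
  obtain ⟨c, hc⟩ := FinalM.exists_code_of_re hS
  refine ⟨Encodable.encode c + 1, Nat.succ_pos _, fun x => ?_⟩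
  rw [hc x, ← hQ, ← hP]
  simp

end Pool.Agent.Lib.MP2027e1
end

section
/-!
# KUM: Kummer's theorem for central binomial coefficients, TEST
-/
set_option autoImplicit false

namespace Pool.Agent.Lib.MP2027e1

namespace KumM

lemma pop_two_mul (X : ℕ) : pop (2 * X) = pop X := by
  unfold pop
  rcases Nat.eq_zero_or_pos X with h | h
  · subst h; rfl
  · rw [Nat.digits_def' (by norm_num) (by omega)]
    have h1 : 2 * X % 2 = 0 := by omega
    have h2 : 2 * X / 2 = X := by omega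
    rw [h1, h2]
    simp

lemma val (X : ℕ) : padicValNat 2 (Nat.centralBinom X) = pop X := by
  have : Fact (Nat.Prime 2) := ⟨Nat.prime_two⟩
  have h := sub_one_mul_padicValNat_choose_eq_sub_sum_digits' (p := 2) (k := X) (n := X)
  rw [Nat.centralBinom_eq_two_mul_choose]
  have e : X + X = 2 * X := by ring
  rw [e] at h
  have h2 := pop_two_mul X
  unfold pop at *
  rw [h2] at h
  simpa using h

end KumM

open KumM

theorem specKum : SpecKum := by
  intro X t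
  have : Fact (Nat.Prime 2) := ⟨Nat.prime_two⟩
  rw [padicValNat_dvd_iff_le (Nat.centralBinom_ne_zero X), val]

theorem specTest (hK : SpecKum) : SpecTest := by
  intro b X Y hb hY hpow
  have h4 : (4 : ℕ) ^ X = 2 ^ (2 * X) := by
    rw [show (4 : ℕ) = 2 ^ 2 by norm_num, ← pow_mul]
  unfold sk
  constructor
  · intro h
    have hb4 : b ∣ 4 ^ X := by
      have h1 : b ∣ b * Nat.centralBinom X + 4 ^ X := (Dvd.intro Y rfl).trans h
      exact (Nat.dvd_add_right (Dvd.intro _ rfl)).1 h1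
    rw [h4] at hb4
    obtain ⟨e, -, he⟩ := (Nat.dvd_prime_pow Nat.prime_two).1 hb4
    obtain ⟨t, ht, het⟩ := hpow e he
    refine ⟨e, t, he, ht, ?_⟩
    rw [← hK, ← ht]
    have h2 : b * Y ∣ 4 ^ X := by
      rw [he, ht, h4, ← pow_add]
      exact pow_dvd_pow 2 het
    have h3 : b * Y ∣ b * Nat.centralBinom X := (Nat.dvd_add_left h2).1 h
    exact Nat.dvd_of_mul_dvd_mul_left (by omega) h3
  · rintro ⟨e, t, he, ht, hle⟩
    obtain ⟨t', ht', het⟩ := hpow e he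
    have htt : t = t' := by
      rw [ht] at ht'
      exact Nat.pow_right_injective (le_refl 2) ht'
    subst htt
    refine Nat.dvd_add ?_ ?_
    · refine Nat.mul_dvd_mul_left b ?_
      rw [ht]
      exact (hK X t).2 hle
    · rw [he, ht, h4, ← pow_add]
      exact pow_dvd_pow 2 het

end Pool.Agent.Lib.MP2027e1
end
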