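import Pool.Agent.Lib.MP_2027e1_lc.Kum

/-!
# MP_2027e1_lc, project E8: module LOW (cheap exponential lower bound)
-/

set_option autoImplicit false

namespace Pool.Agent.Lib.MP2027e1

theorem specLowS : SpecLowS := by
  intro a' X' z hX ha hsq
  have a1 : 1 < a' := by omega
  have hc : (X' : ℤ) + z * ((a' : ℤ) - 1) = ((X' + z * (a' - 1) : ℕ) : ℤ) := by
    push_cast [Nat.cast_sub a1.le]
    ring
  rw [hc] at hsq ⊢
  obtain ⟨m, hm, -⟩ := PellM.exists_yn a1 hsq
  have hmod : m % (a' - 1) = X' := by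
    have h1 := Pell.yn_modEq_a_sub_one a1 m
    rw [← hm] at h1
    have h2 : (X' + z * (a' - 1)) ≡ X' [MOD (a' - 1)] := by
      have : z * (a' - 1) ≡ 0 [MOD (a' - 1)] := (Nat.modEq_zero_iff_dvd).2 (dvd_mul_left _ _)
      simpa only [add_zero] using (Nat.ModEq.refl X').add this
    have h3 : m ≡ X' [MOD (a' - 1)] := h1.symm.trans h2
    have h4 : m % (a' - 1) = X' % (a' - 1) := h3
    rw [h4, Nat.mod_eq_of_lt (by omega)]
  have hle : X' ≤ m := by
    rw [← hmod]
    exact Nat.mod_le _ _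
  have h5 : a' ^ (X' - 1) ≤ Pell.yn a1 X' := by
    have := PellM.pow_le_yn a1 (X' - 1)
    rwa [Nat.sub_add_cancel hX] at this
  have h6 : Pell.yn a1 X' ≤ Pell.yn a1 m := (Pell.strictMono_y a1).monotone hle
  rw [hm]
  exact_mod_cast h5.trans h6

theorem specLowC : SpecLowC := by
  intro a' X' ha
  have a1 : 1 < a' := ha
  have hge := Pell.yn_ge_n a1 X'
  have hmod := Pell.yn_modEq_a_sub_one a1 X'
  have hd : a' - 1 ∣ Pell.yn a1 X' - X' := (Nat.modEq_iff_dvd' hge).1 hmod.symm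
  obtain ⟨z, hz⟩ := hd
  refine ⟨z, ?_, ?_⟩
  · rw [PellM.psi_eq a1]
    have : Pell.yn a1 X' = X' + z * (a' - 1) := by
      rw [mul_comm z, ← hz]
      omega
    rw [this]
    push_cast [Nat.cast_sub a1.le]
    ring
  · rw [PellM.psi_eq a1]
    refine ⟨(Pell.xn a1 X' : ℤ), ?_⟩
    rw [A1, ← PellM.pell_int a1 X']
    ring

end Pool.Agent.Lib.MP2027e1
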