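import Pool.Agent.Lib.MP_2027e1_lc.Defs

/-!
# MP_2027e1_lc, project E8: exact statements of the modules

The proof of every module is in /team-store/MP_2027e1_lc_EIGHT.md.
-/

set_option autoImplicit false

namespace Pool.Agent.Lib.MP2027e1

open Finset

/-! ## Part I: Pell -/

/-- EXS (soundness of the exactness test). Note `C ≥ B ≥ 3`. -/
def SpecExS : Prop :=
  ∀ a B C i j : ℕ, 2 ≤ a → 3 ≤ B → B ≤ C → IsSquare (A2 (a : ℤ) B C i j) → (C : ℤ) = psi a B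

/-- EXC (completeness of the exactness test). -/
def SpecExC : Prop :=
  ∀ a B : ℕ, 2 ≤ a → 3 ≤ B → (B : ℤ) ≤ psi a B ∧
    ∃ i j : ℕ, IsSquare (A2 (a : ℤ) B (psi a B) i j)

/-- LOWS: cheap exponential lower bound. -/
def SpecLowS : Prop :=
  ∀ a' X' z : ℕ, 1 ≤ X' → X' + 1 < a' →
    IsSquare (A1 (a' : ℤ) (X' + z * ((a' : ℤ) - 1))) → (a' : ℤ) ^ (X' - 1) ≤ X' + z * ((a' : ℤ) - 1)

/-- LOWC. -/
def SpecLowC : Prop :=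
  ∀ a' X' : ℕ, 2 ≤ a' → ∃ z : ℕ, psi a' X' = X' + z * ((a' : ℤ) - 1) ∧
    IsSquare (A1 (a' : ℤ) (psi a' X'))

/-! ## Part II: extraction -/

/-- SER: `∑ s_k u^k = b/√(1-4u) + 1/(1-4u)`. -/
def SpecSer : Prop :=
  ∀ (b : ℕ) (u : ℝ), 0 ≤ u → u < 1 / 4 →
    HasSum (fun k : ℕ => (sk b k : ℝ) * u ^ k) (b / Real.sqrt (1 - 4 * u) + 1 / (1 - 4 * u))

/-- ERR: `θ₀` is very close to the integer `N`. -/
def SpecErr : Prop :=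
  ∀ a b X M : ℕ, 2 ≤ b → 1 ≤ X → 1 ≤ M → 1000 * M * b * 2 ^ X ≤ a →
    |th a (psi a (2 * X + 1)) b - NN a b X| ≤ 1 / (1000 * M)

/-- NORM: `R` is the norm `F(u) F(1/u)`. -/
def SpecNorm : Prop :=
  ∀ a C L b : ℝ, 2 ≤ a →
    RR (2 * a) C L b =
      ((L * (1 - 4 * uu a) - C * (1 + uu a)) ^ 2 - b ^ 2 * C ^ 2 * (1 + uu a) ^ 2 * (1 - 4 * uu a))
      * ((L * (1 - 4 * (uu a)⁻¹) - C * (1 + (uu a)⁻¹)) ^ 2
          - b ^ 2 * C ^ 2 * (1 + (uu a)⁻¹) ^ 2 * (1 - 4 * (uu a)⁻¹))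

/-- NRMS: if `R` is small then `L` is near `θ₀`. -/
def SpecNrmS : Prop :=
  ∀ a C L b : ℝ, 2 ≤ b → 1000 * b ≤ a → 1 ≤ C → 0 ≤ L →
    256 * (RR (2 * a) C L b) ^ 2 < (b ^ 3 * C ^ 3 * (2 * a) ^ 6) ^ 2 → |L - th a C b| < 1 / 2

/-- NRMC: if `L` is very near `θ₀` then `R` is small. -/
def SpecNrmC : Prop :=
  ∀ a C L b M : ℝ, 2 ≤ b → 1000 * b ≤ a → 1 ≤ C → 0 ≤ L → 1 ≤ M → |L - th a C b| ≤ 1 / (1000 * M) →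
    M * (RR (2 * a) C L b) ^ 2 < (b ^ 3 * C ^ 3 * (2 * a) ^ 6) ^ 2

/-- EXTR (soundness). -/
def SpecExtrS : Prop :=
  ∀ a b X L : ℕ, 2 ≤ b → 1 ≤ X → 1000 * b * 2 ^ X ≤ a →
    256 * (RR (2 * (a : ℤ)) (psi a (2 * X + 1)) L b) ^ 2
      < ((b : ℤ) ^ 3 * (psi a (2 * X + 1)) ^ 3 * (2 * (a : ℤ)) ^ 6) ^ 2 → (L : ℤ) = NN a b X

/-- EXTR (completeness). -/
def SpecExtrC : Prop :=
  ∀ a b X M : ℕ, 2 ≤ b → 1 ≤ X → 1 ≤ M → 1000 * M * b * 2 ^ X ≤ a →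
    (M : ℤ) * (RR (2 * (a : ℤ)) (psi a (2 * X + 1)) (NN a b X) b) ^ 2
      < ((b : ℤ) ^ 3 * (psi a (2 * X + 1)) ^ 3 * (2 * (a : ℤ)) ^ 6) ^ 2

/-! ## Part III: relation combining, Kummer -/

/-- RC. -/
def SpecRC : Prop :=
  ∀ A B S : ℤ, 1 ≤ A → 1 ≤ B →
    ((∃ n : ℕ, MM A B S n = 0) ↔ IsSquare A ∧ IsSquare B ∧ 0 < S)

/-- KUM: Kummer's theorem for central binomial coefficients. -/
def SpecKum : Prop :=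
  ∀ X t : ℕ, 2 ^ t ∣ Nat.centralBinom X ↔ t ≤ pop X

/-- TEST: the divisibility `bY ∣ s_X` tests at the same time that `b` is a power of two. -/
def SpecTest : Prop :=
  ∀ b X Y : ℕ, 2 ≤ b → 1 ≤ Y → (∀ e, b = 2 ^ e → ∃ t, Y = 2 ^ t ∧ e + t ≤ 2 * X) →
    (b * Y ∣ sk b X ↔ ∃ e t, b = 2 ^ e ∧ Y = 2 ^ t ∧ t ≤ pop X)

/-! ## Part IV: coding a Diophantine set by two numbers `b`, `g` -/

/-- POP1. -/
def SpecPop1 : Prop := ∀ a b k : ℕ, a < 2 ^ k → pop (a + b * 2 ^ k) = pop a + pop b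

/-- POP2. -/
def SpecPop2 : Prop :=
  ∀ a b : ℕ, pop (a + b) ≤ pop a + pop b ∧ (pop (a + b) = pop a + pop b ↔ a &&& b = 0)

/-- POP3. -/
def SpecPop3 : Prop := ∀ a k : ℕ, a < 2 ^ k → pop (2 ^ k - 1 - a) = k - pop a ∧ pop a ≤ k

/-- MASK: which `g` satisfy `g & (𝔅^m - 1 - M) = 0`, `M = ∑ (2^e - 1) 𝔅^{w s}`, `𝔅 = 2^E`. -/
def SpecMask : Prop :=
  ∀ (ν e E m : ℕ) (w : Fin ν → ℕ), e ≤ E → 1 ≤ E → Function.Injective w → (∀ s, w s < m) →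
    (∑ s, (2 ^ e - 1) * (2 ^ E) ^ w s ≤ (2 ^ E) ^ m - 1) ∧
    pop ((2 ^ E) ^ m - 1 - ∑ s, (2 ^ e - 1) * (2 ^ E) ^ w s) = m * E - ν * e ∧ ν * e ≤ m * E ∧
    ∀ g : ℕ, g < (2 ^ E) ^ m →
      (g &&& ((2 ^ E) ^ m - 1 - ∑ s, (2 ^ e - 1) * (2 ^ E) ^ w s) = 0 ↔
        ∃ z : Fin ν → ℕ, (∀ s, z s < 2 ^ e) ∧ g = ∑ s, z s * (2 ^ E) ^ w s)

/-- DIG: a digit of a number written in base `𝔅 = 2^E`. -/
def SpecDig : Prop :=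
  ∀ (E J Ω : ℕ) (d : ℕ → ℕ), 1 ≤ E → Ω ≤ J → (∀ j, d j < 2 ^ E) →
    ((∑ j ∈ Finset.range (J + 1), d j * (2 ^ E) ^ j) &&& ((2 ^ (E - 1) - 1) * (2 ^ E) ^ Ω) = 0 ↔
      2 ^ (E - 1) ∣ d Ω)

/-- MULT: the value of `P` as a coefficient of `c(T)^δ D(T)`, `c(T) = 1 + ∑ Y_s T^{w s}`. -/
def SpecMult : Prop :=
  ∀ (p ν : ℕ) (P : MvPolynomial (Fin p ⊕ Fin ν) ℤ),
    ∃ (δ Ω J m D1 c0 : ℕ) (w : Fin p ⊕ Fin ν → ℕ) (D : Polynomial ℤ),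
      1 ≤ δ ∧ 1 ≤ c0 ∧ 1 ≤ D1 ∧ Ω ≤ J ∧ Function.Injective w ∧ (∀ s, w s < m) ∧
      (∀ β : ℤ, (D1 : ℤ) < β → 0 < D.eval β) ∧
      ∀ Y : Fin p ⊕ Fin ν → ℕ,
        (((1 + ∑ s, Polynomial.C (Y s : ℤ) * Polynomial.X ^ w s) ^ δ * D).coeff Ω = c0 * ev P Y) ∧
        (((1 + ∑ s, Polynomial.C (Y s : ℤ) * Polynomial.X ^ w s) ^ δ * D).natDegree ≤ J) ∧
        ∀ j, |((1 + ∑ s, Polynomial.C (Y s : ℤ) * Polynomial.X ^ w s) ^ δ * D).coeff j|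
          ≤ D1 * (1 + ∑ s, (Y s : ℤ)) ^ δ

/-- CODE: a Diophantine set is coded by two numbers `b = 2^e`, `g` and one binary digit sum. -/
def SpecCode : Prop :=
  ∀ (p ν : ℕ) (P : MvPolynomial (Fin p ⊕ Fin ν) ℤ),
    ∃ PX PY PC : MvPolynomial (Fin p ⊕ Fin 2) ℤ,
      (∀ (x : Fin p → ℕ) (b g : ℕ), 2 + ∑ i, x i ≤ b →
        1 ≤ ev PX (pt x b g) ∧ 1 ≤ ev PY (pt x b g) ∧ 1 ≤ ev PC (pt x b g)) ∧
      (∀ (x : Fin p → ℕ) (e g : ℕ), 2 + ∑ i, x i ≤ 2 ^ e →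
        ∃ t : ℕ, ev PY (pt x (2 ^ e) g) = 2 ^ t ∧ ((e + t : ℕ) : ℤ) ≤ 2 * ev PX (pt x (2 ^ e) g)) ∧
      ∀ x : Fin p → ℕ, (∃ z : Fin ν → ℕ, ev P (Sum.elim x z) = 0) ↔
        ∃ e g t : ℕ, 2 + ∑ i, x i ≤ 2 ^ e ∧ (g : ℤ) < ev PC (pt x (2 ^ e) g) ∧
          ev PY (pt x (2 ^ e) g) = 2 ^ t ∧ t ≤ pop (ev PX (pt x (2 ^ e) g)).toNat

/-! ## Part V: assembly -/

/-- ASM: every Diophantine set has dimension at most 8. -/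
def SpecDim8 : Prop :=
  ∀ (p ν : ℕ) (P : MvPolynomial (Fin p ⊕ Fin ν) ℤ),
    ∃ Q : MvPolynomial (Fin p ⊕ Fin 8) ℤ, ∀ x : Fin p → ℕ,
      (∃ z : Fin ν → ℕ, ev P (Sum.elim x z) = 0) ↔ ∃ y : Fin 8 → ℕ, ev Q (Sum.elim x y) = 0

/-! ## Part VI: DPRM (r.e. ⟹ Diophantine), on top of Mathlib's `Dioph` -/

/-- CONV: finitely many dummy variables, `MvPolynomial`. -/
def SpecConv : Prop :=
  ∀ (α : Type) (S : Set (α → ℕ)), Dioph S →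
    ∃ (m : ℕ) (P : MvPolynomial (α ⊕ Fin m) ℤ), ∀ v : α → ℕ, v ∈ S ↔
      ∃ t : Fin m → ℕ, ev P (Sum.elim v t) = 0

/-- CONV2: the converse. -/
def SpecConv2 : Prop :=
  ∀ (α : Type) (S : Set (α → ℕ)) (m : ℕ) (P : MvPolynomial (α ⊕ Fin m) ℤ),
    (∀ v : α → ℕ, v ∈ S ↔ ∃ t : Fin m → ℕ, ev P (Sum.elim v t) = 0) → Dioph S

/-- BIN. -/
def SpecBin : Prop :=
  ∀ (α : Type) (f g : (α → ℕ) → ℕ), Dioph.DiophFn f → Dioph.DiophFn g →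
    Dioph.DiophFn fun v => Nat.choose (f v) (g v)

/-- FAC. -/
def SpecFac : Prop :=
  ∀ (α : Type) (f : (α → ℕ) → ℕ), Dioph.DiophFn f → Dioph.DiophFn fun v => Nat.factorial (f v)

/-- PRODD: `∏_{k<y} (1 + (k+1) t)`. -/
def SpecProdd : Prop :=
  ∀ (α : Type) (f g : (α → ℕ) → ℕ), Dioph.DiophFn f → Dioph.DiophFn g →
    Dioph.DiophFn fun v => ∏ k ∈ Finset.range (f v), (1 + (k + 1) * g v)

/-- BQ: bounded universal quantifier (`v none` is the bound, then the quantified variable). -/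
def SpecBQ : Prop :=
  ∀ (α : Type) [Finite α] (S : Set (Option α → ℕ)), Dioph S →
    Dioph {v : Option α → ℕ | ∀ k < v none, (Option.elim' k (v ∘ some) : Option α → ℕ) ∈ S}

/-- PRIM: graphs of primitive recursive functions are Diophantine. -/
def SpecPrim : Prop :=
  ∀ (n : ℕ) (f : List.Vector ℕ n → ℕ), Nat.Primrec' f →
    Dioph {v : Option (Fin n) → ℕ | f (List.Vector.ofFn fun i => v (some i)) = v none}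

/-- PART: graphs of partial recursive functions are Diophantine. -/
def SpecPart : Prop :=
  ∀ (n : ℕ) (f : List.Vector ℕ n →. ℕ), Nat.Partrec' f →
    Dioph {v : Option (Fin n) → ℕ | v none ∈ f (List.Vector.ofFn fun i => v (some i))}

/-- DPRM for binary relations. -/
def SpecDPRM : Prop :=
  ∀ R : ℕ → ℕ → Prop, REPred (fun v : ℕ × ℕ => R v.1 v.2) →
    ∃ (ν : ℕ) (P : MvPolynomial (Fin 2 ⊕ Fin ν) ℤ), ∀ i x : ℕ,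
      R i x ↔ ∃ z : Fin ν → ℕ, ev P (Sum.elim ![i, x] z) = 0

/-! ## Part VII: the final statement -/

/-- FINAL: a universal polynomial with eight unknowns. -/
def SpecFinal : Prop :=
  ∃ P : MvPolynomial (Fin 2 ⊕ Fin 8) ℤ, ∀ S : Set ℕ, REPred (fun x => x ∈ S) →
    ∃ i : ℕ, 0 < i ∧ ∀ x : ℕ, x ∈ S ↔ ∃ y : Fin 8 → ℕ, ev P (Sum.elim ![i, x] y) = 0

end Pool.Agent.Lib.MP2027e1
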