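import Mathlib
import Pool.Agent.Lib.MP_2027e1_lc.Spec
import Pool.Agent.Lib.MP_2027e1_lc.Kum

/-!
# Module NRM of the project E8
-/

set_option autoImplicit false

namespace Pool.Agent.Lib.MP2027e1.NrmM

open NormM

/-- the standing estimates for `u`, `t = 1/u`, `w = √(1-4u)` -/
structure Est (a u t w : ℝ) : Prop where
  u0 : 0 < u
  u1 : u ≤ 1 / 1000000
  tu : u⁻¹ = t
  t0 : 1000000 ≤ t
  tle : t ≤ (2 * a) ^ 2
  tge : 9999 / 10000 * (2 * a) ^ 2 ≤ t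
  w0 : 999 / 1000 ≤ w
  w1 : w ≤ 1
  ww : w ^ 2 = 1 - 4 * u

lemma est {a : ℝ} (ha : 2000 ≤ a) :
    Est a (uu a) (al a ^ 2) (Real.sqrt (1 - 4 * uu a)) := by
  have ha1 : 1 ≤ a := by linarith
  have hu0 := uu_pos ha1
  have hal := al_pos ha1
  have hsum := uu_add_inv ha1
  rw [uu_inv] at hsum
  have hal2 : (2000 : ℝ) ^ 2 ≤ al a ^ 2 := by
    have : 2000 ≤ al a := by
      unfold al
      have := Real.sqrt_nonneg (a ^ 2 - 1)
      linarith
    exact pow_le_pow_left₀ (by norm_num) this 2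
  have hu1 : uu a ≤ 1 / 1000000 := by
    unfold uu
    rw [one_div]
    exact inv_anti₀ (by norm_num) (by linarith)
  have ha2 : (2000 : ℝ) ^ 2 ≤ a ^ 2 := pow_le_pow_left₀ (by norm_num) ha 2
  have hs : 0 ≤ 1 - 4 * uu a := by linarith
  refine ⟨hu0, hu1, uu_inv a, by linarith, by linarith, by linarith, ?_, ?_, Real.sq_sqrt hs⟩
  · refine Real.le_sqrt_of_sq_le ?_
    norm_num
    linarith
  · exact Real.sqrt_le_iff.mpr ⟨zero_le_one, by linarith⟩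

/-- `θ₋` -/
noncomputable def thm (u w C b : ℝ) : ℝ := C * (1 + u) * (1 / w ^ 2 - b / w)

/-- `θ` -/
noncomputable def thp (u w C b : ℝ) : ℝ := C * (1 + u) * (b / w + 1 / w ^ 2)

lemma factor (u w C L b : ℝ) (hw : w ≠ 0) (hww : w ^ 2 = 1 - 4 * u) :
    (L * (1 - 4 * u) - C * (1 + u)) ^ 2 - b ^ 2 * C ^ 2 * (1 + u) ^ 2 * (1 - 4 * u)
      = (w ^ 2) ^ 2 * ((L - thp u w C b) * (L - thm u w C b)) := by
  rw [← hww]
  unfold thp thm
  field_simp
  ring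

lemma th_eq (a C b : ℝ) (h : 0 ≤ 1 - 4 * uu a) :
    th a C b = thp (uu a) (Real.sqrt (1 - 4 * uu a)) C b := by
  unfold th thp
  rw [Real.sq_sqrt h]

lemma bounds {a u t w : ℝ} (h : Est a u t w) {C b : ℝ} (hC : 0 ≤ C) (hb : 2 ≤ b) :
    thm u w C b ≤ -(49 / 100 * (b * C)) ∧ -(101 / 100 * (b * C)) ≤ thm u w C b ∧
      thp u w C b ≤ 152 / 100 * (b * C) := by
  obtain ⟨u0, u1, -, -, -, -, w0, w1, ww⟩ := h
  have hwpos : 0 < w := by linarith
  have hw2 : 998 / 1000 ≤ w ^ 2 := by nlinarith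
  have hw2pos : 0 < w ^ 2 := by positivity
  have h1 : b ≤ b / w := by
    rw [le_div_iff₀ hwpos]
    nlinarith
  have h2 : b / w ≤ 1002 / 1000 * b := by
    rw [div_le_iff₀ hwpos]
    nlinarith
  have h3 : 1 / w ^ 2 ≤ 501 / 1000 * 2 := by
    rw [div_le_iff₀ hw2pos]
    nlinarith
  have h4 : 0 < 1 / w ^ 2 := by positivity
  have h5 : 1 / w ^ 2 ≤ 503 / 1000 * b := by linarith
  unfold thm thp
  refine ⟨?_, ?_, ?_⟩
  · have e1 : 1 / w ^ 2 - b / w ≤ -(49 / 100 * b) := by linarith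
    have e2 : C * (1 + u) * (1 / w ^ 2 - b / w) ≤ C * (1 + u) * (-(49 / 100 * b)) :=
      mul_le_mul_of_nonneg_left e1 (by positivity)
    have e3 : 0 ≤ C * u * b := by positivity
    nlinarith
  · have e1 : -(1002 / 1000 * b) ≤ 1 / w ^ 2 - b / w := by linarith
    have e2 : C * (1 + u) * (-(1002 / 1000 * b)) ≤ C * (1 + u) * (1 / w ^ 2 - b / w) :=
      mul_le_mul_of_nonneg_left e1 (by positivity)
    have e3 : C * b * u ≤ C * b * (1 / 1000000) := mul_le_mul_of_nonneg_left u1 (by positivity)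
    nlinarith
  · have e1 : b / w + 1 / w ^ 2 ≤ 1505 / 1000 * b := by linarith
    have e2 : C * (1 + u) * (b / w + 1 / w ^ 2) ≤ C * (1 + u) * (1505 / 1000 * b) :=
      mul_le_mul_of_nonneg_left e1 (by positivity)
    have e3 : C * b * u ≤ C * b * (1 / 1000000) := mul_le_mul_of_nonneg_left u1 (by positivity)
    nlinarith

/-- the conjugate factor -/
noncomputable def GG' (t C L b : ℝ) : ℝ :=
  (L * (1 - 4 * t) - C * (1 + t)) ^ 2 - b ^ 2 * C ^ 2 * (1 + t) ^ 2 * (1 - 4 * t)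

lemma G_lower {a u t w : ℝ} (h : Est a u t w) (C L b : ℝ) :
    39 / 10 * (b ^ 2 * C ^ 2 * (2 * a) ^ 6) ≤ GG' t C L b := by
  obtain ⟨-, -, -, t0, -, tge, -, -, -⟩ := h
  unfold GG'
  have h1 : 399 / 100 * t ^ 3 ≤ (1 + t) ^ 2 * (4 * t - 1) := by
    have e1 : t ^ 2 ≤ (1 + t) ^ 2 := by nlinarith
    have e2 : 399 / 100 * t ≤ 4 * t - 1 := by linarith
    calc 399 / 100 * t ^ 3 = t ^ 2 * (399 / 100 * t) := by ring
      _ ≤ (1 + t) ^ 2 * (4 * t - 1) := mul_le_mul e1 e2 (by positivity) (by positivity)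
  have h2 : (9999 / 10000) ^ 3 * (2 * a) ^ 6 ≤ t ^ 3 := by
    calc (9999 / 10000) ^ 3 * (2 * a) ^ 6 = (9999 / 10000 * (2 * a) ^ 2) ^ 3 := by ring
      _ ≤ t ^ 3 := pow_le_pow_left₀ (by positivity) tge 3
  have h3 : 39 / 10 * (2 * a) ^ 6 ≤ (1 + t) ^ 2 * (4 * t - 1) := by
    have : 0 ≤ (2 * a) ^ 6 := by positivity
    nlinarith
  have h4 : b ^ 2 * C ^ 2 * (39 / 10 * (2 * a) ^ 6) ≤ b ^ 2 * C ^ 2 * ((1 + t) ^ 2 * (4 * t - 1)) :=
    mul_le_mul_of_nonneg_left h3 (by positivity)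
  have h5 := sq_nonneg (L * (1 - 4 * t) - C * (1 + t))
  nlinarith

lemma G_upper {a u t w : ℝ} (h : Est a u t w) {C L b : ℝ} (hC : 0 ≤ C) (hb : 2 ≤ b) (hL : 0 ≤ L)
    (hL2 : L ≤ 153 / 100 * (b * C)) :
    GG' t C L b ≤ 42 / 10 * (b ^ 2 * C ^ 2 * (2 * a) ^ 6) := by
  obtain ⟨-, -, -, t0, tle, -, -, -, -⟩ := h
  unfold GG'
  have ht : 0 ≤ t := by linarith
  have h1 : L * (4 * t - 1) + C * (1 + t) ≤ 7 * (b * C) * t := by
    have e1 : L * (4 * t - 1) ≤ 153 / 100 * (b * C) * (4 * t) :=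
      mul_le_mul hL2 (by linarith) (by linarith) (by positivity)
    have e2 : C * (1 + t) ≤ C * (1001 / 1000 * t) := mul_le_mul_of_nonneg_left (by linarith) hC
    have e3 : 0 ≤ C * t := by positivity
    have e4 : C * t * 2 ≤ C * t * b := mul_le_mul_of_nonneg_left hb e3
    nlinarith
  have h0 : 0 ≤ L * (4 * t - 1) + C * (1 + t) := by
    have e1 : 0 ≤ L * (4 * t - 1) := mul_nonneg hL (by linarith)
    positivity
  have h2 : (L * (1 - 4 * t) - C * (1 + t)) ^ 2 ≤ 49 * (b ^ 2 * C ^ 2) * t ^ 2 := by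
    calc (L * (1 - 4 * t) - C * (1 + t)) ^ 2 = (L * (4 * t - 1) + C * (1 + t)) ^ 2 := by ring
      _ ≤ (7 * (b * C) * t) ^ 2 := pow_le_pow_left₀ h0 h1 2
      _ = 49 * (b ^ 2 * C ^ 2) * t ^ 2 := by ring
  have h3 : 49 * (b ^ 2 * C ^ 2) * t ^ 2 ≤ 1 / 100 * (b ^ 2 * C ^ 2) * t ^ 3 := by
    have e1 : 49 ≤ 1 / 100 * t := by linarith
    calc 49 * (b ^ 2 * C ^ 2) * t ^ 2 = ((b ^ 2 * C ^ 2) * t ^ 2) * 49 := by ring
      _ ≤ ((b ^ 2 * C ^ 2) * t ^ 2) * (1 / 100 * t) := mul_le_mul_of_nonneg_left e1 (by positivity)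
      _ = 1 / 100 * (b ^ 2 * C ^ 2) * t ^ 3 := by ring
  have h4 : (1 + t) ^ 2 * (4 * t - 1) ≤ 41 / 10 * t ^ 3 := by
    have e1 : (1 + t) ^ 2 ≤ (1001 / 1000 * t) ^ 2 := pow_le_pow_left₀ (by linarith) (by linarith) 2
    calc (1 + t) ^ 2 * (4 * t - 1) ≤ (1001 / 1000 * t) ^ 2 * (4 * t) :=
          mul_le_mul e1 (by linarith) (by linarith) (by positivity)
      _ ≤ 41 / 10 * t ^ 3 := by
          have : 0 ≤ t ^ 3 := by positivity
          nlinarith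
  have h5 : b ^ 2 * C ^ 2 * ((1 + t) ^ 2 * (4 * t - 1)) ≤ b ^ 2 * C ^ 2 * (41 / 10 * t ^ 3) :=
    mul_le_mul_of_nonneg_left h4 (by positivity)
  have h6 : t ^ 3 ≤ (2 * a) ^ 6 := by
    calc t ^ 3 ≤ ((2 * a) ^ 2) ^ 3 := pow_le_pow_left₀ ht tle 3
      _ = (2 * a) ^ 6 := by ring
  have h7 : b ^ 2 * C ^ 2 * t ^ 3 ≤ b ^ 2 * C ^ 2 * (2 * a) ^ 6 :=
    mul_le_mul_of_nonneg_left h6 (by positivity)
  have h8 : 0 ≤ b ^ 2 * C ^ 2 * t ^ 3 := by positivity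
  nlinarith

lemma RR_eq {a : ℝ} (ha : 2000 ≤ a) (C L b : ℝ) :
    RR (2 * a) C L b = ((Real.sqrt (1 - 4 * uu a)) ^ 2) ^ 2 *
      ((L - th a C b) * (L - thm (uu a) (Real.sqrt (1 - 4 * uu a)) C b)) * GG' (al a ^ 2) C L b := by
  have h := est ha
  have hw : Real.sqrt (1 - 4 * uu a) ≠ 0 := by
    have := h.w0
    intro h0
    rw [h0] at this
    norm_num at this
  rw [norm_aux (uu a) (2 * a) C L b h.u0.ne' (uu_add_inv (by linarith)).symm, uu_inv]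
  rw [factor (uu a) (Real.sqrt (1 - 4 * uu a)) C L b hw h.ww]
  have h1 : 0 ≤ 1 - 4 * uu a := by
    have := h.u1
    linarith
  rw [th_eq a C b h1]
  rfl

end Pool.Agent.Lib.MP2027e1.NrmM

namespace Pool.Agent.Lib.MP2027e1

open NrmM

/-- **Module NRM**, soundness. -/
theorem specNrmS : SpecNrmS := by
  intro a C L b hb ha hC hL hlt
  have ha' : 2000 ≤ a := by linarith
  by_contra hcon
  push Not at hcon
  have h := est ha'
  have hbC : 0 < b * C := by positivity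
  have hB := bounds h (show 0 ≤ C by linarith) hb
  have hG := G_lower h C L b
  rw [RR_eq ha'] at hlt
  set w := Real.sqrt (1 - 4 * uu a) with hw
  set G := GG' (al a ^ 2) C L b with hGdef
  set T := thm (uu a) w C b with hT
  have hw4 : 96 / 100 ≤ (w ^ 2) ^ 2 := by
    have e1 : 98 / 100 ≤ w ^ 2 := by
      have := h.w0
      nlinarith
    nlinarith
  have hK : 0 < b ^ 3 * C ^ 3 * (2 * a) ^ 6 := by positivity
  set K := b ^ 3 * C ^ 3 * (2 * a) ^ 6 with hKdef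
  have h1 : 49 / 100 * (b * C) ≤ L - T := by linarith [hB.1]
  have h2 : 1 / 2 * (49 / 100 * (b * C)) ≤ |L - th a C b| * (L - T) :=
    mul_le_mul hcon h1 (by positivity) (abs_nonneg _)
  have h3 : 96 / 100 * (1 / 2 * (49 / 100 * (b * C))) ≤ (w ^ 2) ^ 2 * (|L - th a C b| * (L - T)) :=
    mul_le_mul hw4 h2 (by positivity) (by positivity)
  have h4 : (96 / 100 * (1 / 2 * (49 / 100 * (b * C)))) * (39 / 10 * (b ^ 2 * C ^ 2 * (2 * a) ^ 6))
      ≤ ((w ^ 2) ^ 2 * (|L - th a C b| * (L - T))) * G :=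
    mul_le_mul h3 hG (by positivity) (le_trans (by positivity) h3)
  have h5 : (96 / 100 * (1 / 2 * (49 / 100 * (b * C)))) * (39 / 10 * (b ^ 2 * C ^ 2 * (2 * a) ^ 6))
      = (96 / 100 * (1 / 2 * (49 / 100)) * (39 / 10)) * K := by
    rw [hKdef]; ring
  rw [h5] at h4
  have h6 : K / 2 ≤ ((w ^ 2) ^ 2 * (|L - th a C b| * (L - T))) * G := by
    refine le_trans ?_ h4
    nlinarith
  have h7 : ((w ^ 2) ^ 2 * ((L - th a C b) * (L - T)) * G) ^ 2
      = (((w ^ 2) ^ 2 * (|L - th a C b| * (L - T))) * G) ^ 2 := by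
    have : (L - th a C b) ^ 2 = |L - th a C b| ^ 2 := (sq_abs _).symm
    calc ((w ^ 2) ^ 2 * ((L - th a C b) * (L - T)) * G) ^ 2
        = ((w ^ 2) ^ 2) ^ 2 * (L - th a C b) ^ 2 * (L - T) ^ 2 * G ^ 2 := by ring
      _ = ((w ^ 2) ^ 2) ^ 2 * |L - th a C b| ^ 2 * (L - T) ^ 2 * G ^ 2 := by rw [this]
      _ = _ := by ring
  rw [h7] at hlt
  have h8 : (K / 2) ^ 2 ≤ (((w ^ 2) ^ 2 * (|L - th a C b| * (L - T))) * G) ^ 2 :=
    pow_le_pow_left₀ (by positivity) h6 2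
  nlinarith

/-- **Module NRM**, completeness. -/
theorem specNrmC : SpecNrmC := by
  intro a C L b M hb ha hC hL hM hle
  have ha' : 2000 ≤ a := by linarith
  have h := est ha'
  have hbC : 0 < b * C := by positivity
  have hbC2 : 2 ≤ b * C := by nlinarith
  have hB := bounds h (show 0 ≤ C by linarith) hb
  have hs : 0 ≤ 1 - 4 * uu a := by
    have := h.u1
    linarith
  have hM1 : 1 / (1000 * M) ≤ 1 / 1000 := by
    rw [div_le_div_iff₀ (by positivity) (by norm_num)]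
    linarith
  have hth : th a C b ≤ 152 / 100 * (b * C) := by
    rw [th_eq a C b hs]
    exact hB.2.2
  have hL2 : L ≤ 153 / 100 * (b * C) := by
    have := (abs_le.mp hle).2
    linarith
  have hG := G_upper h (show 0 ≤ C by linarith) hb hL hL2
  have hG0 := G_lower h C L b
  rw [RR_eq ha']
  set w := Real.sqrt (1 - 4 * uu a) with hw
  set G := GG' (al a ^ 2) C L b with hGdef
  set T := thm (uu a) w C b with hT
  have hGnn : 0 ≤ G := le_trans (by positivity) hG0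
  have hw4 : (w ^ 2) ^ 2 ≤ 1 := by
    have e1 := h.w1
    have e2 := h.w0
    have e3 : w ^ 2 ≤ 1 := by nlinarith
    exact pow_le_one₀ (by positivity) e3
  have hK : 0 < b ^ 3 * C ^ 3 * (2 * a) ^ 6 := by positivity
  set K := b ^ 3 * C ^ 3 * (2 * a) ^ 6 with hKdef
  have h0 : 0 ≤ L - T := by linarith [hB.1]
  have h1 : L - T ≤ 3 * (b * C) := by linarith [hB.2.1]
  have h2 : |L - th a C b| * (L - T) ≤ 1 / (1000 * M) * (3 * (b * C)) :=
    mul_le_mul hle h1 h0 (by positivity)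
  have h3 : (w ^ 2) ^ 2 * (|L - th a C b| * (L - T)) ≤ 1 * (1 / (1000 * M) * (3 * (b * C))) :=
    mul_le_mul hw4 h2 (by positivity) (by norm_num)
  have h4 : ((w ^ 2) ^ 2 * (|L - th a C b| * (L - T))) * G
      ≤ (1 * (1 / (1000 * M) * (3 * (b * C)))) * (42 / 10 * (b ^ 2 * C ^ 2 * (2 * a) ^ 6)) :=
    mul_le_mul h3 hG hGnn (by positivity)
  have h5 : (1 * (1 / (1000 * M) * (3 * (b * C)))) * (42 / 10 * (b ^ 2 * C ^ 2 * (2 * a) ^ 6))
      = 126 / 10000 * (K / M) := by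
    rw [hKdef]
    field_simp
    ring
  rw [h5] at h4
  have h7 : ((w ^ 2) ^ 2 * ((L - th a C b) * (L - T)) * G) ^ 2
      = (((w ^ 2) ^ 2 * (|L - th a C b| * (L - T))) * G) ^ 2 := by
    have : (L - th a C b) ^ 2 = |L - th a C b| ^ 2 := (sq_abs _).symm
    calc ((w ^ 2) ^ 2 * ((L - th a C b) * (L - T)) * G) ^ 2
        = ((w ^ 2) ^ 2) ^ 2 * (L - th a C b) ^ 2 * (L - T) ^ 2 * G ^ 2 := by ring
      _ = ((w ^ 2) ^ 2) ^ 2 * |L - th a C b| ^ 2 * (L - T) ^ 2 * G ^ 2 := by rw [this]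
      _ = _ := by ring
  rw [h7]
  have hKM : 0 < K / M := by positivity
  have h8 : (((w ^ 2) ^ 2 * (|L - th a C b| * (L - T))) * G) ^ 2 ≤ (126 / 10000 * (K / M)) ^ 2 :=
    pow_le_pow_left₀ (by positivity) h4 2
  have h9 : M * (126 / 10000 * (K / M)) ^ 2 = (126 / 10000) ^ 2 * K * (K / M) := by
    field_simp
  have h10 : K / M ≤ K := div_le_self hK.le hM
  calc M * (((w ^ 2) ^ 2 * (|L - th a C b| * (L - T))) * G) ^ 2
      ≤ M * (126 / 10000 * (K / M)) ^ 2 := mul_le_mul_of_nonneg_left h8 (by linarith)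
    _ = (126 / 10000) ^ 2 * K * (K / M) := h9
    _ ≤ (126 / 10000) ^ 2 * K * K := mul_le_mul_of_nonneg_left h10 (by positivity)
    _ < K ^ 2 := by nlinarith

end Pool.Agent.Lib.MP2027e1
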