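import Pool.Agent.Lib.MP_2027e1_lc.Kum

section
/-!
# MP_2027e1_lc, project E8: PRIM, primitive recursive functions are Diophantine (helper56)
-/
set_option autoImplicit false

namespace Pool.Agent.Lib.MP2027e1.PrimM

open Dioph Finset

/-- the recursion. -/
def rc (b : ℕ) (s : ℕ → ℕ → ℕ) (N : ℕ) : ℕ := Nat.rec b s N

theorem rc_zero (b : ℕ) (s : ℕ → ℕ → ℕ) : rc b s 0 = b := rfl
theorem rc_succ (b : ℕ) (s : ℕ → ℕ → ℕ) (N : ℕ) : rc b s (N + 1) = s N (rc b s N) := rfl

/-- coding of a recursion by Goedel's beta function. -/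
theorem rc_iff (b : ℕ) (s : ℕ → ℕ → ℕ) (N out : ℕ) : rc b s N = out ↔
    ∃ c d : ℕ, c % ((0 + 1) * d + 1) = b ∧
      (∀ k < N, c % ((k + 1 + 1) * d + 1) = s k (c % ((k + 1) * d + 1))) ∧
      c % ((N + 1) * d + 1) = out := by
  constructor
  · intro h
    let l : List ℕ := (List.range (N + 1)).map (rc b s)
    have hl : ∀ i ≤ N, Nat.beta (Nat.unbeta l) i = rc b s i := by
      intro i hi
      have hlen : i < l.length := by simp [l]; omega
      have := Nat.beta_unbeta_coe l ⟨i, hlen⟩
      simpa [l] using this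
    refine ⟨(Nat.unbeta l).unpair.1, (Nat.unbeta l).unpair.2, ?_, fun k hk => ?_, ?_⟩
    · have := hl 0 (Nat.zero_le _)
      rwa [Nat.beta, rc_zero] at this
    · have h1 := hl (k + 1) hk
      have h2 := hl k hk.le
      rw [Nat.beta] at h1 h2
      rw [h1, h2, rc_succ]
    · have := hl N le_rfl
      rw [Nat.beta, h] at this; exact this
  · rintro ⟨c, d, h0, hs, h1⟩
    have : ∀ j ≤ N, c % ((j + 1) * d + 1) = rc b s j := by
      intro j
      induction j with
      | zero => intro _; exact h0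
      | succ j ih => intro hj; rw [hs j (by omega), ih (by omega), rc_succ]
    rw [← h1, this N le_rfl]

theorem dfn_ext {α : Type} {f g : (α → ℕ) → ℕ} (h : DiophFn f) (e : ∀ v, f v = g v) :
    DiophFn g := by
  have : f = g := funext e
  rwa [← this]

theorem prec (hBQ : SpecBQ) {n : ℕ} {f : List.Vector ℕ n → ℕ} {g : List.Vector ℕ (n + 2) → ℕ}
    (hf : DiophFn fun v : Fin n → ℕ => f (List.Vector.ofFn v))
    (hg : DiophFn fun v : Fin (n + 2) → ℕ => g (List.Vector.ofFn v)) :
    DiophFn fun v : Fin (n + 1) → ℕ => rc (f (List.Vector.ofFn fun i => v i.succ))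
      (fun y IH => g (y ::ᵥ IH ::ᵥ List.Vector.ofFn fun i => v i.succ)) (v 0) := by
  let γ : Type := Option (Fin (n + 1)) ⊕ Fin 2
  have pj : ∀ s : γ, DiophFn fun w : γ → ℕ => w s := fun s => proj_dioph s
  have pj' : ∀ s : Option γ, DiophFn fun w : Option γ → ℕ => w s := fun s => proj_dioph s
  -- c % ((i+1) d + 1)
  have bt : ∀ {i : (γ → ℕ) → ℕ}, DiophFn i → DiophFn fun w : γ → ℕ =>
      w (Sum.inr 0) % ((i w + 1) * w (Sum.inr 1) + 1) := fun hi =>
    mod_dioph (pj _) (add_dioph (mul_dioph (add_dioph hi (const_dioph 1)) (pj _)) (const_dioph 1))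
  have bt' : ∀ {i : (Option γ → ℕ) → ℕ}, DiophFn i → DiophFn fun w : Option γ → ℕ =>
      w (some (Sum.inr 0)) % ((i w + 1) * w (some (Sum.inr 1)) + 1) := fun hi =>
    mod_dioph (pj' _) (add_dioph (mul_dioph (add_dioph hi (const_dioph 1)) (pj' _)) (const_dioph 1))
  have d1 : Dioph {w : γ → ℕ | w (Sum.inr 0) % ((0 + 1) * w (Sum.inr 1) + 1) =
      f (List.Vector.ofFn fun i => w (Sum.inl (some i.succ)))} :=
    eq_dioph (bt (i := fun _ => 0) (const_dioph 0))
      (DbM.comp_diophFn hf (fun i w => w (Sum.inl (some i.succ))) fun i => pj _)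
  have d3 : Dioph {w : γ → ℕ | w (Sum.inr 0) % ((w (Sum.inl (some 0)) + 1) * w (Sum.inr 1) + 1) =
      w (Sum.inl none)} := eq_dioph (bt (pj _)) (pj _)
  let hh : Fin (n + 2) → (Option γ → ℕ) → ℕ :=
    Fin.cons (fun z => z none) (Fin.cons
      (fun z => z (some (Sum.inr 0)) % ((z none + 1) * z (some (Sum.inr 1)) + 1))
      fun i z => z (some (Sum.inl (some i.succ))))
  have hhd : ∀ i, DiophFn (hh i) := by
    intro i
    refine Fin.cases ?_ (fun i => ?_) i
    · exact pj' none
    · refine Fin.cases ?_ (fun i => ?_) i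
      · exact bt' (pj' none)
      · exact pj' _
  have dS : Dioph {z : Option γ → ℕ |
      z (some (Sum.inr 0)) % ((z none + 1 + 1) * z (some (Sum.inr 1)) + 1) =
        g (List.Vector.ofFn fun i => hh i z)} :=
    eq_dioph (bt' (i := fun z => z none + 1) (add_dioph (pj' none) (const_dioph 1)))
      (DbM.comp_diophFn hg hh hhd)
  have d2 := DbM.bq_dioph hBQ dS (pj (Sum.inl (some 0)))
  refine Dioph.ext (ex_dioph (β := Fin 2) ((d1.inter d2).inter d3)) fun v => ?_
  show _ ↔ rc _ _ _ = v none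
  rw [rc_iff]
  have ee : ∀ (x : Fin 2 → ℕ) (k : ℕ), (List.Vector.ofFn fun i => hh i (Option.elim' k (Sum.elim v x)))
      = k ::ᵥ (x 0 % ((k + 1) * x 1 + 1)) ::ᵥ List.Vector.ofFn fun i => v (some i.succ) :=
    fun x k => rfl
  constructor
  · rintro ⟨x, ⟨h1, h2⟩, h3⟩
    refine ⟨x 0, x 1, h1, fun k hk => ?_, h3⟩
    have := h2 k hk
    rw [Set.mem_ofPred_eq, ee] at this
    exact this
  · rintro ⟨c, d, h1, h2, h3⟩
    refine ⟨![c, d], ⟨h1, fun k hk => ?_⟩, h3⟩
    rw [Set.mem_ofPred_eq, ee]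
    exact h2 k hk

theorem prim (hBQ : SpecBQ) {n : ℕ} {f : List.Vector ℕ n → ℕ} (hf : Nat.Primrec' f) :
    DiophFn fun v : Fin n → ℕ => f (List.Vector.ofFn v) := by
  induction hf with
  | zero => exact (const_dioph 0 : DiophFn (Function.const (Fin 0 → ℕ) 0))
  | succ =>
    refine dfn_ext (add_dioph (proj_dioph (0 : Fin 1)) (const_dioph 1)) fun v => ?_
    rfl
  | get i =>
    refine dfn_ext (proj_dioph i) fun v => ?_
    show v i = (List.Vector.ofFn v).get i
    rw [List.Vector.get_ofFn]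
  | comp g _ _ ihf ihg => exact DbM.comp_diophFn ihf (fun i v => g i (List.Vector.ofFn v)) ihg
  | prec _ _ ihf ihg => exact dfn_ext (prec hBQ ihf ihg) fun v => rfl

end Pool.Agent.Lib.MP2027e1.PrimM

namespace Pool.Agent.Lib.MP2027e1

theorem specPrim (hBQ : SpecBQ) : SpecPrim := fun _ _ hf => PrimM.prim hBQ hf

end Pool.Agent.Lib.MP2027e1
end

section
/-!
# MP_2027e1_lc, project E8: PART and DPRM (helper56)
-/
set_option autoImplicit false

namespace Pool.Agent.Lib.MP2027e1.PartM

open Dioph Finset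

theorem mem_mOfFn : ∀ {n : ℕ} (g : Fin n → Part ℕ) (w : List.Vector ℕ n),
    w ∈ (List.Vector.mOfFn g : Part (List.Vector ℕ n)) ↔ ∀ i, w.get i ∈ g i
  | 0, g, w => by
    rw [List.Vector.mOfFn]
    have : w = List.Vector.nil := List.Vector.eq_nil _
    subst this
    constructor
    · intro _ i; exact i.elim0
    · intro _; exact Part.mem_some _
  | n + 1, g, w => by
    rw [List.Vector.mOfFn]
    simp only [Part.bind_eq_bind, Part.mem_bind_iff, mem_mOfFn]
    constructor
    · rintro ⟨a, ha, v, hv, hw⟩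
      have hw' : w = a ::ᵥ v := Part.mem_some_iff.1 hw
      subst hw'
      intro i
      refine Fin.cases ?_ (fun i => ?_) i
      · simpa using ha
      · simpa using hv i
    · intro h
      refine ⟨w.head, ?_, w.tail, fun i => ?_, ?_⟩
      · have := h 0; rwa [List.Vector.get_zero] at this
      · rw [List.Vector.get_tail_succ]; exact h i.succ
      · exact Part.mem_some_iff.2 (List.Vector.cons_head_tail w).symm

theorem part (hBQ : SpecBQ) {n : ℕ} {f : List.Vector ℕ n →. ℕ} (hf : Nat.Partrec' f) :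
    Dioph {v : Option (Fin n) → ℕ | v none ∈ f (List.Vector.ofFn fun i => v (some i))} := by
  induction hf with
  | @prim n f hf =>
    refine Dioph.ext (PrimM.prim hBQ hf) fun v => ?_
    show f (List.Vector.ofFn (v ∘ some)) = v none ↔ v none ∈ (f : List.Vector ℕ n →. ℕ) _
    rw [PFun.coe_val, Part.mem_some_iff]
    exact eq_comm
  | @comp m n f g _ _ ihf ihg =>
    let γ : Type := Option (Fin m) ⊕ Fin n
    have d1 : Dioph {w : γ → ℕ | ∀ i : Fin n, w ∈ {w : γ → ℕ |
        w (Sum.inr i) ∈ g i (List.Vector.ofFn fun j => w (Sum.inl (some j)))}} :=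
      DbM.all_dioph _ fun i => Dioph.ext (reindex_dioph γ
        (fun o : Option (Fin m) => (Option.elim' (Sum.inr i) (fun j => Sum.inl (some j)) o : γ))
        (ihg i)) fun w => Iff.rfl
    have d2 : Dioph {w : γ → ℕ | w (Sum.inl none) ∈ f (List.Vector.ofFn fun j => w (Sum.inr j))} :=
      Dioph.ext (reindex_dioph γ
        (fun o : Option (Fin n) => (Option.elim' (Sum.inl none) (fun j => Sum.inr j) o : γ)) ihf)
        fun w => Iff.rfl
    refine Dioph.ext (ex_dioph (β := Fin n) (d1.inter d2)) fun v => ?_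
    show (∃ x : Fin n → ℕ, _) ↔
      v none ∈ (List.Vector.mOfFn fun i => g i (List.Vector.ofFn fun j => v (some j))) >>= f
    rw [Part.bind_eq_bind, Part.mem_bind_iff]
    constructor
    · rintro ⟨x, h1, h2⟩
      refine ⟨List.Vector.ofFn x, (mem_mOfFn _ _).2 fun i => ?_, h2⟩
      rw [List.Vector.get_ofFn]; exact h1 i
    · rintro ⟨w, h1, h2⟩
      refine ⟨fun i => w.get i, fun i => (mem_mOfFn _ _).1 h1 i, ?_⟩
      show v none ∈ f (List.Vector.ofFn fun j => w.get j)
      rw [List.Vector.ofFn_get]; exact h2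
  | @rfind n f _ ih =>
    have ih' : DiophFn fun v : Fin (n + 1) → ℕ => f (List.Vector.ofFn v) := by
      refine Dioph.ext ih fun v => ?_
      show v none ∈ (f : List.Vector ℕ (n + 1) →. ℕ) _ ↔ f (List.Vector.ofFn (v ∘ some)) = v none
      rw [PFun.coe_val, Part.mem_some_iff]
      exact eq_comm
    have d1 : Dioph {v : Option (Fin n) → ℕ |
        f (v none ::ᵥ List.Vector.ofFn fun i => v (some i)) = 0} :=
      eq_dioph (DbM.comp_diophFn ih' (Fin.cons (fun v => v none) fun i v => v (some i)) fun i =>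
        Fin.cases (proj_dioph none) (fun i => proj_dioph (some i)) i) (const_dioph 0)
    have d2 : Dioph {z : Option (Option (Fin n)) → ℕ |
        f (z none ::ᵥ List.Vector.ofFn fun i => z (some (some i))) ≠ 0} :=
      ne_dioph (DbM.comp_diophFn ih' (Fin.cons (fun z => z none) fun i z => z (some (some i)))
        fun i => Fin.cases (proj_dioph none) (fun i => proj_dioph (some (some i))) i) (const_dioph 0)
    have d3 := DbM.bq_dioph hBQ d2 (proj_dioph (none : Option (Fin n)))
    refine Dioph.ext (d1.inter d3) fun v => ?_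
    show _ ↔ v none ∈ Nat.rfind _
    rw [Nat.mem_rfind]
    refine and_congr ?_ ?_
    · show f (v none ::ᵥ List.Vector.ofFn fun i => v (some i)) = 0 ↔ _
      rw [Part.mem_some_iff]
      simp
    · refine forall_congr' fun k => forall_congr' fun _ => ?_
      show f (k ::ᵥ List.Vector.ofFn fun i => v (some i)) ≠ 0 ↔ _
      rw [Part.mem_some_iff]
      simp

end Pool.Agent.Lib.MP2027e1.PartM

namespace Pool.Agent.Lib.MP2027e1

open Dioph

theorem specPart (hBQ : SpecBQ) : SpecPart := fun _ _ hf => PartM.part hBQ hf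

theorem specDPRM (hPart : SpecPart) (hConv : SpecConv) : SpecDPRM := by
  intro R hR
  have h1 : Partrec₂ fun i x : ℕ => (Part.assert (R i x) fun _ => Part.some ()).map fun _ => 0 :=
    Partrec.map hR (Computable.const 0).to₂
  have h2 := hPart 2 _ (Nat.Partrec'.part_iff₂.2 h1)
  obtain ⟨m, P, hP⟩ := hConv _ _ (ex1_dioph h2)
  refine ⟨m, P, fun i x => ?_⟩
  rw [← hP]
  show R i x ↔ ∃ o, o ∈ (Part.assert (R i x) fun _ => Part.some ()).map fun _ => 0
  simp [Part.mem_map_iff, Part.mem_assert_iff]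

end Pool.Agent.Lib.MP2027e1
end
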