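import Pool.Agent.Lib.MP_2027e1_lc.Spec

section
/-!
# MULT: the value of `P` as a coefficient of `c(T)^δ D(T)`
-/
set_option autoImplicit false
set_option linter.unusedSectionVars false

namespace Pool.Agent.Lib.MP2027e1

open Finset Polynomial

namespace MultM

/-- uniqueness of the digits in base `b` -/
lemma digits_unique (n b : ℕ) (f g : Fin n → ℕ) (hf : ∀ i, f i < b) (hg : ∀ i, g i < b)
    (h : ∑ i, f i * b ^ (i : ℕ) = ∑ i, g i * b ^ (i : ℕ)) : f = g := by
  have h1 : finFunctionFinEquiv (fun i => (⟨f i, hf i⟩ : Fin b)) =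
      finFunctionFinEquiv (fun i => (⟨g i, hg i⟩ : Fin b)) := by
    apply Fin.ext
    rw [finFunctionFinEquiv_apply, finFunctionFinEquiv_apply]
    exact h
  have h2 := finFunctionFinEquiv.injective h1
  funext i
  have := congrFun h2 i
  exact Fin.ext_iff.1 this

variable {σ : Type} [Fintype σ] [DecidableEq σ]

/-- weighted degree -/
def wd (w : σ → ℕ) (a : σ → ℕ) : ℕ := ∑ s, a s * w s

/-- the polynomial `c(T)` -/
noncomputable def cc (w : σ → ℕ) (Y : σ → ℕ) : ℤ[X] :=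
  1 + ∑ s, C (Y s : ℤ) * X ^ w s

/-- the multinomial factor `∏ a_s! (δ - |a|)!` -/
def fa (δ : ℕ) (a : σ → ℕ) : ℕ := (∏ s, (a s).factorial) * (δ - ∑ s, a s).factorial

/-- the summands of `c`, indexed by `Option σ` -/
noncomputable def fs (w : σ → ℕ) (Y : σ → ℕ) : Option σ → ℤ[X]
  | none => 1
  | some s => C (Y s : ℤ) * X ^ w s

lemma cc_eq (w : σ → ℕ) (Y : σ → ℕ) : cc w Y = ∑ o : Option σ, fs w Y o := by
  rw [Fintype.sum_option]
  rfl

lemma prod_fs (w : σ → ℕ) (Y : σ → ℕ) (k : Option σ → ℕ) :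
    ∏ o : Option σ, fs w Y o ^ k o =
      C (∏ s, (Y s : ℤ) ^ k (some s)) * X ^ wd w (fun s => k (some s)) := by
  rw [Fintype.prod_option]
  simp only [fs, one_pow, one_mul, mul_pow, Finset.prod_mul_distrib]
  congr 1
  · rw [map_prod]
    refine Finset.prod_congr rfl fun s _ => ?_
    rw [← C_pow]
  · unfold wd
    rw [← Finset.prod_pow_eq_pow_sum]
    refine Finset.prod_congr rfl fun s _ => ?_
    rw [← pow_mul, mul_comm]

/-- the coefficient of `c^δ` at a weight `w(a)`, `|a| ≤ δ`, for weights with unique sums -/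
lemma coeff_cc (w : σ → ℕ) (Y : σ → ℕ) (δ : ℕ)
    (huniq : ∀ a b : σ → ℕ, (∑ s, a s ≤ δ) → (∑ s, b s ≤ δ) → wd w a = wd w b → a = b)
    (a : σ → ℕ) (ha : ∑ s, a s ≤ δ) :
    (fa δ a : ℤ) * (cc w Y ^ δ).coeff (wd w a) = δ.factorial * ∏ s, (Y s : ℤ) ^ a s := by
  rw [cc_eq, Finset.sum_pow_eq_sum_piAntidiag, Polynomial.finsetSum_coeff]
  -- the exponent vector
  set k₀ : Option σ → ℕ := fun o => match o with
    | none => δ - ∑ s, a s
    | some s => a s with hk₀
  have hk₀s : ∑ o, k₀ o = δ := by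
    rw [Fintype.sum_option]
    simp only [hk₀]
    omega
  have hk₀m : k₀ ∈ piAntidiag (univ : Finset (Option σ)) δ := by
    rw [mem_piAntidiag]
    exact ⟨hk₀s, fun _ _ => mem_univ _⟩
  rw [Finset.sum_eq_single_of_mem k₀ hk₀m]
  · rw [prod_fs, ← Polynomial.C_eq_natCast, Polynomial.coeff_C_mul, Polynomial.coeff_C_mul,
      Polynomial.coeff_X_pow, if_pos (by rfl), mul_one]
    have hm := Nat.multinomial_spec (univ : Finset (Option σ)) k₀
    rw [hk₀s, Fintype.prod_option] at hm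
    simp only [hk₀] at hm ⊢
    unfold fa
    have hm' : (((δ - ∑ s, a s).factorial * ∏ s, (a s).factorial : ℕ) : ℤ) *
        (Nat.multinomial univ k₀ : ℤ) = (δ.factorial : ℤ) := by
      exact_mod_cast hm
    rw [← hm']
    push_cast
    ring
  · intro k hk hne
    rw [mem_piAntidiag] at hk
    rw [prod_fs, ← Polynomial.C_eq_natCast, Polynomial.coeff_C_mul, Polynomial.coeff_C_mul,
      Polynomial.coeff_X_pow, if_neg, mul_zero, mul_zero]
    intro hw
    apply hne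
    have hks : k none + ∑ s, k (some s) = δ := by
      rw [← Fintype.sum_option]; exact hk.1
    have h1 := huniq a (fun s => k (some s)) ha (by omega) hw
    funext o
    cases o with
    | none =>
      simp only [hk₀]
      have h2 : ∑ s, a s = ∑ s, k (some s) := by rw [h1]
      rw [h2]
      omega
    | some s =>
      simp only [hk₀]
      exact (congrFun h1 s).symm

lemma term_bound (n y : ℕ) (Q : ℤ[X]) (M : ℤ) (hM : 0 ≤ M) (hQ : ∀ j, |Q.coeff j| ≤ M) (j : ℕ) :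
    |(C (y : ℤ) * X ^ n * Q).coeff j| ≤ (y : ℤ) * M := by
  rw [mul_assoc, Polynomial.coeff_C_mul, abs_mul, Nat.abs_cast]
  refine mul_le_mul_of_nonneg_left ?_ (Nat.cast_nonneg y)
  rw [Polynomial.coeff_X_pow_mul']
  by_cases h : n ≤ j
  · rw [if_pos h]; exact hQ _
  · rw [if_neg h, abs_zero]; exact hM

/-- multiplication by `c` and the size of the coefficients -/
lemma coeff_bound_step (w : σ → ℕ) (Y : σ → ℕ) (Q : ℤ[X]) (M : ℤ) (hQ : ∀ j, |Q.coeff j| ≤ M)
    (j : ℕ) : |(cc w Y * Q).coeff j| ≤ (1 + ∑ s, (Y s : ℤ)) * M := by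
  have hM : 0 ≤ M := (abs_nonneg _).trans (hQ 0)
  have h1 : (cc w Y * Q).coeff j = Q.coeff j + ∑ s, (C (Y s : ℤ) * X ^ w s * Q).coeff j := by
    unfold cc
    rw [add_mul, one_mul, Finset.sum_mul, Polynomial.coeff_add, Polynomial.finsetSum_coeff]
  have h2 : |∑ s, (C (Y s : ℤ) * X ^ w s * Q).coeff j| ≤ ∑ s, (Y s : ℤ) * M :=
    (Finset.abs_sum_le_sum_abs _ _).trans
      (Finset.sum_le_sum fun s _ => term_bound (w s) (Y s) Q M hM hQ j)
  rw [h1, add_mul, one_mul, Finset.sum_mul]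
  exact (abs_add_le _ _).trans (add_le_add (hQ j) h2)

lemma coeff_bound (w : σ → ℕ) (Y : σ → ℕ) (Q : ℤ[X]) (M : ℤ) (hQ : ∀ j, |Q.coeff j| ≤ M) (n : ℕ) :
    ∀ j, |(cc w Y ^ n * Q).coeff j| ≤ M * (1 + ∑ s, (Y s : ℤ)) ^ n := by
  induction n with
  | zero => intro j; simpa using hQ j
  | succ n ih =>
    intro j
    rw [pow_succ', mul_assoc]
    refine (coeff_bound_step w Y _ _ ih j).trans (le_of_eq ?_)
    ring

lemma natDegree_cc (w : σ → ℕ) (Y : σ → ℕ) (m : ℕ) (hm : ∀ s, w s ≤ m) :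
    (cc w Y).natDegree ≤ m := by
  unfold cc
  refine (Polynomial.natDegree_add_le _ _).trans (max_le (by simp) ?_)
  refine Polynomial.natDegree_sum_le_of_forall_le _ _ fun s _ => ?_
  exact (Polynomial.natDegree_C_mul_X_pow_le _ _).trans (hm s)

/-- the polynomial `D` -/
noncomputable def DP (S : Finset (σ →₀ ℕ)) (u : (σ →₀ ℕ) → ℤ) (v : (σ →₀ ℕ) → ℕ) (Ω : ℕ) : ℤ[X] :=
  X ^ (Ω + 1) + ∑ a ∈ S, C (u a) * X ^ (Ω - v a)

lemma DP_coeff (S : Finset (σ →₀ ℕ)) (u : (σ →₀ ℕ) → ℤ) (v : (σ →₀ ℕ) → ℕ) (Ω j : ℕ) :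
    |(DP S u v Ω).coeff j| ≤ 1 + ∑ a ∈ S, |u a| := by
  unfold DP
  rw [Polynomial.coeff_add, Polynomial.finsetSum_coeff]
  refine (abs_add_le _ _).trans (add_le_add ?_ ?_)
  · rw [Polynomial.coeff_X_pow]
    split_ifs <;> simp
  · refine (Finset.abs_sum_le_sum_abs _ _).trans (Finset.sum_le_sum fun a _ => ?_)
    rw [Polynomial.coeff_C_mul, Polynomial.coeff_X_pow]
    split_ifs <;> simp

lemma DP_natDegree (S : Finset (σ →₀ ℕ)) (u : (σ →₀ ℕ) → ℤ) (v : (σ →₀ ℕ) → ℕ) (Ω : ℕ) :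
    (DP S u v Ω).natDegree ≤ Ω + 1 := by
  unfold DP
  refine (Polynomial.natDegree_add_le _ _).trans (max_le (Polynomial.natDegree_X_pow_le _) ?_)
  refine Polynomial.natDegree_sum_le_of_forall_le _ _ fun s _ => ?_
  exact (Polynomial.natDegree_C_mul_X_pow_le _ _).trans (by omega)

lemma DP_eval (S : Finset (σ →₀ ℕ)) (u : (σ →₀ ℕ) → ℤ) (v : (σ →₀ ℕ) → ℕ) (Ω : ℕ) (β : ℤ)
    (hβ : 1 + ∑ a ∈ S, |u a| < β) : 0 < (DP S u v Ω).eval β := by
  have hs : 0 ≤ ∑ a ∈ S, |u a| := Finset.sum_nonneg fun _ _ => abs_nonneg _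
  have hβ1 : 1 ≤ β := by linarith
  have hβ0 : 0 < β ^ Ω := pow_pos (by linarith) Ω
  unfold DP
  rw [Polynomial.eval_add, Polynomial.eval_pow, Polynomial.eval_X, Polynomial.eval_finsetSum]
  have h1 : |∑ a ∈ S, (C (u a) * X ^ (Ω - v a)).eval β| ≤ (∑ a ∈ S, |u a|) * β ^ Ω := by
    rw [Finset.sum_mul]
    refine (Finset.abs_sum_le_sum_abs _ _).trans (Finset.sum_le_sum fun a _ => ?_)
    rw [Polynomial.eval_mul, Polynomial.eval_C, Polynomial.eval_pow, Polynomial.eval_X, abs_mul,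
      abs_of_nonneg (pow_nonneg (by linarith : (0 : ℤ) ≤ β) _)]
    exact mul_le_mul_of_nonneg_left (pow_le_pow_right₀ hβ1 (by omega)) (abs_nonneg _)
  have h2 := (abs_le.1 h1).1
  have h3 : (∑ a ∈ S, |u a|) * β ^ Ω < β ^ (Ω + 1) := by
    rw [pow_succ, mul_comm (β ^ Ω) β]
    exact mul_lt_mul_of_pos_right (by linarith) hβ0
  linarith

lemma coeff_mul_DP (Q : ℤ[X]) (S : Finset (σ →₀ ℕ)) (u : (σ →₀ ℕ) → ℤ) (v : (σ →₀ ℕ) → ℕ) (Ω : ℕ)
    (hv : ∀ a ∈ S, v a ≤ Ω) : (Q * DP S u v Ω).coeff Ω = ∑ a ∈ S, u a * Q.coeff (v a) := by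
  unfold DP
  rw [mul_add, Polynomial.coeff_add, Polynomial.coeff_mul_X_pow', if_neg (by omega), zero_add,
    Finset.mul_sum, Polynomial.finsetSum_coeff]
  refine Finset.sum_congr rfl fun a ha => ?_
  have h := hv a ha
  rw [mul_left_comm, Polynomial.coeff_C_mul, Polynomial.coeff_mul_X_pow', if_pos (by omega)]
  congr 2
  omega

lemma card_lt (n b : ℕ) (hb : 1 < b) (i : Fin n) : b ^ ((i : ℕ) + 1) < b ^ (n + 1) :=
  Nat.pow_lt_pow_right hb (by omega)

end MultM

open MultM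

theorem specMult : SpecMult := by
  classical
  intro p ν P
  obtain ⟨n, hn⟩ : ∃ n, n = Fintype.card (Fin p ⊕ Fin ν) := ⟨_, rfl⟩
  obtain ⟨e⟩ : Nonempty ((Fin p ⊕ Fin ν) ≃ Fin n) := ⟨hn ▸ Fintype.equivFin _⟩
  obtain ⟨δ, hδ⟩ : ∃ δ, δ = max 1 P.totalDegree := ⟨_, rfl⟩
  have hδ1 : 1 ≤ δ := by rw [hδ]; exact le_max_left _ _
  obtain ⟨w, hw⟩ : ∃ w : Fin p ⊕ Fin ν → ℕ, ∀ s, w s = (δ + 1) ^ ((e s : ℕ) + 1) :=
    ⟨_, fun _ => rfl⟩
  obtain ⟨m, hm⟩ : ∃ m, m = (δ + 1) ^ (n + 1) := ⟨_, rfl⟩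
  have hwm : ∀ s, w s < m := by
    intro s
    rw [hw, hm]
    exact card_lt n (δ + 1) (by omega) (e s)
  have hdeg : ∀ a ∈ P.support, ∑ s, a s ≤ δ := by
    intro a ha
    have h1 := MvPolynomial.le_totalDegree ha
    rw [Finsupp.sum_fintype _ _ (fun _ => rfl)] at h1
    exact h1.trans (by rw [hδ]; exact le_max_right _ _)
  have hwd : ∀ a : Fin p ⊕ Fin ν → ℕ, ∑ s, a s ≤ δ → wd w a ≤ δ * m := by
    intro a ha
    unfold wd
    calc ∑ s, a s * w s ≤ ∑ s, a s * m :=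
          Finset.sum_le_sum fun s _ => Nat.mul_le_mul_left _ (hwm s).le
      _ = (∑ s, a s) * m := by rw [Finset.sum_mul]
      _ ≤ δ * m := Nat.mul_le_mul_right _ ha
  have huniq : ∀ a b : Fin p ⊕ Fin ν → ℕ, (∑ s, a s ≤ δ) → (∑ s, b s ≤ δ) →
      wd w a = wd w b → a = b := by
    intro a b ha hb hab
    have key : ∀ a : Fin p ⊕ Fin ν → ℕ, wd w a =
        (δ + 1) * ∑ i : Fin n, a (e.symm i) * (δ + 1) ^ (i : ℕ) := by
      intro a
      unfold wd
      rw [Finset.mul_sum, ← Equiv.sum_comp e]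
      refine Finset.sum_congr rfl fun s _ => ?_
      rw [hw, Equiv.symm_apply_apply, pow_succ]
      ring
    have hle : ∀ a : Fin p ⊕ Fin ν → ℕ, (∑ s, a s ≤ δ) → ∀ s, a s < δ + 1 := by
      intro a ha s
      have : a s ≤ ∑ s, a s := Finset.single_le_sum (fun _ _ => Nat.zero_le _) (mem_univ s)
      omega
    rw [key, key] at hab
    have h1 := Nat.eq_of_mul_eq_mul_left (by omega) hab
    have h2 := digits_unique n (δ + 1) (fun i => a (e.symm i)) (fun i => b (e.symm i))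
      (fun i => hle a ha _) (fun i => hle b hb _) h1
    funext s
    have := congrFun h2 (e s)
    simpa using this
  have hinj : Function.Injective w := by
    intro s t hst
    rw [hw, hw] at hst
    have h1 := Nat.pow_right_injective (show 2 ≤ δ + 1 by omega) hst
    have h2 : (e s : ℕ) = e t := by simpa using h1
    exact e.injective (Fin.ext h2)
  refine ⟨δ, δ * m, δ * m + (δ * m + 1), m, 1 + ∑ a ∈ P.support, (P.coeff a * fa δ a).natAbs,
    δ.factorial, w, DP P.support (fun a => P.coeff a * fa δ a) (fun a => wd w a) (δ * m), hδ1,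
    Nat.factorial_pos δ, by omega, by omega, hinj, hwm, ?_, ?_⟩
  · intro β hβ
    refine DP_eval _ _ _ _ _ ?_
    refine lt_of_eq_of_lt ?_ hβ
    push_cast
    rfl
  · intro Y
    have hcc : (1 + ∑ s, Polynomial.C (Y s : ℤ) * Polynomial.X ^ w s : ℤ[X]) = cc w Y := rfl
    rw [hcc]
    refine ⟨?_, ?_, ?_⟩
    · rw [coeff_mul_DP _ _ _ _ _ (fun a ha => hwd a (hdeg a ha))]
      unfold ev
      rw [MvPolynomial.eval_eq', Finset.mul_sum]
      refine Finset.sum_congr rfl fun a ha => ?_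
      have h := coeff_cc w Y δ huniq a (hdeg a ha)
      calc P.coeff a * (fa δ a : ℤ) * (cc w Y ^ δ).coeff (wd w a)
          = P.coeff a * ((fa δ a : ℤ) * (cc w Y ^ δ).coeff (wd w a)) := by ring
        _ = P.coeff a * (δ.factorial * ∏ s, (Y s : ℤ) ^ a s) := by rw [h]
        _ = _ := by ring
    · refine Polynomial.natDegree_mul_le.trans (Nat.add_le_add ?_ (DP_natDegree _ _ _ _))
      refine Polynomial.natDegree_pow_le.trans (Nat.mul_le_mul_left _ ?_)
      exact natDegree_cc w Y m fun s => (hwm s).le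
    · intro j
      refine (coeff_bound w Y _ _ (DP_coeff _ _ _ _) δ j).trans (le_of_eq ?_)
      push_cast
      rfl

end Pool.Agent.Lib.MP2027e1
end

section
/-!
# RC: relation combining
-/
set_option autoImplicit false

namespace Pool.Agent.Lib.MP2027e1

theorem specRC : SpecRC := by
  intro A B S hA hB
  obtain ⟨W, hW⟩ : ∃ W : ℤ, W = 1 + A + B := ⟨_, rfl⟩
  obtain ⟨K, hK⟩ : ∃ K : ℤ, K = A + W * B + 1 := ⟨_, rfl⟩
  have hMM : ∀ n : ℤ, MM A B S n =
      ((n - (2 * S - 1) * K) ^ 2 - A - W ^ 2 * B) ^ 2 - 4 * W ^ 2 * A * B := by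
    intro n
    unfold MM
    rw [hK, hW]
  have hW1 : 1 ≤ W := by rw [hW]; linarith
  have hK1 : 1 ≤ K := by
    have : 0 ≤ W * B := mul_nonneg (by linarith) (by linarith)
    rw [hK]; linarith
  constructor
  · rintro ⟨n, hn⟩
    obtain ⟨τ, hτ⟩ : ∃ τ : ℤ, τ = n - (2 * S - 1) * K := ⟨_, rfl⟩
    have h1 : (τ ^ 2 - A - W ^ 2 * B) ^ 2 = 4 * W ^ 2 * A * B := by
      rw [hMM, ← hτ] at hn
      exact sub_eq_zero.1 hn
    -- `AB` is a square
    obtain ⟨s, hs⟩ : 2 * W ∣ τ ^ 2 - A - W ^ 2 * B := by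
      rw [← Int.pow_dvd_pow_iff two_ne_zero, h1]
      exact ⟨A * B, by ring⟩
    have hWpos : 0 < W := by linarith
    have hs2 : s ^ 2 = A * B := by
      rw [hs] at h1
      have : 4 * W ^ 2 * (s ^ 2) = 4 * W ^ 2 * (A * B) := by linarith [h1, mul_pow (2 * W) s 2]
      exact mul_left_cancel₀ (by positivity) this
    have hτ2 : τ ^ 2 = A + W ^ 2 * B + 2 * W * s := by linarith
    have hAτ : A * τ ^ 2 = (A + W * s) ^ 2 := by
      rw [hτ2]
      linear_combination (-W ^ 2) * hs2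
    have hs0 : s ≠ 0 := by
      rintro rfl
      have : 0 < A * B := mul_pos (by linarith) (by linarith)
      rw [← hs2] at this
      simp at this
    have hτ0 : τ ≠ 0 := by
      intro h0
      rw [h0] at hAτ
      have h3 : A + W * s = 0 := by
        have : (A + W * s) ^ 2 = 0 := by rw [← hAτ]; ring
        exact pow_eq_zero_iff two_ne_zero |>.1 this
      rcases lt_or_gt_of_ne hs0 with h | h
      · have h4 : s ≤ -1 := by omega
        have : W * s ≤ W * (-1) := mul_le_mul_of_nonneg_left h4 (by linarith)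
        linarith
      · have : 0 < W * s := mul_pos hWpos h
        linarith
    obtain ⟨r, hr⟩ : τ ∣ A + W * s := by
      rw [← Int.pow_dvd_pow_iff two_ne_zero, ← hAτ]
      exact ⟨A, by ring⟩
    have hAr : A = r ^ 2 := by
      rw [hr] at hAτ
      have : τ ^ 2 * A = τ ^ 2 * r ^ 2 := by linarith [hAτ, mul_pow τ r 2]
      exact mul_left_cancel₀ (pow_ne_zero 2 hτ0) this
    have hr0 : r ≠ 0 := by rintro rfl; rw [hAr] at hA; norm_num at hA
    obtain ⟨v, hv⟩ : r ∣ s := by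
      rw [← Int.pow_dvd_pow_iff two_ne_zero, hs2, hAr]
      exact ⟨B, rfl⟩
    have hBv : B = v ^ 2 := by
      rw [hv, hAr] at hs2
      have : r ^ 2 * B = r ^ 2 * v ^ 2 := by linarith [hs2, mul_pow r v 2]
      exact mul_left_cancel₀ (pow_ne_zero 2 hr0) this
    refine ⟨⟨r, by rw [hAr]; ring⟩, ⟨v, by rw [hBv]; ring⟩, ?_⟩
    -- size of `τ`
    have hτK : |τ| < K := by
      have h5 : τ ^ 2 ≤ (A + W * B) ^ 2 := by
        have h6 : s ≤ A * B := by
          rw [← hs2]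
          rcases lt_or_gt_of_ne hs0 with h | h
          · nlinarith [sq_nonneg s]
          · nlinarith
        have h7 : A ≤ A ^ 2 := by nlinarith
        have h8 : B ≤ B ^ 2 := by nlinarith
        have h9 : W ^ 2 * B ≤ W ^ 2 * B ^ 2 := mul_le_mul_of_nonneg_left h8 (by positivity)
        have h10 : 2 * W * s ≤ 2 * W * (A * B) := mul_le_mul_of_nonneg_left h6 (by linarith)
        rw [hτ2]
        linarith [show (A + W * B) ^ 2 = A ^ 2 + W ^ 2 * B ^ 2 + 2 * W * (A * B) by ring]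
      have h11 : 0 ≤ A + W * B := by
        have : 0 ≤ W * B := mul_nonneg (by linarith) (by linarith)
        linarith
      have h12 : |τ| ≤ A + W * B := abs_le_of_sq_le_sq h5 h11
      rw [hK]; linarith
    have hn0 : (0 : ℤ) ≤ n := Int.natCast_nonneg n
    have h13 : τ < K := (abs_lt.1 hτK).2
    have h14 : -K < (2 * S - 1) * K := by
      have : (2 * S - 1) * K = n - τ := by rw [hτ]; ring
      rw [this]; linarith
    by_contra hS
    have hS' : 2 * S - 1 ≤ -1 := by omega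
    have : (2 * S - 1) * K ≤ -1 * K := mul_le_mul_of_nonneg_right hS' (by linarith)
    linarith
  · rintro ⟨⟨r, hr⟩, ⟨v, hv⟩, hS⟩
    -- nonnegative roots
    have hr' : |r| * |r| = A := by rw [abs_mul_abs_self, hr]
    have hv' : |v| * |v| = B := by rw [abs_mul_abs_self, hv]
    have hn : 0 ≤ (2 * S - 1) * K + |r| + W * |v| := by
      have h1 : 0 ≤ (2 * S - 1) * K := mul_nonneg (by linarith) (by linarith)
      have h2 : 0 ≤ W * |v| := mul_nonneg (by linarith) (abs_nonneg v)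
      linarith [abs_nonneg r]
    refine ⟨((2 * S - 1) * K + |r| + W * |v|).toNat, ?_⟩
    rw [hMM, Int.toNat_of_nonneg hn]
    have e1 : (2 * S - 1) * K + |r| + W * |v| - (2 * S - 1) * K = |r| + W * |v| := by ring
    rw [e1]
    have e2 : (|r| + W * |v|) ^ 2 - A - W ^ 2 * B = 2 * W * |r| * |v| := by
      rw [← hr', ← hv']; ring
    rw [e2]
    have e3 : A * B = |r| * |r| * (|v| * |v|) := by rw [hr', hv']
    linear_combination (-4 * W ^ 2) * e3

end Pool.Agent.Lib.MP2027e1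
end
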